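import Pool.Agent.H817.PH.Stm2

set_option autoImplicit false

namespace Pool.Agent.H817.PH

open Set Filter Topology Module

section
variable {E : Type} [NormedAddCommGroup E] [NormedSpace ℝ E]

/-- the plane of `u` and `w` -/
def bdd_j (u w : E) (z : ℂ) : E := z.re • u - z.im • w

theorem bdd_T (T : E ≃ₗ[ℝ] E) (m : ℂ) (u w : E) (hu : T u = m.re • u - m.im • w)
    (hw : T w = m.im • u + m.re • w) (z : ℂ) : T (bdd_j u w z) = bdd_j u w (m * z) := by
  unfold bdd_j
  rw [map_sub, map_smul, map_smul, hu, hw, Complex.mul_re, Complex.mul_im]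
  module

theorem bdd_norm (u w : E) (z : ℂ) : ‖bdd_j u w z‖ ≤ ‖z‖ * (‖u‖ + ‖w‖) := by
  unfold bdd_j
  calc ‖z.re • u - z.im • w‖ ≤ ‖z.re • u‖ + ‖z.im • w‖ := norm_sub_le _ _
    _ = |z.re| * ‖u‖ + |z.im| * ‖w‖ := by
        rw [norm_smul, norm_smul, Real.norm_eq_abs, Real.norm_eq_abs]
    _ ≤ ‖z‖ * ‖u‖ + ‖z‖ * ‖w‖ :=
        add_le_add (mul_le_mul_of_nonneg_right (Complex.abs_re_le_norm z) (norm_nonneg _))
          (mul_le_mul_of_nonneg_right (Complex.abs_im_le_norm z) (norm_nonneg _))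
    _ = ‖z‖ * (‖u‖ + ‖w‖) := by ring

theorem bdd_pow (T : E ≃ₗ[ℝ] E) (m : ℂ) (u w e : E) (r : ℝ) (hu : T u = m.re • u - m.im • w)
    (hw : T w = m.im • u + m.re • w) (he : T e = r • e) (n : ℕ) : ∀ (c : ℝ) (z : ℂ),
    (T ^ n) (c • e + bdd_j u w z) = (r ^ n * c) • e + bdd_j u w (m ^ n * z) := by
  induction n with
  | zero =>
    intro c z
    rw [pow_zero, pow_zero, pow_zero, one_mul, one_mul]
    rfl
  | succ n ih =>
    intro c z
    rw [pow_succ, LinearEquiv.mul_apply, map_add, map_smul, he, bdd_T T m u w hu hw, smul_smul,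
      ih, pow_succ, pow_succ, mul_comm c r, mul_assoc, mul_assoc]

theorem bdd_indep (T : E ≃ₗ[ℝ] E) (m : ℂ) (u w : E) (hm : m.im ≠ 0) (h0 : u ≠ 0 ∨ w ≠ 0)
    (hu : T u = m.re • u - m.im • w) (hw : T w = m.im • u + m.re • w) :
    LinearIndependent ℝ ![u, w] := by
  rw [LinearIndependent.pair_iff]
  intro a b hab
  have h1 : T (a • u + b • w) = 0 := by rw [hab, map_zero]
  have h2 : m.im • (b • u - a • w) = 0 := by
    have h3 : T (a • u + b • w) = m.re • (a • u + b • w) + m.im • (b • u - a • w) := by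
      rw [map_add, map_smul, map_smul, hu, hw]
      module
    rw [h1, hab, smul_zero, zero_add] at h3
    exact h3.symm
  have h3 : b • u - a • w = 0 := (smul_eq_zero.1 h2).resolve_left hm
  have h4 : (a ^ 2 + b ^ 2) • u = 0 := by
    have e : (a ^ 2 + b ^ 2) • u = a • (a • u + b • w) + b • (b • u - a • w) := by module
    rw [e, hab, h3, smul_zero, smul_zero, add_zero]
  have h5 : (a ^ 2 + b ^ 2) • w = 0 := by
    have e : (a ^ 2 + b ^ 2) • w = b • (a • u + b • w) - a • (b • u - a • w) := by module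
    rw [e, hab, h3, smul_zero, smul_zero, sub_zero]
  have h6 : a ^ 2 + b ^ 2 = 0 := by
    rcases h0 with h | h
    · exact (smul_eq_zero.1 h4).resolve_right h
    · exact (smul_eq_zero.1 h5).resolve_right h
  constructor
  · nlinarith [sq_nonneg a, sq_nonneg b]
  · nlinarith [sq_nonneg a, sq_nonneg b]

end

theorem t_bdd : S_bdd := by
  intro E _ _ _ hE T hdet m u w hm hm1 h0 hu hw
  have hind := bdd_indep T m u w hm h0 hu hw
  obtain ⟨e, he⟩ := exists_linearIndependent_cons_of_lt_finrank hind (by rw [hE]; norm_num)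
  have he' : LinearIndependent ℝ ![e, u, w] := he
  obtain ⟨b, hb⟩ : ∃ b : Basis (Fin 3) ℝ E, ⇑b = ![e, u, w] :=
    ⟨basisOfLinearIndependentOfCardEqFinrank he' (by rw [hE, Fintype.card_fin]),
      coe_basisOfLinearIndependentOfCardEqFinrank _ _⟩
  have hb0 : b 0 = e := by rw [hb]; rfl
  have hb1 : b 1 = u := by rw [hb]; rfl
  have hb2 : b 2 = w := by rw [hb]; rfl
  obtain ⟨r, hr⟩ : ∃ r, r = b.repr (T e) 0 := ⟨_, rfl⟩
  obtain ⟨α, hα⟩ : ∃ α, α = b.repr (T e) 1 := ⟨_, rfl⟩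
  obtain ⟨β, hβ⟩ : ∃ β, β = b.repr (T e) 2 := ⟨_, rfl⟩
  have hTe : T e = r • e + α • u + β • w := by
    have h := b.sum_repr (T e)
    rw [Fin.sum_univ_three, hb0, hb1, hb2, ← hr, ← hα, ← hβ] at h
    exact h.symm
  have hnm : m.re ^ 2 + m.im ^ 2 = 1 := by
    have h := Complex.sq_norm m
    rw [hm1, Complex.normSq_apply] at h
    nlinarith
  have hr1 : |r| = 1 := by
    have h1 : LinearMap.det (T : E →ₗ[ℝ] E) = r := by
      rw [← LinearMap.det_toMatrix b, Matrix.det_fin_three]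
      have c0 : ∀ i, LinearMap.toMatrix b b (T : E →ₗ[ℝ] E) i 0 = b.repr (T e) i := by
        intro i
        rw [LinearMap.toMatrix_apply, hb0]
        rfl
      have c1 : ∀ i, LinearMap.toMatrix b b (T : E →ₗ[ℝ] E) i 1 =
          b.repr (m.re • b 1 - m.im • b 2) i := by
        intro i
        rw [LinearMap.toMatrix_apply, hb1, hb2, ← hu]
        rfl
      have c2 : ∀ i, LinearMap.toMatrix b b (T : E →ₗ[ℝ] E) i 2 =
          b.repr (m.im • b 1 + m.re • b 2) i := by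
        intro i
        rw [LinearMap.toMatrix_apply, hb1, hb2, ← hw]
        rfl
      rw [c0, c0, c0, c1, c1, c1, c2, c2, c2, ← hr, ← hα, ← hβ]
      simp only [map_sub, map_add, map_smul, Basis.repr_self, Finsupp.sub_apply,
        Finsupp.add_apply, Finsupp.smul_apply, Finsupp.single_apply, smul_eq_mul]
      simp
      linear_combination r * hnm
    rw [← h1]
    exact hdet
  -- the eigenvector
  obtain ⟨d, hd⟩ : ∃ d, d = (m.re - r) ^ 2 + m.im ^ 2 := ⟨_, rfl⟩
  have hd0 : d ≠ 0 := by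
    rw [hd]
    positivity
  obtain ⟨x, hx⟩ : ∃ x, x = (-α * (m.re - r) + β * m.im) / d := ⟨_, rfl⟩
  obtain ⟨y, hy⟩ : ∃ y, y = (-β * (m.re - r) - α * m.im) / d := ⟨_, rfl⟩
  have e1 : α + x * m.re + y * m.im = r * x := by
    have : (m.re - r) * x + m.im * y = -α := by
      rw [hx, hy]
      field_simp
      rw [hd]
      ring
    linarith
  have e2 : β - x * m.im + y * m.re = r * y := by
    have : -m.im * x + (m.re - r) * y = -β := by
      rw [hx, hy]
      field_simp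
      rw [hd]
      ring
    linarith
  obtain ⟨f, hf⟩ : ∃ f, f = e + x • u + y • w := ⟨_, rfl⟩
  have hTf : T f = r • f := by
    rw [hf, map_add, map_add, map_smul, map_smul, hTe, hu, hw]
    have e3 : r • e + α • u + β • w + x • (m.re • u - m.im • w) +
        y • (m.im • u + m.re • w) = r • e + (α + x * m.re + y * m.im) • u +
          (β - x * m.im + y * m.re) • w := by module
    rw [e3, e1, e2]
    module
  -- bounds of the coordinates
  obtain ⟨N, hN0, hN⟩ : ∃ N : ℝ, 0 ≤ N ∧ ∀ (i : Fin 3) (v : E), |b.repr v i| ≤ N * ‖v‖ := by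
    have h1 : ∀ i : Fin 3, ∀ v : E, |b.repr v i| ≤
        ‖LinearMap.toContinuousLinearMap (b.coord i)‖ * ‖v‖ := by
      intro i v
      have := (LinearMap.toContinuousLinearMap (b.coord i)).le_opNorm v
      exact this
    refine ⟨∑ i, ‖LinearMap.toContinuousLinearMap (b.coord i)‖,
      Finset.sum_nonneg fun i _ => norm_nonneg _, fun i v => (h1 i v).trans ?_⟩
    refine mul_le_mul_of_nonneg_right ?_ (norm_nonneg v)
    exact Finset.single_le_sum (f := fun i => ‖LinearMap.toContinuousLinearMap (b.coord i)‖)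
      (fun i _ => norm_nonneg _) (Finset.mem_univ i)
  refine ⟨N * ‖f‖ + N * (2 + |x| + |y|) * (‖u‖ + ‖w‖), fun n v => ?_⟩
  obtain ⟨c, hc⟩ : ∃ c, c = b.repr v 0 := ⟨_, rfl⟩
  obtain ⟨p, hp⟩ : ∃ p, p = b.repr v 1 := ⟨_, rfl⟩
  obtain ⟨q, hq⟩ : ∃ q, q = b.repr v 2 := ⟨_, rfl⟩
  have hv : v = c • f + bdd_j u w ⟨p - c * x, -(q - c * y)⟩ := by
    have h := b.sum_repr v
    rw [Fin.sum_univ_three, hb0, hb1, hb2, ← hc, ← hp, ← hq] at h
    unfold bdd_j
    rw [← h, hf]
    module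
  have hc1 : |c| ≤ N * ‖v‖ := by rw [hc]; exact hN 0 v
  have hp1 : |p| ≤ N * ‖v‖ := by rw [hp]; exact hN 1 v
  have hq1 : |q| ≤ N * ‖v‖ := by rw [hq]; exact hN 2 v
  have hz : ‖(⟨p - c * x, -(q - c * y)⟩ : ℂ)‖ ≤ N * (2 + |x| + |y|) * ‖v‖ := by
    refine (Complex.norm_le_abs_re_add_abs_im _).trans ?_
    show |p - c * x| + |-(q - c * y)| ≤ _
    rw [abs_neg]
    have k1 : |p - c * x| ≤ |p| + |c| * |x| := by
      rw [← abs_mul]
      exact abs_sub _ _
    have k2 : |q - c * y| ≤ |q| + |c| * |y| := by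
      rw [← abs_mul]
      exact abs_sub _ _
    have k3 : |c| * |x| ≤ N * ‖v‖ * |x| := mul_le_mul_of_nonneg_right hc1 (abs_nonneg _)
    have k4 : |c| * |y| ≤ N * ‖v‖ * |y| := mul_le_mul_of_nonneg_right hc1 (abs_nonneg _)
    linarith
  have hfin : (T ^ n) v = (r ^ n * c) • f +
      bdd_j u w (m ^ n * ⟨p - c * x, -(q - c * y)⟩) := by
    conv_lhs => rw [hv]
    exact bdd_pow T m u w f r hu hw hTf n _ _
  rw [hfin]
  refine (norm_add_le _ _).trans ?_
  have k5 : ‖(r ^ n * c) • f‖ ≤ N * ‖v‖ * ‖f‖ := by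
    rw [norm_smul, norm_mul, norm_pow, Real.norm_eq_abs, Real.norm_eq_abs, hr1, one_pow, one_mul]
    exact mul_le_mul_of_nonneg_right hc1 (norm_nonneg _)
  have k6 : ‖bdd_j u w (m ^ n * ⟨p - c * x, -(q - c * y)⟩)‖ ≤
      N * (2 + |x| + |y|) * ‖v‖ * (‖u‖ + ‖w‖) := by
    refine (bdd_norm u w _).trans ?_
    rw [norm_mul, norm_pow, hm1, one_pow, one_mul]
    exact mul_le_mul_of_nonneg_right hz (by positivity)
  calc _ ≤ N * ‖v‖ * ‖f‖ + N * (2 + |x| + |y|) * ‖v‖ * (‖u‖ + ‖w‖) := add_le_add k5 k6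
    _ = _ := by ring

end Pool.Agent.H817.PH
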