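import Pool.Agent.H817.PH.Stm

/-!
Elements proximal in both directions (helper903 for helper817).
-/

set_option autoImplicit false
set_option linter.all false

namespace Pool.Agent.H817.PH

open Set Filter Topology Module

section both

variable {Γ E : Type} [Group Γ] [NormedAddCommGroup E] [NormedSpace ℝ E] [FiniteDimensional ℝ E]

theorem both_apply (T : E ≃ₗ[ℝ] E) (x : E) : cl T x = T x := rfl

theorem both_mul (L : Γ →* (E ≃ₗ[ℝ] E)) (g h : Γ) : cl (L (g * h)) = cl (L g) * cl (L h) := by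
  ext x
  rw [ContinuousLinearMap.mul_apply, both_apply, both_apply, both_apply, map_mul]
  rfl

theorem both_trace (β : E →L[ℝ] ℝ) (a : E) :
    LinearMap.trace ℝ E ((β.smulRight a : E →L[ℝ] E) : E →ₗ[ℝ] E) = β a := by
  have h1 : ((β.smulRight a : E →L[ℝ] E) : E →ₗ[ℝ] E) = (β : E →ₗ[ℝ] ℝ).smulRight a := rfl
  rw [h1, LinearMap.trace_smulRight]
  rfl

/-- limits of products of three factors -/
theorem both_lim {A B : ℕ → (E →L[ℝ] E)} {A' B' : E →L[ℝ] E} {c c' : ℕ → ℝ} (X : E →L[ℝ] E)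
    (hA : Tendsto (fun n => (c n)⁻¹ • A n) atTop (𝓝 A'))
    (hB : Tendsto (fun n => (c' n)⁻¹ • B n) atTop (𝓝 B')) :
    Tendsto (fun n => (c n * c' n)⁻¹ • (A n * X * B n)) atTop (𝓝 (A' * X * B')) := by
  have h1 := (hA.mul_const X).mul hB
  refine h1.congr fun n => ?_
  rw [smul_mul_assoc, smul_mul_smul_comm, mul_inv]

end both

theorem t_both (h1 : S_pairs) (h2 : S_rank1) : S_both := by
  intro Γ E _ _ _ _ L hfin hirr hdet hunb
  obtain ⟨g, c, c', β, a, π', hc, hc', hβ, ha, hπ, hlim, hlim'⟩ := h2 L hfin hdet hunb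
  obtain ⟨u, hu⟩ : ∃ u, π' u ≠ 0 := by
    by_contra hcon
    push Not at hcon
    exact hπ (ContinuousLinearMap.ext hcon)
  have hne : ∀ γ : E →L[ℝ] ℝ, γ ≠ 0 → (γ : E →ₗ[ℝ] ℝ) ≠ 0 := by
    intro γ hγ h
    exact hγ (ContinuousLinearMap.coe_injective h)
  obtain ⟨δ, hδ1, hδ2⟩ := h1 L hirr 1 1 (fun _ => (β : E →ₗ[ℝ] ℝ)) (fun _ => π' u)
    (fun _ => (β : E →ₗ[ℝ] ℝ)) (fun _ => π' u) (fun _ => hne β hβ) (fun _ => hu)
    (fun _ => hne β hβ) (fun _ => hu)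
  have hδ1' : β (L δ (π' u)) ≠ 0 := hδ1 0
  have hδ2' : β (L δ⁻¹ (π' u)) ≠ 0 := hδ2 0
  obtain ⟨β1, hβ1⟩ : ∃ β1 : E →L[ℝ] ℝ, β1 = (β.comp (cl (L δ))).comp π' := ⟨_, rfl⟩
  obtain ⟨β2, hβ2⟩ : ∃ β2 : E →L[ℝ] ℝ, β2 = (β.comp (cl (L δ⁻¹))).comp π' := ⟨_, rfl⟩
  have hβ1' : β1 ≠ 0 := by
    intro h0
    apply hδ1'
    have h3 : β1 u = β (L δ (π' u)) := by
      rw [hβ1]
      rfl
    rw [← h3, h0]
    rfl
  have hβ2' : β2 ≠ 0 := by
    intro h0
    apply hδ2'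
    have h3 : β2 u = β (L δ⁻¹ (π' u)) := by
      rw [hβ2]
      rfl
    rw [← h3, h0]
    rfl
  obtain ⟨η, hη1, hη2⟩ := h1 L hirr 1 1 (fun _ => (β1 : E →ₗ[ℝ] ℝ)) (fun _ => a)
    (fun _ => (β2 : E →ₗ[ℝ] ℝ)) (fun _ => a) (fun _ => hne β1 hβ1') (fun _ => ha)
    (fun _ => hne β2 hβ2') (fun _ => ha)
  have hη1' : β1 (L η a) ≠ 0 := hη1 0
  have hη2' : β2 (L η⁻¹ a) ≠ 0 := hη2 0
  have hcl1 := both_lim (cl (L δ)) hlim hlim'
  have hcl2 := both_lim (cl (L δ⁻¹)) hlim hlim'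
  have e1 : (β.smulRight a : E →L[ℝ] E) * cl (L δ) * π' = β1.smulRight a := by
    ext x
    rw [hβ1]
    rfl
  have e2 : (β.smulRight a : E →L[ℝ] E) * cl (L δ⁻¹) * π' = β2.smulRight a := by
    ext x
    rw [hβ2]
    rfl
  rw [e1] at hcl1
  rw [e2] at hcl2
  refine ⟨fun n => η * (g n * δ * (g n)⁻¹), fun n => c n * c' n, β1.smulRight (L η a),
    (β2.comp (cl (L η⁻¹))).smulRight a, hc.atTop_mul_atTop₀ hc', ?_, ?_, ?_, ?_⟩
  · rw [both_trace]
    exact hη1'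
  · rw [both_trace]
    exact hη2'
  · have h3 := hcl1.const_mul (cl (L η))
    have e3 : cl (L η) * (β1.smulRight a : E →L[ℝ] E) = β1.smulRight (L η a) := by
      ext x
      show L η (β1 x • a) = β1 x • L η a
      exact map_smul (L η) _ _
    rw [e3] at h3
    refine h3.congr fun n => ?_
    rw [mul_smul_comm]
    congr 1
    rw [both_mul, both_mul, both_mul]
  · have h3 := hcl2.mul_const (cl (L η⁻¹))
    have e3 : (β2.smulRight a : E →L[ℝ] E) * cl (L η⁻¹) = (β2.comp (cl (L η⁻¹))).smulRight a := by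
      ext x
      rfl
    rw [e3] at h3
    refine h3.congr fun n => ?_
    rw [smul_mul_assoc]
    congr 1
    have e4 : (η * (g n * δ * (g n)⁻¹))⁻¹ = g n * δ⁻¹ * (g n)⁻¹ * η⁻¹ := by group
    rw [e4, both_mul, both_mul, both_mul]

end Pool.Agent.H817.PH
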