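import Pool.Agent.H817.PH.Stm

set_option autoImplicit false

/-! Composition 1: the limit of the transition numbers of `M1 diag(l)^n M2`. -/

namespace Pool.Agent.H817.PH

open Set Filter Topology Module

theorem comp_entry (l : Fin 3 → ℝ) (M1 M2 : M3) (n : ℕ) (i j : Fin 3) :
    (M1 * Matrix.diagonal l ^ n * M2) i j =
      M1 i 0 * l 0 ^ n * M2 0 j + M1 i 1 * l 1 ^ n * M2 1 j + M1 i 2 * l 2 ^ n * M2 2 j := by
  rw [Matrix.diagonal_pow, Matrix.mul_apply, Fin.sum_univ_three]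
  simp only [Matrix.mul_diagonal, Pi.pow_apply]

theorem comp_ratio {x y : ℝ} (h : |x| < |y|) :
    Tendsto (fun n : ℕ => x ^ n / y ^ n) atTop (𝓝 0) := by
  have hy : 0 < |y| := (abs_nonneg x).trans_lt h
  have h1 : |x / y| < 1 := by
    rw [abs_div, div_lt_one hy]
    exact h
  refine (tendsto_pow_atTop_nhds_zero_of_abs_lt_one h1).congr fun n => ?_
  rw [div_pow]

theorem t_comp : S_comp := by
  intro l M1 M2 h10 h21 h2 hM1 hM2
  have hl1 : l 1 ≠ 0 := by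
    intro h
    rw [h, abs_zero] at h21
    exact absurd h21 (not_lt.2 (abs_nonneg _))
  have hl0 : l 0 ≠ 0 := by
    intro h
    rw [h, abs_zero] at h10
    exact absurd h10 (not_lt.2 (abs_nonneg _))
  have hp := comp_ratio h10
  have hr := comp_ratio h21
  have hpr : Tendsto (fun n : ℕ => l 1 ^ n / l 0 ^ n * (l 2 ^ n / l 1 ^ n)) atTop (𝓝 0) := by
    simpa using hp.mul hr
  have hden : Tendsto (fun n : ℕ => M1 0 0 * M2 0 2 + M1 0 1 * M2 1 2 * (l 1 ^ n / l 0 ^ n) +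
      M1 0 2 * M2 2 2 * (l 1 ^ n / l 0 ^ n * (l 2 ^ n / l 1 ^ n))) atTop
      (𝓝 (M1 0 0 * M2 0 2)) := by
    have := (tendsto_const_nhds (x := M1 0 0 * M2 0 2)).add (hp.const_mul (M1 0 1 * M2 1 2))
    have := this.add (hpr.const_mul (M1 0 2 * M2 2 2))
    simpa using this
  have hnum : Tendsto (fun n : ℕ =>
      -((M1 0 0 * M1 1 1 - M1 0 1 * M1 1 0) * (M2 0 1 * M2 1 2 - M2 0 2 * M2 1 1) +
      (M1 0 0 * M1 1 2 - M1 0 2 * M1 1 0) * (M2 0 1 * M2 2 2 - M2 0 2 * M2 2 1) *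
        (l 2 ^ n / l 1 ^ n) +
      (M1 0 1 * M1 1 2 - M1 0 2 * M1 1 1) * (M2 1 1 * M2 2 2 - M2 1 2 * M2 2 1) *
        (l 1 ^ n / l 0 ^ n * (l 2 ^ n / l 1 ^ n)))) atTop
      (𝓝 (-((M1 0 0 * M1 1 1 - M1 0 1 * M1 1 0) * (M2 0 1 * M2 1 2 - M2 0 2 * M2 1 1)))) := by
    have h1 := (tendsto_const_nhds (x := (M1 0 0 * M1 1 1 - M1 0 1 * M1 1 0) *
      (M2 0 1 * M2 1 2 - M2 0 2 * M2 1 1))).add (hr.const_mul
        ((M1 0 0 * M1 1 2 - M1 0 2 * M1 1 0) * (M2 0 1 * M2 2 2 - M2 0 2 * M2 2 1)))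
    have h2 := (h1.add (hpr.const_mul
      ((M1 0 1 * M1 1 2 - M1 0 2 * M1 1 1) * (M2 1 1 * M2 2 2 - M2 1 2 * M2 2 1)))).neg
    simpa using h2
  have hne : M1 0 0 * M2 0 2 ≠ 0 := mul_ne_zero hM1 hM2
  have hev := hden.eventually_ne hne
  have hP : ∀ n : ℕ, (M1 * Matrix.diagonal l ^ n * M2) 0 2 =
      l 0 ^ n * (M1 0 0 * M2 0 2 + M1 0 1 * M2 1 2 * (l 1 ^ n / l 0 ^ n) +
      M1 0 2 * M2 2 2 * (l 1 ^ n / l 0 ^ n * (l 2 ^ n / l 1 ^ n))) := by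
    intro n
    have h0 : l 0 ^ n ≠ 0 := pow_ne_zero _ hl0
    have h1 : l 1 ^ n ≠ 0 := pow_ne_zero _ hl1
    rw [comp_entry]
    field_simp
  constructor
  · filter_upwards [hev] with n hn
    rw [hP]
    exact mul_ne_zero (pow_ne_zero _ hl0) hn
  · have hlim : sch M1 * kap M2 =
        -((M1 0 0 * M1 1 1 - M1 0 1 * M1 1 0) * (M2 0 1 * M2 1 2 - M2 0 2 * M2 1 1)) /
          (M1 0 0 * M2 0 2) := by
      unfold sch kap
      field_simp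
      ring
    rw [hlim]
    refine (hnum.div hden hne).congr' ?_
    filter_upwards [hev] with n hn
    have h0 : l 0 ^ n ≠ 0 := pow_ne_zero _ hl0
    have h1 : l 1 ^ n ≠ 0 := pow_ne_zero _ hl1
    have hP2 := hP n
    have hPne : (M1 * Matrix.diagonal l ^ n * M2) 0 2 ≠ 0 := by
      rw [hP2]
      exact mul_ne_zero h0 hn
    have hk : kap (M1 * Matrix.diagonal l ^ n * M2) =
        ((M1 * Matrix.diagonal l ^ n * M2) 1 1 * (M1 * Matrix.diagonal l ^ n * M2) 0 2 -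
          (M1 * Matrix.diagonal l ^ n * M2) 1 2 * (M1 * Matrix.diagonal l ^ n * M2) 0 1) /
          (M1 * Matrix.diagonal l ^ n * M2) 0 2 := by
      unfold kap
      field_simp
    have hminor : (M1 * Matrix.diagonal l ^ n * M2) 1 1 * (M1 * Matrix.diagonal l ^ n * M2) 0 2 -
          (M1 * Matrix.diagonal l ^ n * M2) 1 2 * (M1 * Matrix.diagonal l ^ n * M2) 0 1 =
        l 0 ^ n * l 1 ^ n *
        -((M1 0 0 * M1 1 1 - M1 0 1 * M1 1 0) * (M2 0 1 * M2 1 2 - M2 0 2 * M2 1 1) +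
      (M1 0 0 * M1 1 2 - M1 0 2 * M1 1 0) * (M2 0 1 * M2 2 2 - M2 0 2 * M2 2 1) *
        (l 2 ^ n / l 1 ^ n) +
      (M1 0 1 * M1 1 2 - M1 0 2 * M1 1 1) * (M2 1 1 * M2 2 2 - M2 1 2 * M2 2 1) *
        (l 1 ^ n / l 0 ^ n * (l 2 ^ n / l 1 ^ n))) := by
      rw [comp_entry, comp_entry, comp_entry, comp_entry]
      generalize l 0 ^ n = a at *
      generalize l 1 ^ n = b at *
      generalize l 2 ^ n = c at *
      field_simp
      ring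
    rw [hk, hminor, hP2]
    simp only [Pi.div_apply]
    generalize M1 0 0 * M2 0 2 + M1 0 1 * M2 1 2 * (l 1 ^ n / l 0 ^ n) +
      M1 0 2 * M2 2 2 * (l 1 ^ n / l 0 ^ n * (l 2 ^ n / l 1 ^ n)) = D at hn ⊢
    generalize (M1 0 0 * M1 1 1 - M1 0 1 * M1 1 0) * (M2 0 1 * M2 1 2 - M2 0 2 * M2 1 1) +
      (M1 0 0 * M1 1 2 - M1 0 2 * M1 1 0) * (M2 0 1 * M2 2 2 - M2 0 2 * M2 2 1) *
        (l 2 ^ n / l 1 ^ n) +
      (M1 0 1 * M1 1 2 - M1 0 2 * M1 1 1) * (M2 1 1 * M2 2 2 - M2 1 2 * M2 2 1) *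
        (l 1 ^ n / l 0 ^ n * (l 2 ^ n / l 1 ^ n)) = E
    field_simp

end Pool.Agent.H817.PH
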