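import Pool.Agent.H817.PH.Stm

set_option autoImplicit false

/-!
The closed convex cone generated by the orbit of a map of rank one (S_cone).
-/

namespace Pool.Agent.H817.PH

open Set Filter Topology Module

section cone

variable {Γ E : Type} [Group Γ] [NormedAddCommGroup E] [NormedSpace ℝ E] [FiniteDimensional ℝ E]
  (L : Γ →* (E ≃ₗ[ℝ] E))

/-- the determinant -/
noncomputable def cone_D (g : Γ) : ℝ := LinearMap.det (L g : E →ₗ[ℝ] E)

omit [FiniteDimensional ℝ E] in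
lemma cone_D_mul (g h : Γ) : cone_D L (g * h) = cone_D L g * cone_D L h := by
  unfold cone_D
  rw [map_mul]
  exact LinearMap.det_comp _ _

omit [FiniteDimensional ℝ E] in
lemma cone_D_one : cone_D L 1 = 1 := by
  unfold cone_D
  rw [map_one]
  exact LinearMap.det_id

omit [FiniteDimensional ℝ E] in
lemma cone_D_sq (hd : ∀ g, |cone_D L g| = 1) (g : Γ) : cone_D L g * cone_D L g = 1 := by
  rw [← abs_mul_abs_self, hd, one_mul]

omit [FiniteDimensional ℝ E] in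
lemma cone_D_ne (hd : ∀ g, |cone_D L g| = 1) (g : Γ) : cone_D L g ≠ 0 := by
  intro h
  have h2 := cone_D_sq L hd g
  rw [h, mul_zero] at h2
  exact zero_ne_one h2

omit [FiniteDimensional ℝ E] in
lemma cone_D_inv (hd : ∀ g, |cone_D L g| = 1) (g : Γ) : cone_D L g⁻¹ = cone_D L g := by
  have h1 : cone_D L g⁻¹ * cone_D L g = 1 := by
    rw [← cone_D_mul, inv_mul_cancel, cone_D_one]
  exact mul_right_cancel₀ (cone_D_ne L hd g) (h1.trans (cone_D_sq L hd g).symm)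

omit [FiniteDimensional ℝ E] in
lemma cone_L_mul (g h : Γ) (x : E) : L (g * h) x = L g (L h x) := by
  rw [map_mul]
  rfl

omit [FiniteDimensional ℝ E] in
lemma cone_L_inv (g : Γ) (x : E) : L g⁻¹ (L g x) = x := by
  rw [← cone_L_mul, inv_mul_cancel, map_one]
  rfl

/-- the action on the endomorphisms -/
noncomputable def cone_A (g : Γ) : (E →L[ℝ] E) →ₗ[ℝ] (E →L[ℝ] E) where
  toFun X := cone_D L g • ((cl (L g)).comp (X.comp (cl (L g⁻¹))))
  map_add' X Y := by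
    ext x
    change cone_D L g • L g (X (L g⁻¹ x) + Y (L g⁻¹ x)) =
      cone_D L g • L g (X (L g⁻¹ x)) + cone_D L g • L g (Y (L g⁻¹ x))
    rw [map_add, smul_add]
  map_smul' t X := by
    ext x
    change cone_D L g • L g (t • X (L g⁻¹ x)) = t • (cone_D L g • L g (X (L g⁻¹ x)))
    rw [map_smul, smul_comm]

lemma cone_A_apply (g : Γ) (X : E →L[ℝ] E) (x : E) :
    cone_A L g X x = cone_D L g • L g (X (L g⁻¹ x)) := rfl

lemma cone_A_mul (g h : Γ) (X : E →L[ℝ] E) :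
    cone_A L (g * h) X = cone_A L g (cone_A L h X) := by
  ext x
  rw [cone_A_apply, cone_A_apply, cone_A_apply, mul_inv_rev, cone_L_mul, cone_L_mul,
    cone_D_mul, map_smul, smul_smul]

/-- the pairing with the translate of the map of rank one -/
noncomputable def cone_T (φ : E →L[ℝ] ℝ) (v : E) (g : Γ) : (E →L[ℝ] E) →L[ℝ] ℝ :=
  cone_D L g • (φ.comp (cl (L g⁻¹))).comp (ContinuousLinearMap.apply ℝ E (L g v))

lemma cone_T_apply (φ : E →L[ℝ] ℝ) (v : E) (g : Γ) (X : E →L[ℝ] E) :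
    cone_T L φ v g X = cone_D L g * φ (L g⁻¹ (X (L g v))) := rfl

lemma cone_T_rank (φ : E →L[ℝ] ℝ) (v : E) (g : Γ) (ψ : E →L[ℝ] ℝ) (u : E) :
    cone_T L φ v g (ψ.smulRight u) = cone_D L g * (ψ (L g v) * φ (L g⁻¹ u)) := by
  rw [cone_T_apply, ContinuousLinearMap.smulRight_apply, map_smul, map_smul, smul_eq_mul]

lemma cone_A_rank (h : Γ) (φ : E →L[ℝ] ℝ) (v : E) :
    cone_A L h (φ.smulRight v) = (cone_D L h • φ.comp (cl (L h⁻¹))).smulRight (L h v) := by
  ext x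
  rw [cone_A_apply, ContinuousLinearMap.smulRight_apply, map_smul, smul_smul]
  rfl

lemma cone_T_orbit (hd : ∀ g, |cone_D L g| = 1) (φ : E →L[ℝ] ℝ) (v : E)
    (hpos : ∀ g, 0 ≤ cone_D L g * (φ (L g v) * φ (L g⁻¹ v))) (g h : Γ) :
    0 ≤ cone_T L φ v g (cone_A L h (φ.smulRight v)) := by
  have h1 := hpos (g⁻¹ * h)
  rw [cone_D_mul, cone_D_inv L hd, mul_inv_rev, inv_inv, cone_L_mul, cone_L_mul] at h1
  rw [cone_A_rank, cone_T_rank]
  have h2 : (cone_D L h • φ.comp (cl (L h⁻¹))) (L g v) = cone_D L h * φ (L h⁻¹ (L g v)) := rfl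
  rw [h2]
  have e : cone_D L g * (cone_D L h * φ (L h⁻¹ (L g v)) * φ (L g⁻¹ (L h v))) =
      cone_D L g * cone_D L h * (φ (L g⁻¹ (L h v)) * φ (L h⁻¹ (L g v))) := by ring
  rw [e]
  exact h1

omit [FiniteDimensional ℝ E] in
lemma cone_smul (a b : ℝ) (ψ : E →L[ℝ] ℝ) (u : E) :
    (a • ψ).smulRight (b • u) = (a * b) • ψ.smulRight u := by
  ext x
  change (a * ψ x) • (b • u) = (a * b) • (ψ x • u)
  rw [smul_smul, smul_smul]
  congr 1
  ring

end cone

/-- CONE -/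
theorem t_cone (hpairs : S_pairs) : S_cone := by
  intro Γ E _ _ _ _ L hirr hdet φ v hφ hv hpos0
  classical
  have hd : ∀ g, |cone_D L g| = 1 := hdet
  have hpos : ∀ g, 0 ≤ cone_D L g * (φ (L g v) * φ (L g⁻¹ v)) := hpos0
  have : ProperSpace E := FiniteDimensional.proper_real E
  have : ProperSpace (E →L[ℝ] ℝ) := FiniteDimensional.proper_real _
  -- the compact set
  set Tf : Γ → ((E →L[ℝ] ℝ) × E) → ℝ := fun g p => cone_T L φ v g (p.1.smulRight p.2) with hTf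
  have hTc : ∀ g, Continuous (Tf g) := by
    intro g
    have e : Tf g = fun p => cone_D L g * (p.1 (L g v) * (φ.comp (cl (L g⁻¹))) p.2) := by
      funext p
      exact cone_T_rank L φ v g p.1 p.2
    rw [e]
    exact continuous_const.mul ((continuous_fst.clm_apply continuous_const).mul
      ((φ.comp (cl (L g⁻¹))).continuous.comp continuous_snd))
  set P : Set ((E →L[ℝ] ℝ) × E) :=
    (Metric.sphere (0 : E →L[ℝ] ℝ) 1 ×ˢ Metric.sphere (0 : E) 1) ∩ {p | ∀ g, 0 ≤ Tf g p} with hP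
  have hPcl : IsClosed {p | ∀ g, 0 ≤ Tf g p} := by
    rw [Set.ofPred_forall]
    exact isClosed_iInter fun g => isClosed_le continuous_const (hTc g)
  have hPc : IsCompact P :=
    ((isCompact_sphere _ _).prod (isCompact_sphere _ _)).inter_right hPcl
  -- positivity
  have hcov : P ⊆ ⋃ g, {p | 0 < Tf g p} := by
    rintro ⟨ψ, u⟩ ⟨⟨h1, h2⟩, h3⟩
    have hψ : ψ ≠ 0 := by
      rintro rfl
      rw [mem_sphere_zero_iff_norm, norm_zero] at h1
      exact zero_ne_one h1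
    have hu : u ≠ 0 := by
      rintro rfl
      rw [mem_sphere_zero_iff_norm, norm_zero] at h2
      exact zero_ne_one h2
    obtain ⟨g, hg1, hg2⟩ := hpairs L hirr 1 1 (fun _ => (ψ : E →ₗ[ℝ] ℝ)) (fun _ => v)
      (fun _ => (φ : E →ₗ[ℝ] ℝ)) (fun _ => u)
      (fun _ h => hψ (by ext x; exact congrArg (fun f : E →ₗ[ℝ] ℝ => f x) h)) (fun _ => hv)
      (fun _ h => hφ (by ext x; exact congrArg (fun f : E →ₗ[ℝ] ℝ => f x) h)) (fun _ => hu)
    have hg1' : ψ (L g v) ≠ 0 := hg1 0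
    have hg2' : φ (L g⁻¹ u) ≠ 0 := hg2 0
    rw [Set.mem_iUnion]
    refine ⟨g, lt_of_le_of_ne (h3 g) (Ne.symm ?_)⟩
    have e : Tf g (ψ, u) = cone_D L g * (ψ (L g v) * φ (L g⁻¹ u)) := cone_T_rank L φ v g ψ u
    rw [e]
    exact mul_ne_zero (cone_D_ne L hd g) (mul_ne_zero hg1' hg2')
  obtain ⟨t, ht⟩ := hPc.elim_finite_subcover (fun g => {p | 0 < Tf g p})
    (fun g => isOpen_lt continuous_const (hTc g)) hcov
  -- the functional
  set Θ : (E →L[ℝ] E) →L[ℝ] ℝ := ∑ g ∈ t, cone_T L φ v g with hΘ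
  have hΘa : ∀ X, Θ X = ∑ g ∈ t, cone_T L φ v g X := by
    intro X
    rw [hΘ, ContinuousLinearMap.sum_apply]
  have hΘP : ∀ p ∈ P, 0 < Θ (p.1.smulRight p.2) := by
    intro p hp
    rw [hΘa]
    have h1 := ht hp
    rw [Set.mem_iUnion₂] at h1
    obtain ⟨g, hg, hg'⟩ := h1
    exact Finset.sum_pos' (fun g _ => hp.2 g) ⟨g, hg, hg'⟩
  -- the normalised orbit
  have horb : ∀ h : Γ, ∃ p ∈ P, ∃ r : ℝ, 0 < r ∧ cone_A L h (φ.smulRight v) =
      r • p.1.smulRight p.2 ∧ ‖cone_A L h (φ.smulRight v)‖ = r := by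
    intro h
    set ψ := cone_D L h • φ.comp (cl (L h⁻¹)) with hψd
    set u := L h v with hud
    have hψ : ψ ≠ 0 := by
      intro h0
      apply hφ
      ext x
      have h2 : ψ (L h x) = 0 := by rw [h0]; rfl
      have h3 : ψ (L h x) = cone_D L h * φ (L h⁻¹ (L h x)) := rfl
      rw [h3, cone_L_inv] at h2
      exact (mul_eq_zero.1 h2).resolve_left (cone_D_ne L hd h)
    have hu : u ≠ 0 := (LinearEquiv.map_ne_zero_iff _).2 hv
    have hψn : 0 < ‖ψ‖ := norm_pos_iff.2 hψ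
    have hun : 0 < ‖u‖ := norm_pos_iff.2 hu
    have hA : cone_A L h (φ.smulRight v) = ψ.smulRight u := cone_A_rank L h φ v
    have hN : (‖ψ‖⁻¹ • ψ).smulRight (‖u‖⁻¹ • u) = (‖ψ‖⁻¹ * ‖u‖⁻¹) • ψ.smulRight u :=
      cone_smul _ _ _ _
    refine ⟨(‖ψ‖⁻¹ • ψ, ‖u‖⁻¹ • u), ⟨⟨?_, ?_⟩, ?_⟩, ‖ψ‖ * ‖u‖, mul_pos hψn hun, ?_, ?_⟩
    · rw [mem_sphere_zero_iff_norm, norm_smul, norm_inv, norm_norm, inv_mul_cancel₀ hψn.ne']
    · rw [mem_sphere_zero_iff_norm, norm_smul, norm_inv, norm_norm, inv_mul_cancel₀ hun.ne']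
    · intro g
      change 0 ≤ cone_T L φ v g ((‖ψ‖⁻¹ • ψ).smulRight (‖u‖⁻¹ • u))
      rw [hN, map_smul, smul_eq_mul, ← hA]
      exact mul_nonneg (by positivity) (cone_T_orbit L hd φ v hpos g h)
    · change _ = (‖ψ‖ * ‖u‖) • (‖ψ‖⁻¹ • ψ).smulRight (‖u‖⁻¹ • u)
      rw [hN, hA, smul_smul]
      have e : ‖ψ‖ * ‖u‖ * (‖ψ‖⁻¹ * ‖u‖⁻¹) = 1 := by
        field_simp
      rw [e, one_smul]
    · rw [hA]
      exact ContinuousLinearMap.norm_smulRight_apply ψ u
  -- the lower bound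
  have hPn : P.Nonempty := by
    obtain ⟨p, hp, -⟩ := horb 1
    exact ⟨p, hp⟩
  have hΘc : Continuous fun p : (E →L[ℝ] ℝ) × E => Θ (p.1.smulRight p.2) := by
    have e : (fun p : (E →L[ℝ] ℝ) × E => Θ (p.1.smulRight p.2)) = fun p => ∑ g ∈ t, Tf g p := by
      funext p
      exact hΘa _
    rw [e]
    exact continuous_finsetSum _ fun g _ => hTc g
  obtain ⟨p0, hp0, hmin⟩ := hPc.exists_isMinOn hPn hΘc.continuousOn
  set c := Θ (p0.1.smulRight p0.2) with hc
  have hc0 : 0 < c := hΘP p0 hp0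
  have hlow : ∀ h : Γ, c * ‖cone_A L h (φ.smulRight v)‖ ≤ Θ (cone_A L h (φ.smulRight v)) := by
    intro h
    obtain ⟨p, hp, r, hr, h1, h2⟩ := horb h
    rw [h2, h1, map_smul, smul_eq_mul, mul_comm]
    exact mul_le_mul_of_nonneg_left (hmin hp) hr.le
  -- the cone
  set C : Set (E →L[ℝ] E) := {X | ∀ F : (E →L[ℝ] E) →L[ℝ] ℝ,
    (∀ h, 0 ≤ F (cone_A L h (φ.smulRight v))) → 0 ≤ F X} with hC
  refine ⟨C, ?_, ?_, ?_, ?_, ?_, (Θ : (E →L[ℝ] E) →ₗ[ℝ] ℝ), c, hc0, ?_⟩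
  · rw [hC]
    simp only [Set.ofPred_forall]
    exact isClosed_iInter fun F => isClosed_iInter fun _ =>
      isClosed_le continuous_const F.continuous
  · intro X hX Y hY F hF
    rw [map_add]
    exact add_nonneg (hX F hF) (hY F hF)
  · intro t ht X hX F hF
    rw [map_smul, smul_eq_mul]
    exact mul_nonneg ht (hX F hF)
  · intro F hF
    have h1 := hF 1
    have e : cone_A L 1 (φ.smulRight v) = φ.smulRight v := by
      ext x
      rw [cone_A_apply, cone_D_one, one_smul, inv_one, map_one]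
      rfl
    rw [e] at h1
    exact h1
  · intro g X hX F hF
    have h1 := hX (F.comp (LinearMap.toContinuousLinearMap (cone_A L g))) (fun h => by
      have h2 := hF (g * h)
      rw [cone_A_mul] at h2
      exact h2)
    exact h1
  · intro X hX
    obtain ⟨F, hF1, hF2⟩ := exists_dual_vector'' ℝ X
    have h1 := hX (Θ - c • F) (fun h => by
      have h2 := hlow h
      have h3 : F (cone_A L h (φ.smulRight v)) ≤ ‖cone_A L h (φ.smulRight v)‖ := by
        refine (le_abs_self _).trans ?_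
        rw [← Real.norm_eq_abs]
        refine (F.le_opNorm _).trans ?_
        exact mul_le_of_le_one_left (norm_nonneg _) hF1
      have h4 : (Θ - c • F) (cone_A L h (φ.smulRight v)) =
        Θ (cone_A L h (φ.smulRight v)) - c * F (cone_A L h (φ.smulRight v)) := rfl
      rw [h4]
      have h5 := mul_le_mul_of_nonneg_left h3 hc0.le
      linarith)
    have h4 : (Θ - c • F) X = Θ X - c * F X := rfl
    have hF2' : F X = ‖X‖ := by simpa using hF2
    rw [h4, hF2'] at h1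
    have h6 : (Θ : (E →L[ℝ] E) →ₗ[ℝ] ℝ) X = Θ X := rfl
    rw [h6]
    linarith

end Pool.Agent.H817.PH
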