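import Pool.Agent.H817.PH.Stm2

/-!
The middle eigenvalue is positive, the transition numbers are not positive and the second coordinates
of the points of `Ω` in the plane of the first two coordinates have the same sign: assembly of
`S_core2` from `S_dyn`, `S_comp`, `S_comp'`, `S_nonconst`, `S_semi`.
-/

set_option autoImplicit false

namespace Pool.Agent.H817.PH

open Set Filter Topology Module

variable {Γ : Type} [Group Γ] {hol : Γ →* (V3 ≃ᵃ[ℝ] V3)} {Ω : Set V3} {γ : Γ} {l : Fin 3 → ℝ}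

theorem core2_mat_mul (g g' : Γ) : mat (hol (g * g')) = mat (hol g) * mat (hol g') := by
  unfold mat
  rw [map_mul, ← LinearMap.toMatrix'_mul]
  rfl

theorem core2_mat_one : mat (hol (1 : Γ)) = 1 := by
  unfold mat
  rw [map_one, ← LinearMap.toMatrix'_one]
  rfl

theorem core2_mat_gamma (h : Setup hol Ω γ l) : mat (hol γ) = Matrix.diagonal l := by
  have h0 : hol γ 0 = 0 := by
    funext i
    rw [h.act]
    simp
  have h1 : ∀ v : V3, (hol γ).linear v = fun i => l i * v i := by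
    intro v
    have h2 : hol γ (v +ᵥ (0 : V3)) = (hol γ).linear v +ᵥ hol γ 0 := (hol γ).map_vadd 0 v
    rw [h0, vadd_eq_add, vadd_eq_add, add_zero, add_zero] at h2
    rw [← h2]
    funext i
    exact h.act v i
  ext i j
  unfold mat
  rw [LinearMap.toMatrix'_apply]
  show (hol γ).linear _ i = _
  rw [h1]
  by_cases hij : i = j
  · subst hij
    simp
  · rw [Matrix.diagonal_apply_ne _ hij]
    simp [hij]

theorem core2_mat_pow (h : Setup hol Ω γ l) (n : ℕ) :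
    mat (hol (γ ^ n)) = Matrix.diagonal l ^ n := by
  induction n with
  | zero => rw [pow_zero, pow_zero, core2_mat_one]
  | succ n ih => rw [pow_succ, pow_succ, core2_mat_mul, ih, core2_mat_gamma h]

theorem core2_mat_word (h : Setup hol Ω γ l) (g g' : Γ) (n : ℕ) :
    mat (hol (g * γ ^ n * g')) = mat (hol g) * Matrix.diagonal l ^ n * mat (hol g') := by
  rw [core2_mat_mul, core2_mat_mul, core2_mat_pow h]

theorem core2_det (h : Setup hol Ω γ l) : |l 0 * l 1 * l 2| = 1 := by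
  have h1 := h.det γ
  rwa [core2_mat_gamma h, Matrix.det_diagonal, Fin.prod_univ_three] at h1

theorem core2_l1 (h : Setup hol Ω γ l) : l 1 ≠ 0 := by
  intro h0
  have h1 := h.h2
  rw [h0, abs_zero] at h1
  exact absurd (abs_nonneg (l 2)) (not_le.2 h1)

theorem core2_l0 (h : Setup hol Ω γ l) : l 0 ≠ 0 := by
  intro h0
  have h1 := h.h0
  rw [h0, abs_zero] at h1
  linarith

/-- the second coordinates of the points of `Ω` in the plane of the first two coordinates -/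
def core2_J (Ω : Set V3) : Set ℝ := {b | ∃ a : ℝ, (![a, b, 0] : V3) ∈ Ω}

theorem core2_J_open (h : Setup hol Ω γ l) : IsOpen (core2_J Ω) := by
  have h1 : Continuous fun p : ℝ × ℝ => (![p.1, p.2, 0] : V3) := by
    refine continuous_pi fun i => ?_
    fin_cases i
    · exact continuous_fst
    · exact continuous_snd
    · exact continuous_const
  have h2 : core2_J Ω = Prod.snd '' ((fun p : ℝ × ℝ => (![p.1, p.2, 0] : V3)) ⁻¹' Ω) := by
    ext b
    constructor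
    · rintro ⟨a, ha⟩
      exact ⟨(a, b), ha, rfl⟩
    · rintro ⟨⟨a, b'⟩, ha, rfl⟩
      exact ⟨a, ha⟩
  rw [h2]
  exact isOpenMap_snd _ (h.op.preimage h1)

theorem core2_hol (h : Setup hol Ω γ l) (a b : ℝ) :
    hol γ (![a, b, 0] : V3) = ![l 0 * a, l 1 * b, 0] := by
  funext i
  rw [h.act]
  fin_cases i
  · rfl
  · rfl
  · show l 2 * (0 : ℝ) = 0
    rw [mul_zero]

theorem core2_J_mul (h : Setup hol Ω γ l) {b : ℝ} (hb : b ∈ core2_J Ω) : l 1 * b ∈ core2_J Ω := by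
  obtain ⟨a, ha⟩ := hb
  refine ⟨l 0 * a, ?_⟩
  rw [← core2_hol h]
  exact h.inv γ _ ha

theorem core2_J_mul_inv (h : Setup hol Ω γ l) {b : ℝ} (hb : b ∈ core2_J Ω) :
    (l 1)⁻¹ * b ∈ core2_J Ω := by
  obtain ⟨a, ha⟩ := hb
  refine ⟨(l 0)⁻¹ * a, ?_⟩
  have h3 : hol γ (![(l 0)⁻¹ * a, (l 1)⁻¹ * b, 0] : V3) = ![a, b, 0] := by
    rw [core2_hol h, mul_inv_cancel_left₀ (core2_l0 h), mul_inv_cancel_left₀ (core2_l1 h)]
  have h4 : hol γ⁻¹ (![a, b, 0] : V3) = ![(l 0)⁻¹ * a, (l 1)⁻¹ * b, 0] := by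
    rw [← h3]
    show (hol γ⁻¹ * hol γ) (![(l 0)⁻¹ * a, (l 1)⁻¹ * b, 0] : V3) = _
    rw [← map_mul, inv_mul_cancel, map_one]
    rfl
  rw [← h4]
  exact h.inv γ⁻¹ _ ha

theorem core2_J_zpow (h : Setup hol Ω γ l) (j : ℤ) : ∀ b : ℝ, b ∈ core2_J Ω →
    l 1 ^ j * b ∈ core2_J Ω := by
  induction j using Int.induction_on with
  | zero =>
    intro w hw
    simpa using hw
  | succ i ih =>
    intro w hw
    rw [zpow_add_one₀ (core2_l1 h), mul_assoc]
    exact ih _ (core2_J_mul h hw)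
  | pred i ih =>
    intro w hw
    rw [zpow_sub_one₀ (core2_l1 h), mul_assoc]
    exact ih _ (core2_J_mul_inv h hw)

/-- the numbers `z` such that no element of `J` is mapped by `z` to `J` -/
def core2_K0 (Ω : Set V3) : Set ℝ := {z | ∀ b ∈ core2_J Ω, z * b ∉ core2_J Ω}

theorem core2_K0_closed (h : Setup hol Ω γ l) : IsClosed (core2_K0 Ω) := by
  have h1 : core2_K0 Ω = ⋂ w ∈ core2_J Ω, {z : ℝ | z * w ∈ (core2_J Ω)ᶜ} := by
    ext z
    simp [core2_K0]
  rw [h1]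
  refine isClosed_biInter fun w _ => ?_
  exact (core2_J_open h).isClosed_compl.preimage (continuous_mul_const w)

theorem core2_K0_one (hne : ∃ a b : ℝ, (![a, b, 0] : V3) ∈ Ω) : (1 : ℝ) ∉ core2_K0 Ω := by
  obtain ⟨a, b, hab⟩ := hne
  intro h1
  refine h1 b ⟨a, hab⟩ ?_
  rw [one_mul]
  exact ⟨a, hab⟩

/-- the multiples of the transition numbers with powers of `l 1` -/
def core2_S (hol : Γ →* (V3 ≃ᵃ[ℝ] V3)) (l : Fin 3 → ℝ) : Set ℝ :=
  {z | ∃ (j : ℤ) (g : Γ), mat (hol g) 0 2 ≠ 0 ∧ z = l 1 ^ j * kap (mat (hol g))}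

theorem core2_S_sub (h1 : S_dyn) (h : Setup hol Ω γ l) : core2_S hol l ⊆ core2_K0 Ω := by
  rintro z ⟨j, g, hg, rfl⟩ b hb hb'
  obtain ⟨a, ha⟩ := core2_J_zpow h j b hb
  obtain ⟨a', ha'⟩ := hb'
  have h2 : l 1 ^ j * kap (mat (hol g)) * b = kap (mat (hol g)) * (l 1 ^ j * b) := by ring
  rw [h2] at ha'
  exact h1 hol Ω γ l h g hg a a' _ ha ha'

theorem core2_K_sub (h1 : S_dyn) (h : Setup hol Ω γ l) : closure (core2_S hol l) ⊆ core2_K0 Ω :=
  closure_minimal (core2_S_sub h1 h) (core2_K0_closed h)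

theorem core2_S_mul (h : Setup hol Ω γ l) {z : ℝ} (hz : z ∈ core2_S hol l) (i : ℤ) :
    l 1 ^ i * z ∈ core2_S hol l := by
  obtain ⟨j, g, hg, rfl⟩ := hz
  exact ⟨i + j, g, hg, by rw [zpow_add₀ (core2_l1 h), mul_assoc]⟩

/-- the multipliers of the closure -/
def core2_T (hol : Γ →* (V3 ≃ᵃ[ℝ] V3)) (l : Fin 3 → ℝ) : Set ℝ :=
  {t | ∀ z ∈ closure (core2_S hol l), t * z ∈ closure (core2_S hol l)}

theorem core2_T_of {t : ℝ} (ht : ∀ z ∈ core2_S hol l, t * z ∈ closure (core2_S hol l)) :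
    t ∈ core2_T hol l := by
  intro z hz
  have h1 := map_mem_closure (continuous_const_mul t) hz ht
  rwa [closure_closure] at h1

theorem core2_T_closed : IsClosed (core2_T hol l) := by
  have h1 : core2_T hol l = ⋂ z ∈ closure (core2_S hol l),
      {t : ℝ | t * z ∈ closure (core2_S hol l)} := by
    ext z
    simp [core2_T]
  rw [h1]
  refine isClosed_biInter fun w _ => ?_
  exact isClosed_closure.preimage (continuous_mul_const w)

theorem core2_T_mul {x y : ℝ} (hx : x ∈ core2_T hol l) (hy : y ∈ core2_T hol l) :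
    x * y ∈ core2_T hol l := by
  intro z hz
  rw [mul_assoc]
  exact hx _ (hy z hz)

theorem core2_T_zpow (h : Setup hol Ω γ l) (j : ℤ) : l 1 ^ j ∈ core2_T hol l :=
  core2_T_of fun _ hz => subset_closure (core2_S_mul h hz j)

theorem core2_T_sch (h2 : S_comp) (h : Setup hol Ω γ l) {d : Γ} (hd : mat (hol d) 0 0 ≠ 0) :
    sch (mat (hol d)) ∈ core2_T hol l := by
  refine core2_T_of ?_
  rintro z ⟨j, g, hg, rfl⟩
  obtain ⟨h5, h6⟩ := h2 l (mat (hol d)) (mat (hol g)) (h.h1.trans h.h0) h.h2 h.h3 hd hg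
  have h7 := h6.const_mul (l 1 ^ j)
  have h8 : sch (mat (hol d)) * (l 1 ^ j * kap (mat (hol g))) =
      l 1 ^ j * (sch (mat (hol d)) * kap (mat (hol g))) := by ring
  rw [h8]
  refine mem_closure_of_tendsto h7 ?_
  filter_upwards [h5] with n hn
  refine ⟨j - n, d * γ ^ n * g, ?_, ?_⟩
  · rw [core2_mat_word h]
    exact hn
  · rw [core2_mat_word h, zpow_sub₀ (core2_l1 h), zpow_natCast]
    ring

theorem core2_sch_ne {M : M3} (h0 : M 0 0 ≠ 0) (h1 : M 0 0 * M 1 1 - M 0 1 * M 1 0 ≠ 0) :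
    sch M ≠ 0 := by
  intro h2
  unfold sch at h2
  field_simp at h2
  apply h1
  linarith

theorem core2_kap_ne {M : M3} (h0 : M 0 2 ≠ 0) (h1 : M 0 2 * M 1 1 - M 0 1 * M 1 2 ≠ 0) :
    kap M ≠ 0 := by
  intro h2
  unfold kap at h2
  field_simp at h2
  apply h1
  linarith

theorem t_core2 (h1 : S_dyn) (h2 : S_comp) (h3 : S_comp') (h4 : S_nonconst) (h5 : S_semi) :
    S_core2 := by
  intro Γ _ hol Ω γ l h hne hd1 hd2 hd3
  obtain ⟨d1, ha1, ha2, ha3⟩ := hd1
  obtain ⟨d2, hb1, hb2, hb3⟩ := hd2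
  obtain ⟨g3, hg1, hg2⟩ := hd3
  obtain ⟨h6, h7⟩ := h3 l (mat (hol d1)) (mat (hol d2)) (h.h1.trans h.h0) h.h2 h.h3 ha1 hb1
  have h8 := h4 l (mat (hol d1)) (mat (hol d2)) h.h0 h.h1 h.h2 h.h3 (core2_det h) ha1 hb1 ha3 hb3
  have h9 : ∀ᶠ n : ℕ in atTop,
      sch (mat (hol d1) * Matrix.diagonal l ^ n * mat (hol d2)) / l 1 ^ n ∈ core2_T hol l := by
    filter_upwards [h6] with n hn
    rw [← core2_mat_word h] at hn ⊢
    have h10 : (l 1 ^ n)⁻¹ = l 1 ^ (-(n : ℤ)) := by rw [zpow_neg, zpow_natCast]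
    rw [div_eq_mul_inv, h10]
    exact core2_T_mul (core2_T_sch h2 h hn) (core2_T_zpow h _)
  have hl : l 1 ∈ core2_T hol l := by
    have h10 := core2_T_zpow h 1
    rwa [zpow_one] at h10
  have hl' : (l 1)⁻¹ ∈ core2_T hol l := by
    have h10 := core2_T_zpow h (-1)
    rwa [zpow_neg_one] at h10
  obtain ⟨h11, h12⟩ := h5 (core2_T hol l) (l 1) _ _ core2_T_closed
    (fun x hx y hy => core2_T_mul hx hy) hl hl' (core2_l1 h) h.h1 h9 h7
    (mul_ne_zero (core2_sch_ne ha1 ha2) (core2_sch_ne hb1 hb2)) h8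
  have h13 : ∀ g : Γ, mat (hol g) 0 2 ≠ 0 → kap (mat (hol g)) ≠ 0 →
      (kap (mat (hol g)))⁻¹ ∈ core2_T hol l → False := by
    intro g hg hk hT
    have h14 : kap (mat (hol g)) ∈ closure (core2_S hol l) :=
      subset_closure ⟨0, g, hg, by rw [zpow_zero, one_mul]⟩
    have h15 := hT _ h14
    rw [inv_mul_cancel₀ hk] at h15
    exact core2_K0_one hne (core2_K_sub h1 h h15)
  have hpos : 0 < l 1 := by
    rcases lt_or_gt_of_ne (core2_l1 h) with hneg | hpos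
    · exfalso
      have hk := core2_kap_ne hg1 hg2
      exact h13 g3 hg1 hk (h12 hneg _ (inv_ne_zero hk))
    · exact hpos
  have hle : ∀ g : Γ, mat (hol g) 0 2 ≠ 0 → kap (mat (hol g)) ≤ 0 := by
    intro g hg
    by_contra hk
    rw [not_le] at hk
    exact h13 g hg hk.ne' (h11 _ (inv_pos.2 hk))
  have hk3 : kap (mat (hol g3)) < 0 := lt_of_le_of_ne (hle g3 hg1) (core2_kap_ne hg1 hg2)
  have hneg : ∀ t : ℝ, t < 0 → t ∈ core2_K0 Ω := by
    intro t ht
    have h14 : kap (mat (hol g3)) ∈ closure (core2_S hol l) :=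
      subset_closure ⟨0, g3, hg1, by rw [zpow_zero, one_mul]⟩
    have h15 := h11 _ (div_pos_of_neg_of_neg ht hk3) _ h14
    rw [div_mul_cancel₀ _ hk3.ne] at h15
    exact core2_K_sub h1 h h15
  have hz : ∀ a b : ℝ, (![a, b, 0] : V3) ∈ Ω → b ≠ 0 := by
    rintro a b hab rfl
    refine h1 hol Ω γ l h g3 hg1 a a 0 hab ?_
    rw [mul_zero]
    exact hab
  refine ⟨hpos, hle, fun a b a' b' hb hb' => ?_⟩
  have hb0 := hz a b hb
  have hb0' := hz a' b' hb'
  rcases lt_or_gt_of_ne (mul_ne_zero hb0 hb0') with hlt | hgt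
  · exfalso
    have ht : b' / b < 0 := by
      rcases mul_neg_iff.1 hlt with ⟨e1, e2⟩ | ⟨e1, e2⟩
      · exact div_neg_of_neg_of_pos e2 e1
      · exact div_neg_of_pos_of_neg e2 e1
    refine hneg _ ht b ⟨a, hb⟩ ?_
    rw [div_mul_cancel₀ _ hb0]
    exact ⟨a', hb'⟩
  · exact hgt

end Pool.Agent.H817.PH
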