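import Pool.Agent.H817.PH.Stm

set_option autoImplicit false

/-!
# Three real roots of `x ^ 3 - τ x ^ 2 + d q x - d` (helper996 for helper817)
-/

namespace Pool.Agent.H817.PH

open Filter Topology Set

theorem cubic_ivt (f : ℝ → ℝ) (hf : Continuous f) (a b : ℝ) (hab : a ≤ b)
    (h : f a * f b < 0) : ∃ x ∈ Icc a b, f x = 0 := by
  rcases mul_neg_iff.1 h with ⟨h1, h2⟩ | ⟨h1, h2⟩
  · exact intermediate_value_Icc' hab hf.continuousOn ⟨h2.le, h1.le⟩
  · exact intermediate_value_Icc hab hf.continuousOn ⟨h1.le, h2.le⟩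

/-- a root from limits of opposite signs -/
theorem cubic_root (f : ℕ → ℝ → ℝ) (hf : ∀ n, Continuous (f n)) (k : ℕ → ℝ) (g : ℝ → ℝ)
    (hlim : ∀ s, Tendsto (fun n => f n s / k n) atTop (𝓝 (g s))) (a b : ℝ) (hab : a ≤ b)
    (h : g a * g b < 0) : ∀ᶠ n in atTop, ∃ x ∈ Icc a b, f n x = 0 := by
  have h1 := ((hlim a).mul (hlim b)).eventually_lt_const h
  filter_upwards [h1] with n hn
  apply cubic_ivt (f n) (hf n) a b hab
  by_contra hc
  rw [not_lt] at hc
  have h2 : f n a / k n * (f n b / k n) = f n a * f n b / (k n * k n) := by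
    rw [div_mul_div_comm]
  rw [h2] at hn
  exact absurd hn (not_lt.2 (div_nonneg hc (mul_self_nonneg _)))

theorem cubic_alg (τ b d x0 x1 x2 : ℝ) (h01 : x0 ≠ x1) (h02 : x0 ≠ x2) (h12 : x1 ≠ x2)
    (h0 : x0 ^ 3 - τ * x0 ^ 2 + b * x0 - d = 0) (h1 : x1 ^ 3 - τ * x1 ^ 2 + b * x1 - d = 0)
    (h2 : x2 ^ 3 - τ * x2 ^ 2 + b * x2 - d = 0) (x : ℝ) :
    x ^ 3 - τ * x ^ 2 + b * x - d = (x - x0) * (x - x1) * (x - x2) := by
  have e1 : x0 ^ 2 + x0 * x1 + x1 ^ 2 - τ * (x0 + x1) + b = 0 := by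
    have h3 : (x0 - x1) * (x0 ^ 2 + x0 * x1 + x1 ^ 2 - τ * (x0 + x1) + b) = 0 := by
      linear_combination h0 - h1
    exact (mul_eq_zero.1 h3).resolve_left (sub_ne_zero.2 h01)
  have e2 : x1 ^ 2 + x1 * x2 + x2 ^ 2 - τ * (x1 + x2) + b = 0 := by
    have h3 : (x1 - x2) * (x1 ^ 2 + x1 * x2 + x2 ^ 2 - τ * (x1 + x2) + b) = 0 := by
      linear_combination h1 - h2
    exact (mul_eq_zero.1 h3).resolve_left (sub_ne_zero.2 h12)
  have e3 : x0 + x1 + x2 - τ = 0 := by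
    have h3 : (x0 - x2) * (x0 + x1 + x2 - τ) = 0 := by
      linear_combination e1 - e2
    exact (mul_eq_zero.1 h3).resolve_left (sub_ne_zero.2 h02)
  have e4 : τ = x0 + x1 + x2 := by linarith
  subst e4
  have e5 : b = x0 * x1 + x0 * x2 + x1 * x2 := by linear_combination e1
  subst e5
  have e6 : d = x0 * x1 * x2 := by linear_combination -h0
  subst e6
  ring

theorem cubic_const (c τ q : ℕ → ℝ) (σ p' q' : ℝ) (hc : Tendsto c atTop atTop) (hp : p' ≠ 0)
    (hq : q' ≠ 0) (hσ : |σ| = 1) (hτ : Tendsto (fun n => τ n / c n) atTop (𝓝 p'))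
    (hqt : Tendsto (fun n => q n / c n) atTop (𝓝 q')) (ε : ℝ) (hε : 0 < ε) :
    ∀ᶠ n in atTop, ∃ x0 x1 x2 : ℝ, |x1| < |x0| ∧ |x2| < |x1| ∧ x2 ≠ 0 ∧
      |(|x1| - |q' / p'|)| < ε ∧
      ∀ x : ℝ, x ^ 3 - τ n * x ^ 2 + σ * q n * x - σ = (x - x0) * (x - x1) * (x - x2) := by
  have hσ0 : σ ≠ 0 := by
    intro h
    rw [h, abs_zero] at hσ
    exact zero_ne_one hσ
  have hσ2 : σ * σ = 1 := by
    rw [← abs_mul_abs_self, hσ, one_mul]
  obtain ⟨v, hv⟩ : ∃ v, v = σ * q' / p' := ⟨_, rfl⟩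
  have hv0 : v ≠ 0 := by
    rw [hv]
    exact div_ne_zero (mul_ne_zero hσ0 hq) hp
  have hva : |v| = |q' / p'| := by
    rw [hv, mul_div_assoc, abs_mul, hσ, one_mul]
  have hq1 : q'⁻¹ ≠ 0 := inv_ne_zero hq
  have hp' : 0 < |p'| := abs_pos.2 hp
  have hv' : 0 < |v| := abs_pos.2 hv0
  have hq' : 0 < |q'⁻¹| := abs_pos.2 hq1
  obtain ⟨δ, hδ, hδ1, hδ2, hδ3, hδ4⟩ : ∃ δ : ℝ, 0 < δ ∧ δ ≤ |p'| / 2 ∧ δ ≤ |v| / 2 ∧
      δ ≤ |q'⁻¹| / 2 ∧ δ ≤ ε / 2 :=
    ⟨min (min (|p'| / 2) (|v| / 2)) (min (|q'⁻¹| / 2) (ε / 2)), by positivity,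
      (min_le_left _ _).trans (min_le_left _ _), (min_le_left _ _).trans (min_le_right _ _),
      (min_le_right _ _).trans (min_le_left _ _), (min_le_right _ _).trans (min_le_right _ _)⟩
  have hi : Tendsto (fun n => (c n)⁻¹) atTop (𝓝 0) := tendsto_inv_atTop_zero.comp hc
  have hc1 : ∀ᶠ n in atTop, 1 ≤ c n := hc.eventually_ge_atTop 1
  -- the first root
  have r0 : ∀ᶠ n in atTop, ∃ s ∈ Icc (p' - δ) (p' + δ),
      (c n * s) ^ 3 - τ n * (c n * s) ^ 2 + σ * q n * (c n * s) - σ = 0 := by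
    refine cubic_root
      (fun n s => (c n * s) ^ 3 - τ n * (c n * s) ^ 2 + σ * q n * (c n * s) - σ)
      (fun n => by fun_prop) (fun n => c n ^ 3) (fun s => s ^ 3 - p' * s ^ 2) ?_ _ _
      (by linarith) ?_
    · intro s
      have h1 : Tendsto (fun n => s ^ 3 - (τ n / c n) * s ^ 2 + σ * (q n / c n) * s * (c n)⁻¹ -
          σ * ((c n)⁻¹) ^ 3) atTop (𝓝 (s ^ 3 - p' * s ^ 2 + σ * q' * s * 0 - σ * 0 ^ 3)) :=
        (((tendsto_const_nhds.sub (hτ.mul_const _)).add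
          (((hqt.const_mul σ).mul_const s).mul hi)).sub ((hi.pow 3).const_mul σ))
      have h2 : s ^ 3 - p' * s ^ 2 + σ * q' * s * 0 - σ * 0 ^ 3 = s ^ 3 - p' * s ^ 2 := by ring
      rw [h2] at h1
      refine h1.congr' ?_
      filter_upwards [hc1] with n hn
      have hc0 : c n ≠ 0 := by linarith
      field_simp
    · have e1 : (p' - δ) ^ 3 - p' * (p' - δ) ^ 2 = -(δ * (p' - δ) ^ 2) := by ring
      have e2 : (p' + δ) ^ 3 - p' * (p' + δ) ^ 2 = δ * (p' + δ) ^ 2 := by ring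
      rw [e1, e2]
      have h3 : p' - δ ≠ 0 := by
        intro h
        have h4 : p' = δ := by linarith
        rw [h4, abs_of_pos hδ] at hδ1
        linarith
      have h5 : p' + δ ≠ 0 := by
        intro h
        have h4 : p' = -δ := by linarith
        rw [h4, abs_neg, abs_of_pos hδ] at hδ1
        linarith
      have h6 : 0 < δ * (p' - δ) ^ 2 := by positivity
      have h7 : 0 < δ * (p' + δ) ^ 2 := by positivity
      rw [neg_mul]
      exact neg_lt_zero.2 (mul_pos h6 h7)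
  -- the second root
  have r1 : ∀ᶠ n in atTop, ∃ x ∈ Icc (v - δ) (v + δ),
      x ^ 3 - τ n * x ^ 2 + σ * q n * x - σ = 0 := by
    refine cubic_root (fun n x => x ^ 3 - τ n * x ^ 2 + σ * q n * x - σ)
      (fun n => by fun_prop) c (fun x => -p' * x ^ 2 + σ * q' * x) ?_ _ _ (by linarith) ?_
    · intro s
      have h1 : Tendsto (fun n => s ^ 3 * (c n)⁻¹ - (τ n / c n) * s ^ 2 + σ * (q n / c n) * s -
          σ * (c n)⁻¹) atTop (𝓝 (s ^ 3 * 0 - p' * s ^ 2 + σ * q' * s - σ * 0)) :=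
        ((((hi.const_mul _).sub (hτ.mul_const _)).add
          ((hqt.const_mul σ).mul_const s)).sub (hi.const_mul σ))
      have h2 : s ^ 3 * 0 - p' * s ^ 2 + σ * q' * s - σ * 0 = -p' * s ^ 2 + σ * q' * s := by ring
      rw [h2] at h1
      refine h1.congr' ?_
      filter_upwards [hc1] with n hn
      have hc0 : c n ≠ 0 := by linarith
      field_simp
    · have e0 : σ * q' = p' * v := by
        rw [hv]
        field_simp
      rw [e0]
      have e1 : -p' * (v - δ) ^ 2 + p' * v * (v - δ) = p' * δ * (v - δ) := by ring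
      have e2 : -p' * (v + δ) ^ 2 + p' * v * (v + δ) = -(p' * δ * (v + δ)) := by ring
      rw [e1, e2]
      have h3 : 0 < (v - δ) * (v + δ) := by
        have h4 : δ < |v| := by linarith
        have h5 : δ ^ 2 < v ^ 2 := by
          rw [← sq_abs v]
          exact pow_lt_pow_left₀ h4 hδ.le (by norm_num)
        nlinarith
      have h6 : 0 < (p' * δ) ^ 2 := by positivity
      have h7 := mul_pos h6 h3
      nlinarith
  -- the third root
  have r2 : ∀ᶠ n in atTop, ∃ s ∈ Icc (q'⁻¹ - δ) (q'⁻¹ + δ),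
      (s * (c n)⁻¹) ^ 3 - τ n * (s * (c n)⁻¹) ^ 2 + σ * q n * (s * (c n)⁻¹) - σ = 0 := by
    refine cubic_root
      (fun n s => (s * (c n)⁻¹) ^ 3 - τ n * (s * (c n)⁻¹) ^ 2 + σ * q n * (s * (c n)⁻¹) - σ)
      (fun n => by fun_prop) (fun _ => 1) (fun s => σ * q' * s - σ) ?_ _ _
      (by linarith) ?_
    · intro s
      have h1 : Tendsto (fun n => s ^ 3 * ((c n)⁻¹) ^ 3 - (τ n / c n) * s ^ 2 * (c n)⁻¹ +
          σ * (q n / c n) * s - σ) atTop (𝓝 (s ^ 3 * 0 ^ 3 - p' * s ^ 2 * 0 + σ * q' * s - σ)) :=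
        (((((hi.pow 3).const_mul _).sub ((hτ.mul_const _).mul hi)).add
          ((hqt.const_mul σ).mul_const s)).sub tendsto_const_nhds)
      have h2 : s ^ 3 * 0 ^ 3 - p' * s ^ 2 * 0 + σ * q' * s - σ = σ * q' * s - σ := by ring
      rw [h2] at h1
      refine h1.congr' ?_
      filter_upwards [hc1] with n hn
      have hc0 : c n ≠ 0 := by linarith
      field_simp
    · have e1 : σ * q' * (q'⁻¹ - δ) - σ = -(σ * q' * δ) := by
        field_simp
        ring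
      have e2 : σ * q' * (q'⁻¹ + δ) - σ = σ * q' * δ := by
        field_simp
        ring
      rw [e1, e2]
      have h6 : 0 < (σ * q' * δ) ^ 2 := by positivity
      nlinarith
  -- the comparison
  have b0 : ∀ᶠ n in atTop, |v| + δ < c n * (|p'| / 2) :=
    (hc.atTop_mul_const (by positivity)).eventually_gt_atTop _
  have b1 : ∀ᶠ n in atTop, (|q'⁻¹| + δ) * (c n)⁻¹ < |v| / 2 := by
    have h1 := hi.const_mul (|q'⁻¹| + δ)
    rw [mul_zero] at h1
    exact h1.eventually_lt_const (by positivity)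
  filter_upwards [r0, r1, r2, b0, b1, hc1] with n h0 h1 h2 hb0 hb1 hn
  obtain ⟨s, hs, hs0⟩ := h0
  obtain ⟨x1, hx1, hx10⟩ := h1
  obtain ⟨u, hu, hu0⟩ := h2
  have hcn : 0 < c n := by linarith
  have k1 : |x1 - v| ≤ δ := by
    rw [abs_le]
    exact ⟨by linarith [hx1.1], by linarith [hx1.2]⟩
  have k0 : |s - p'| ≤ δ := by
    rw [abs_le]
    exact ⟨by linarith [hs.1], by linarith [hs.2]⟩
  have k2 : |u - q'⁻¹| ≤ δ := by
    rw [abs_le]
    exact ⟨by linarith [hu.1], by linarith [hu.2]⟩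
  have m1 : |(|x1| - |v|)| ≤ δ := (abs_abs_sub_abs_le_abs_sub x1 v).trans k1
  have m0 : |(|s| - |p'|)| ≤ δ := (abs_abs_sub_abs_le_abs_sub s p').trans k0
  have m2 : |(|u| - |q'⁻¹|)| ≤ δ := (abs_abs_sub_abs_le_abs_sub u q'⁻¹).trans k2
  rw [abs_le] at m0 m1 m2
  have l0 : |c n * s| = c n * |s| := by rw [abs_mul, abs_of_pos hcn]
  have l2 : |u * (c n)⁻¹| = |u| * (c n)⁻¹ := by rw [abs_mul, abs_of_pos (inv_pos.2 hcn)]
  have c10 : |x1| < |c n * s| := by
    rw [l0]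
    have h3 : c n * (|p'| / 2) ≤ c n * |s| := mul_le_mul_of_nonneg_left (by linarith) hcn.le
    linarith
  have c21 : |u * (c n)⁻¹| < |x1| := by
    rw [l2]
    have h3 : |u| * (c n)⁻¹ ≤ (|q'⁻¹| + δ) * (c n)⁻¹ :=
      mul_le_mul_of_nonneg_right (by linarith) (inv_pos.2 hcn).le
    linarith
  have hune : u ≠ 0 := by
    intro h
    rw [h, abs_zero] at m2
    linarith
  refine ⟨c n * s, x1, u * (c n)⁻¹, c10, c21, mul_ne_zero hune (inv_ne_zero hcn.ne'), ?_, ?_⟩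
  · rw [← hva]
    exact (abs_le.2 m1).trans_lt (by linarith)
  · refine cubic_alg (τ n) (σ * q n) σ _ _ _ ?_ ?_ ?_ hs0 hx10 hu0
    · intro h
      rw [h] at c10
      exact lt_irrefl _ c10
    · intro h
      rw [h] at c10
      exact lt_irrefl _ (c10.trans c21)
    · intro h
      rw [h] at c21
      exact lt_irrefl _ c21

/-- CUBIC POLYNOMIALS -/
theorem t_cubic : S_cubic := by
  intro c τ q d p' q' hc hp hq hd hτ hqt ε hε
  have h1 := cubic_const c τ q 1 p' q' hc hp hq abs_one hτ hqt ε hε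
  have h2 := cubic_const c τ q (-1) p' q' hc hp hq (by rw [abs_neg, abs_one]) hτ hqt ε hε
  filter_upwards [h1, h2] with n hn1 hn2
  rcases eq_or_eq_neg_of_abs_eq (hd n) with h | h
  · rw [h]
    exact hn1
  · rw [h]
    exact hn2

end Pool.Agent.H817.PH
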