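import Pool.Agent.H817.PH.Stm

/-!
Project PH, job DYN: no dynamical relation (helper686).
-/

set_option autoImplicit false

namespace Pool.Agent.H817.PH

open Set Filter Topology Module

theorem dyn_aff (T : V3 ≃ᵃ[ℝ] V3) (v : V3) (i : Fin 3) :
    T v i = mat T i 0 * v 0 + mat T i 1 * v 1 + mat T i 2 * v 2 + T 0 i := by
  have h1 : T v = T.linear v + T 0 := by
    have h := T.map_vadd (0 : V3) v
    rw [vadd_eq_add, add_zero, vadd_eq_add] at h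
    exact h
  have h2 : (T.linear v) i = ∑ j, mat T i j * v j := by
    have h := congrFun (LinearMap.toMatrix'_mulVec (T.linear : V3 →ₗ[ℝ] V3) v) i
    exact h.symm
  rw [h1, Pi.add_apply, h2, Fin.sum_univ_three]

theorem dyn_pow {Γ : Type} [Group Γ] {hol : Γ →* (V3 ≃ᵃ[ℝ] V3)} {γ : Γ} {l : Fin 3 → ℝ}
    (hact : ∀ (v : V3) (i : Fin 3), hol γ v i = l i * v i) (n : ℕ) (v : V3) (i : Fin 3) :
    hol (γ ^ n) v i = l i ^ n * v i := by
  induction n generalizing v with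
  | zero =>
    rw [pow_zero, map_one, pow_zero, one_mul]
    rfl
  | succ n ih =>
    rw [pow_succ, map_mul]
    change hol (γ ^ n) (hol γ v) i = _
    rw [ih, hact, pow_succ, mul_assoc]

theorem dyn_inv {Γ : Type} [Group Γ] {hol : Γ →* (V3 ≃ᵃ[ℝ] V3)} {γ : Γ} {l : Fin 3 → ℝ}
    (hact : ∀ (v : V3) (i : Fin 3), hol γ v i = l i * v i) (hl : ∀ i, l i ≠ 0) (n : ℕ) (v : V3)
    (i : Fin 3) : hol (γ ^ n)⁻¹ v i = (l i ^ n)⁻¹ * v i := by
  have h1 : hol (γ ^ n) (fun i => (l i ^ n)⁻¹ * v i) = v := by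
    funext j
    rw [dyn_pow hact n, ← mul_assoc, mul_inv_cancel₀ (pow_ne_zero n (hl j)), one_mul]
  have h2 : hol (γ ^ n)⁻¹ (hol (γ ^ n) (fun i => (l i ^ n)⁻¹ * v i)) =
      fun i => (l i ^ n)⁻¹ * v i := by
    change (hol (γ ^ n)⁻¹ * hol (γ ^ n)) _ = _
    rw [← map_mul, inv_mul_cancel, map_one]
    rfl
  rw [h1] at h2
  rw [h2]

theorem dyn_conj {Γ : Type} [Group Γ] {hol : Γ →* (V3 ≃ᵃ[ℝ] V3)} {γ : Γ} {l : Fin 3 → ℝ}
    (hact : ∀ (v : V3) (i : Fin 3), hol γ v i = l i * v i) (hl : ∀ i, l i ≠ 0) (g : Γ) (n : ℕ)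
    (v : V3) (i : Fin 3) : hol (γ ^ n * g * (γ ^ n)⁻¹) v i =
      l i ^ n * (mat (hol g) i 0 * ((l 0 ^ n)⁻¹ * v 0) + mat (hol g) i 1 * ((l 1 ^ n)⁻¹ * v 1) +
        mat (hol g) i 2 * ((l 2 ^ n)⁻¹ * v 2) + hol g 0 i) := by
  rw [map_mul, map_mul]
  change hol (γ ^ n) (hol g (hol (γ ^ n)⁻¹ v)) i = _
  rw [dyn_pow hact n, dyn_aff, dyn_inv hact hl, dyn_inv hact hl, dyn_inv hact hl]

/-- the element with the number `n` is determined by `n` -/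
theorem dyn_injective {Γ : Type} [Group Γ] {hol : Γ →* (V3 ≃ᵃ[ℝ] V3)} {γ : Γ} {l : Fin 3 → ℝ}
    (hact : ∀ (v : V3) (i : Fin 3), hol γ v i = l i * v i) (hl : ∀ i, l i ≠ 0)
    (h02 : |l 2| < |l 0|) (g : Γ) (hg : mat (hol g) 0 2 ≠ 0) :
    Function.Injective fun n : ℕ => γ ^ n * g * (γ ^ n)⁻¹ := by
  intro n m hnm
  have h1 : ∀ k : ℕ, hol (γ ^ k * g * (γ ^ k)⁻¹) ![0, 0, 1] 0 -
      hol (γ ^ k * g * (γ ^ k)⁻¹) ![0, 0, 0] 0 = (l 0 / l 2) ^ k * mat (hol g) 0 2 := by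
    intro k
    rw [dyn_conj hact hl, dyn_conj hact hl, div_pow]
    simp
    ring
  have h2 := h1 n
  have h3 := h1 m
  have h4 : γ ^ n * g * (γ ^ n)⁻¹ = γ ^ m * g * (γ ^ m)⁻¹ := hnm
  rw [h4, h3] at h2
  have h5 : (l 0 / l 2) ^ m = (l 0 / l 2) ^ n := mul_right_cancel₀ hg h2
  have h6 : |l 0 / l 2| ^ m = |l 0 / l 2| ^ n := by rw [← abs_pow, ← abs_pow, h5]
  have h7 : 1 < |l 0 / l 2| := by
    rw [abs_div, one_lt_div (abs_pos.2 (hl 2))]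
    exact h02
  exact (pow_right_injective₀ (by linarith) h7.ne' h6).symm

/-- **DYN** -/
theorem t_dyn : S_dyn := by
  intro Γ _ hol Ω γ l hs g hg a a' b hab hab'
  have hl : ∀ i, l i ≠ 0 := by
    intro i
    fin_cases i
    · intro h
      have h1 := hs.h0
      change l 0 = 0 at h
      rw [h, abs_zero] at h1
      linarith
    · intro h
      have h1 := hs.h2
      change l 1 = 0 at h
      rw [h, abs_zero] at h1
      linarith [abs_nonneg (l 2)]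
    · exact hs.h3
  have h02 : |l 2| < |l 0| := by linarith [hs.h0, hs.h1, hs.h2]
  obtain ⟨D, hD⟩ : ∃ D, D = mat (hol g) := ⟨_, rfl⟩
  obtain ⟨d, hd⟩ : ∃ d, d = hol g 0 := ⟨_, rfl⟩
  rw [← hD] at hg hab'
  -- the sequences
  have t1 : Tendsto (fun n : ℕ => (l 1) ^ n) atTop (𝓝 0) :=
    tendsto_pow_atTop_nhds_zero_of_abs_lt_one hs.h1
  have t2 : Tendsto (fun n : ℕ => (l 2) ^ n) atTop (𝓝 0) :=
    tendsto_pow_atTop_nhds_zero_of_abs_lt_one (hs.h2.trans hs.h1)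
  have t0 : Tendsto (fun n : ℕ => ((l 0) ^ n)⁻¹) atTop (𝓝 0) := by
    have h : |(l 0)⁻¹| < 1 := by
      rw [abs_inv]
      exact inv_lt_one_of_one_lt₀ hs.h0
    exact (tendsto_pow_atTop_nhds_zero_of_abs_lt_one h).congr fun n => inv_pow _ _
  have t3 : Tendsto (fun n : ℕ => (l 2) ^ n * ((l 1) ^ n)⁻¹) atTop (𝓝 0) := by
    have h : |l 2 / l 1| < 1 := by
      rw [abs_div, div_lt_one (abs_pos.2 (hl 1))]
      exact hs.h2
    exact (tendsto_pow_atTop_nhds_zero_of_abs_lt_one h).congr fun n => by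
      rw [div_pow, div_eq_mul_inv]
  let c : ℕ → ℝ := fun n => (l 2 ^ n * (l 0 ^ n)⁻¹ * (a' - D 0 0 * a) -
    D 0 1 * (l 2 ^ n * (l 1 ^ n)⁻¹) * b - l 2 ^ n * d 0) / D 0 2
  have tc : Tendsto c atTop (𝓝 0) := by
    have h := ((((t2.mul t0).mul_const (a' - D 0 0 * a)).sub
      ((t3.const_mul (D 0 1)).mul_const b)).sub (t2.mul_const (d 0))).div_const (D 0 2)
    have e : ((0 : ℝ) * 0 * (a' - D 0 0 * a) - D 0 1 * 0 * b - 0 * d 0) / D 0 2 = 0 := by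
      simp
    rw [e] at h
    exact h
  let q : ℕ → V3 := fun n => ![a, b, c n]
  have tq : Tendsto q atTop (𝓝 ![a, b, 0]) := by
    rw [tendsto_pi_nhds]
    intro i
    fin_cases i
    · exact tendsto_const_nhds
    · exact tendsto_const_nhds
    · exact tc
  have c0 : ∀ n, hol (γ ^ n * g * (γ ^ n)⁻¹) (q n) 0 = a' := by
    intro n
    rw [dyn_conj hs.act hl, ← hD, ← hd]
    change l 0 ^ n * (D 0 0 * ((l 0 ^ n)⁻¹ * a) + D 0 1 * ((l 1 ^ n)⁻¹ * b) +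
      D 0 2 * ((l 2 ^ n)⁻¹ * ((l 2 ^ n * (l 0 ^ n)⁻¹ * (a' - D 0 0 * a) -
    D 0 1 * (l 2 ^ n * (l 1 ^ n)⁻¹) * b - l 2 ^ n * d 0) / D 0 2)) + d 0) = a'
    have x0 := pow_ne_zero n (hl 0)
    have x1 := pow_ne_zero n (hl 1)
    have x2 := pow_ne_zero n (hl 2)
    field_simp
    ring
  have c1 : ∀ n, hol (γ ^ n * g * (γ ^ n)⁻¹) (q n) 1 = l 1 ^ n * (l 0 ^ n)⁻¹ * (D 1 0 * a) +
      D 1 1 * b + D 1 2 * ((l 1 ^ n * (l 0 ^ n)⁻¹ * (a' - D 0 0 * a) - D 0 1 * b -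
        l 1 ^ n * d 0) / D 0 2) + l 1 ^ n * d 1 := by
    intro n
    rw [dyn_conj hs.act hl, ← hD, ← hd]
    change l 1 ^ n * (D 1 0 * ((l 0 ^ n)⁻¹ * a) + D 1 1 * ((l 1 ^ n)⁻¹ * b) +
      D 1 2 * ((l 2 ^ n)⁻¹ * ((l 2 ^ n * (l 0 ^ n)⁻¹ * (a' - D 0 0 * a) -
    D 0 1 * (l 2 ^ n * (l 1 ^ n)⁻¹) * b - l 2 ^ n * d 0) / D 0 2)) + d 1) = _
    have x0 := pow_ne_zero n (hl 0)
    have x1 := pow_ne_zero n (hl 1)
    have x2 := pow_ne_zero n (hl 2)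
    field_simp
  have c2 : ∀ n, hol (γ ^ n * g * (γ ^ n)⁻¹) (q n) 2 = l 2 ^ n * (l 0 ^ n)⁻¹ * (D 2 0 * a) +
      l 2 ^ n * (l 1 ^ n)⁻¹ * (D 2 1 * b) + D 2 2 * c n + l 2 ^ n * d 2 := by
    intro n
    rw [dyn_conj hs.act hl, ← hD, ← hd]
    change l 2 ^ n * (D 2 0 * ((l 0 ^ n)⁻¹ * a) + D 2 1 * ((l 1 ^ n)⁻¹ * b) +
      D 2 2 * ((l 2 ^ n)⁻¹ * c n) + d 2) = _
    have x0 := pow_ne_zero n (hl 0)
    have x1 := pow_ne_zero n (hl 1)
    have x2 := pow_ne_zero n (hl 2)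
    field_simp
  have th : Tendsto (fun n => hol (γ ^ n * g * (γ ^ n)⁻¹) (q n)) atTop
      (𝓝 ![a', kap D * b, 0]) := by
    rw [tendsto_pi_nhds]
    intro i
    fin_cases i
    · change Tendsto (fun n => hol (γ ^ n * g * (γ ^ n)⁻¹) (q n) 0) atTop (𝓝 a')
      simp only [c0]
      exact tendsto_const_nhds
    · change Tendsto (fun n => hol (γ ^ n * g * (γ ^ n)⁻¹) (q n) 1) atTop (𝓝 (kap D * b))
      simp only [c1]
      have h := ((((t1.mul t0).mul_const (D 1 0 * a)).add_const (D 1 1 * b)).add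
        ((((((t1.mul t0).mul_const (a' - D 0 0 * a)).sub_const (D 0 1 * b)).sub
          (t1.mul_const (d 0))).div_const (D 0 2)).const_mul (D 1 2))).add (t1.mul_const (d 1))
      have e : (0 : ℝ) * 0 * (D 1 0 * a) + D 1 1 * b +
          D 1 2 * ((0 * 0 * (a' - D 0 0 * a) - D 0 1 * b - 0 * d 0) / D 0 2) + 0 * d 1 =
          kap D * b := by
        unfold kap
        field_simp
        ring
      rw [e] at h
      exact h
    · change Tendsto (fun n => hol (γ ^ n * g * (γ ^ n)⁻¹) (q n) 2) atTop (𝓝 0)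
      simp only [c2]
      have h := ((((t2.mul t0).mul_const (D 2 0 * a)).add (t3.mul_const (D 2 1 * b))).add
        (tc.const_mul (D 2 2))).add (t2.mul_const (d 2))
      have e : (0 : ℝ) * 0 * (D 2 0 * a) + 0 * (D 2 1 * b) + D 2 2 * 0 + 0 * d 2 = 0 := by
        simp
      rw [e] at h
      exact h
  have hfin := hs.pd _ hab _ hab' q (fun n => γ ^ n * g * (γ ^ n)⁻¹) tq th
  rw [hD] at hg
  exact (Set.infinite_range_of_injective (dyn_injective hs.act hl h02 g hg)) hfin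

end Pool.Agent.H817.PH
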