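import Pool.Agent.H817.PH.Stm

/-!
FORM: equal matrix coefficients of a representation and of its dual give an invariant symmetric form
(helper376, for helper817).
-/

set_option autoImplicit false
set_option linter.unusedSectionVars false

namespace Pool.Agent.H817.PH

open Set Filter Topology Module

section form

variable {Γ E : Type} [Group Γ] [AddCommGroup E] [Module ℝ E] [FiniteDimensional ℝ E]

theorem form_mul (L : Γ →* (E ≃ₗ[ℝ] E)) (g h : Γ) (v : E) : L (g * h) v = L g (L h v) := by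
  rw [map_mul]
  rfl

theorem form_inv_apply (L : Γ →* (E ≃ₗ[ℝ] E)) (g : Γ) (v : E) : L g⁻¹ (L g v) = v := by
  rw [← form_mul, inv_mul_cancel, map_one]
  rfl

theorem form_apply_inv (L : Γ →* (E ≃ₗ[ℝ] E)) (g : Γ) (v : E) : L g (L g⁻¹ v) = v := by
  rw [← form_mul, mul_inv_cancel, map_one]
  rfl

/-- an alternating form in dimension three is degenerate -/
theorem form_deg (h3 : finrank ℝ E = 3) (A : E →ₗ[ℝ] E →ₗ[ℝ] ℝ) (hA : ∀ v w, A v w = -A w v) :
    ∃ v : E, v ≠ 0 ∧ ∀ w, A v w = 0 := by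
  classical
  let e : Basis (Fin 3) ℝ E := finBasisOfFinrankEq ℝ E h3
  let M : Matrix (Fin 3) (Fin 3) ℝ := Matrix.of fun i j => A (e i) (e j)
  have hM : M.transpose = -M := by
    ext i j
    exact hA (e j) (e i)
  have hdet : M.det = 0 := by
    have h1 : M.det = -M.det := by
      conv_lhs => rw [← Matrix.det_transpose, hM, Matrix.det_neg]
      rw [Fintype.card_fin]
      ring
    linarith
  obtain ⟨x, hx0, hx⟩ := Matrix.exists_mulVec_eq_zero_iff.2 hdet
  have h1 : ∀ i, A (e i) (∑ j, x j • e j) = 0 := by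
    intro i
    have h2 := congrFun hx i
    rw [Matrix.mulVec, dotProduct, Pi.zero_apply] at h2
    rw [map_sum, ← h2]
    refine Finset.sum_congr rfl fun j _ => ?_
    rw [map_smul, smul_eq_mul, mul_comm]
    rfl
  refine ⟨∑ j, x j • e j, ?_, ?_⟩
  · intro h2
    apply hx0
    have h4 := Fintype.linearIndependent_iff.1 e.linearIndependent x h2
    funext i
    exact h4 i
  · intro w
    have h2 : A.flip (∑ j, x j • e j) = 0 := e.ext fun i => h1 i
    have h4 : A w (∑ j, x j • e j) = 0 := LinearMap.congr_fun h2 w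
    rw [hA, h4, neg_zero]

/-- the pairs with equal matrix coefficients -/
def form_U (L : Γ →* (E ≃ₗ[ℝ] E)) (K : Subgroup Γ) (φ : E →ₗ[ℝ] ℝ) (b : E) :
    Submodule ℝ (E × (E →ₗ[ℝ] ℝ)) where
  carrier := {p | ∀ δ ∈ K, φ (L δ p.1) = p.2 (L δ⁻¹ b)}
  zero_mem' := by
    intro δ _
    simp
  add_mem' := by
    intro p q hp hq δ hδ
    rw [Prod.fst_add, Prod.snd_add, map_add, map_add, hp δ hδ, hq δ hδ]
    rfl
  smul_mem' := by
    intro c p hp δ hδ
    rw [Prod.smul_fst, Prod.smul_snd, map_smul, map_smul, hp δ hδ]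
    rfl

theorem form_mem_U (L : Γ →* (E ≃ₗ[ℝ] E)) (K : Subgroup Γ) (φ : E →ₗ[ℝ] ℝ) (b : E)
    (p : E × (E →ₗ[ℝ] ℝ)) :
    p ∈ form_U L K φ b ↔ ∀ δ ∈ K, φ (L δ p.1) = p.2 (L δ⁻¹ b) := Iff.rfl

theorem form_U_inv {L : Γ →* (E ≃ₗ[ℝ] E)} {K : Subgroup Γ} {φ : E →ₗ[ℝ] ℝ} {b : E}
    {p : E × (E →ₗ[ℝ] ℝ)} (hp : p ∈ form_U L K φ b) {g : Γ} (hg : g ∈ K) :
    (L g p.1, p.2 ∘ₗ (L g⁻¹ : E →ₗ[ℝ] E)) ∈ form_U L K φ b := by
  rw [form_mem_U] at hp ⊢
  intro δ hδ
  have h1 := hp (δ * g) (K.mul_mem hδ hg)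
  rw [form_mul, mul_inv_rev, form_mul] at h1
  exact h1

theorem form_orbit {L : Γ →* (E ≃ₗ[ℝ] E)} (hL : StrIrr L) {K : Subgroup Γ} (hK : K.FiniteIndex)
    {b : E} (hb : b ≠ 0) (ξ : E →ₗ[ℝ] ℝ) (h : ∀ δ ∈ K, ξ (L δ⁻¹ b) = 0) : ξ = 0 := by
  let W : Submodule ℝ E := Submodule.span ℝ {x | ∃ δ ∈ K, x = L δ⁻¹ b}
  have hW : W = ⊤ := by
    refine (hL K hK W ?_).resolve_left ?_
    · intro g hg w hw
      induction hw using Submodule.span_induction with
      | mem x hx =>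
        obtain ⟨δ, hδ, rfl⟩ := hx
        refine Submodule.subset_span ⟨δ * g⁻¹, K.mul_mem hδ (K.inv_mem hg), ?_⟩
        rw [mul_inv_rev, inv_inv, form_mul]
      | zero =>
        rw [map_zero]
        exact W.zero_mem
      | add x y _ _ hx hy =>
        rw [map_add]
        exact W.add_mem hx hy
      | smul c x _ hx =>
        rw [map_smul]
        exact W.smul_mem c hx
    · intro hbot
      have h1 : b ∈ W := by
        refine Submodule.subset_span ⟨1, K.one_mem, ?_⟩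
        rw [inv_one, map_one]
        rfl
      rw [hbot, Submodule.mem_bot] at h1
      exact hb h1
  have h1 : W ≤ LinearMap.ker ξ := by
    rw [Submodule.span_le]
    rintro _ ⟨δ, hδ, rfl⟩
    exact h δ hδ
  rw [hW, top_le_iff, LinearMap.ker_eq_top] at h1
  exact h1

end form

theorem t_form : S_form := by
  intro Γ E _ _ _ _ L h3 hL hN K hK φ ψ a b hφ hψ ha hb h
  -- the graph
  have hinj : ∀ p ∈ form_U L K φ b, p.1 = 0 → p = 0 := by
    intro p hp h1
    have h2 : p.2 = 0 := by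
      refine form_orbit hL hK hb p.2 fun δ hδ => ?_
      rw [← hp δ hδ, h1, map_zero, map_zero]
    exact Prod.ext h1 h2
  have hsurj : (form_U L K φ b).map (LinearMap.fst ℝ E (E →ₗ[ℝ] ℝ)) = ⊤ := by
    refine (hL K hK _ ?_).resolve_left ?_
    · rintro g hg _ ⟨p, hp, rfl⟩
      exact ⟨_, form_U_inv hp hg, rfl⟩
    · intro hbot
      have h1 : a ∈ (form_U L K φ b).map (LinearMap.fst ℝ E (E →ₗ[ℝ] ℝ)) := ⟨(a, ψ), h, rfl⟩
      rw [hbot, Submodule.mem_bot] at h1
      exact ha h1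
  let F : form_U L K φ b →ₗ[ℝ] E := (LinearMap.fst ℝ E (E →ₗ[ℝ] ℝ)).domRestrict _
  have hF : Function.Bijective F := by
    constructor
    · intro p p' hpp
      have h1 : (p - p').1.1 = 0 := by
        change p.1.1 - p'.1.1 = 0
        exact sub_eq_zero.2 hpp
      have h2 := hinj (p - p').1 (p - p').2 h1
      have h4 : p.1 - p'.1 = 0 := h2
      exact Subtype.ext (sub_eq_zero.1 h4)
    · intro v
      have h1 : v ∈ (form_U L K φ b).map (LinearMap.fst ℝ E (E →ₗ[ℝ] ℝ)) := by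
        rw [hsurj]
        trivial
      obtain ⟨p, hp, hpv⟩ := h1
      exact ⟨⟨p, hp⟩, hpv⟩
  let e := LinearEquiv.ofBijective F hF
  let Θ : E →ₗ[ℝ] (E →ₗ[ℝ] ℝ) :=
    ((LinearMap.snd ℝ E (E →ₗ[ℝ] ℝ)).domRestrict (form_U L K φ b)) ∘ₗ (e.symm : E →ₗ[ℝ] _)
  have hΘ : ∀ p ∈ form_U L K φ b, Θ p.1 = p.2 := by
    intro p hp
    have h1 : e.symm p.1 = ⟨p, hp⟩ := by
      rw [LinearEquiv.symm_apply_eq]
      rfl
    change ((e.symm p.1 : form_U L K φ b) : E × (E →ₗ[ℝ] ℝ)).2 = p.2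
    rw [h1]
  have hΘ' : ∀ v, (v, Θ v) ∈ form_U L K φ b := by
    intro v
    obtain ⟨p, hp⟩ := hF.2 v
    have h1 : p.1.1 = v := hp
    have h2 := hΘ p.1 p.2
    rw [h1] at h2
    rw [h2, ← h1]
    exact p.2
  have hB : ∀ g ∈ K, ∀ v w, Θ (L g v) (L g w) = Θ v w := by
    intro g hg v w
    have h1 := hΘ _ (form_U_inv (hΘ' v) hg)
    simp only at h1
    rw [h1, LinearMap.comp_apply]
    change Θ v (L g⁻¹ (L g w)) = Θ v w
    rw [form_inv_apply]
  -- the alternating part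
  let A : E →ₗ[ℝ] E →ₗ[ℝ] ℝ := Θ - Θ.flip
  have hA : ∀ v w, A v w = Θ v w - Θ w v := fun v w => rfl
  have hAalt : ∀ v w, A v w = -A w v := by
    intro v w
    rw [hA, hA]
    ring
  obtain ⟨v, hv0, hv⟩ := form_deg h3 A hAalt
  have hker : LinearMap.ker A = ⊤ := by
    refine (hL K hK _ ?_).resolve_left ?_
    · intro g hg w hw
      rw [LinearMap.mem_ker] at hw ⊢
      ext u
      have h1 : A (L g w) (L g (L g⁻¹ u)) = A w (L g⁻¹ u) := by
        rw [hA, hA, hB g hg, hB g hg]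
      rw [form_apply_inv] at h1
      rw [h1, hw]
      rfl
    · intro hbot
      have h1 : v ∈ LinearMap.ker A := by
        rw [LinearMap.mem_ker]
        ext w
        exact hv w
      rw [hbot, Submodule.mem_bot] at h1
      exact hv0 h1
  have hsym : ∀ v w, Θ v w = Θ w v := by
    intro v w
    have h1 : A = 0 := LinearMap.ker_eq_top.1 hker
    have h2 := hA v w
    rw [h1] at h2
    have h4 : (0 : ℝ) = Θ v w - Θ w v := h2
    linarith
  have h0 := hN K hK Θ hsym hB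
  apply hψ
  have h1 := hΘ (a, ψ) h
  simp only at h1
  rw [← h1, h0]
  rfl

end Pool.Agent.H817.PH
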