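import Pool.Agent.H817.PH.Stm

set_option autoImplicit false

/-! The Schur numbers of `M1 diag(l)^n M2` are not eventually geometric. -/

namespace Pool.Agent.H817.PH

open Set Filter Topology Module

theorem nonconst_entry (l : Fin 3 → ℝ) (M1 M2 : M3) (n : ℕ) (i j : Fin 3) :
    (M1 * Matrix.diagonal l ^ n * M2) i j =
      M1 i 0 * l 0 ^ n * M2 0 j + M1 i 1 * l 1 ^ n * M2 1 j + M1 i 2 * l 2 ^ n * M2 2 j := by
  rw [Matrix.diagonal_pow, Matrix.mul_apply, Fin.sum_univ_three]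
  simp only [Matrix.mul_diagonal, Pi.pow_apply]

theorem nonconst_ratio {x y : ℝ} (h : |x| < |y|) :
    Tendsto (fun n : ℕ => x ^ n / y ^ n) atTop (𝓝 0) := by
  have hy : 0 < |y| := (abs_nonneg x).trans_lt h
  have h1 : |x / y| < 1 := by
    rw [abs_div, div_lt_one hy]
    exact h
  refine (tendsto_pow_atTop_nhds_zero_of_abs_lt_one h1).congr fun n => ?_
  rw [div_pow]

theorem t_nonconst : S_nonconst := by
  intro l M1 M2 h0 h1 h21 h2 hdet hM1 hM2 hA hB hcon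
  have h10 : |l 1| < |l 0| := h1.trans h0
  have hl1 : l 1 ≠ 0 := by
    intro h
    rw [h, abs_zero] at h21
    exact absurd h21 (not_lt.2 (abs_nonneg _))
  have hl0 : l 0 ≠ 0 := by
    intro h
    rw [h, abs_zero] at h10
    exact absurd h10 (not_lt.2 (abs_nonneg _))
  have hp := nonconst_ratio h10
  have hr := nonconst_ratio h21
  have hpr : Tendsto (fun n : ℕ => l 1 ^ n / l 0 ^ n * (l 2 ^ n / l 1 ^ n)) atTop (𝓝 0) := by
    simpa using hp.mul hr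
  have hden : Tendsto (fun n : ℕ => M1 0 0 * M2 0 0 + M1 0 1 * M2 1 0 * (l 1 ^ n / l 0 ^ n) +
      M1 0 2 * M2 2 0 * (l 1 ^ n / l 0 ^ n * (l 2 ^ n / l 1 ^ n))) atTop
      (𝓝 (M1 0 0 * M2 0 0)) := by
    have := (tendsto_const_nhds (x := M1 0 0 * M2 0 0)).add (hp.const_mul (M1 0 1 * M2 1 0))
    have := this.add (hpr.const_mul (M1 0 2 * M2 2 0))
    simpa using this
  have hne : M1 0 0 * M2 0 0 ≠ 0 := mul_ne_zero hM1 hM2
  have hev := hden.eventually_ne hne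
  have hP : ∀ n : ℕ, (M1 * Matrix.diagonal l ^ n * M2) 0 0 =
      l 0 ^ n * (M1 0 0 * M2 0 0 + M1 0 1 * M2 1 0 * (l 1 ^ n / l 0 ^ n) +
      M1 0 2 * M2 2 0 * (l 1 ^ n / l 0 ^ n * (l 2 ^ n / l 1 ^ n))) := by
    intro n
    have h0 : l 0 ^ n ≠ 0 := pow_ne_zero _ hl0
    have h1 : l 1 ^ n ≠ 0 := pow_ne_zero _ hl1
    rw [nonconst_entry]
    field_simp
  obtain ⟨c, hc⟩ : ∃ c : ℝ, c = sch M1 * sch M2 := ⟨_, rfl⟩
  have hcA : (M1 0 0 * M1 1 1 - M1 0 1 * M1 1 0) * (M2 0 0 * M2 1 1 - M2 0 1 * M2 1 0) =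
      c * (M1 0 0 * M2 0 0) := by
    rw [hc]
    unfold sch
    field_simp
    try ring
  have hy : Tendsto (fun n : ℕ => l 1 ^ n) atTop (𝓝 0) :=
    tendsto_pow_atTop_nhds_zero_of_abs_lt_one h1
  have hz : Tendsto (fun n : ℕ => l 2 ^ n) atTop (𝓝 0) :=
    tendsto_pow_atTop_nhds_zero_of_abs_lt_one (h21.trans h1)
  have hR : Tendsto (fun n : ℕ => |c * (l 1 ^ n * (l 1 ^ n * (M1 0 1 * M2 1 0) +
      l 2 ^ n * (M1 0 2 * M2 2 0))) - (l 1 ^ n * l 2 ^ n) *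
      ((M1 0 1 * M1 1 2 - M1 0 2 * M1 1 1) * (M2 1 0 * M2 2 1 - M2 1 1 * M2 2 0))|) atTop
      (𝓝 0) := by
    have e1 := (hy.mul_const (M1 0 1 * M2 1 0)).add (hz.mul_const (M1 0 2 * M2 2 0))
    have e2 := (hy.mul e1).const_mul c
    have e3 := (hy.mul hz).mul_const
      ((M1 0 1 * M1 1 2 - M1 0 2 * M1 1 1) * (M2 1 0 * M2 2 1 - M2 1 1 * M2 2 0))
    have e4 := (e2.sub e3).abs
    simpa using e4
  have hle : |(M1 0 0 * M1 1 2 - M1 0 2 * M1 1 0) * (M2 0 0 * M2 2 1 - M2 0 1 * M2 2 0)| ≤ 0 := by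
    refine ge_of_tendsto hR ?_
    filter_upwards [hev, hcon] with n hn hcn
    have hx : l 0 ^ n ≠ 0 := pow_ne_zero _ hl0
    have hyn : l 1 ^ n ≠ 0 := pow_ne_zero _ hl1
    have hPne : (M1 * Matrix.diagonal l ^ n * M2) 0 0 ≠ 0 := by
      rw [hP n]
      exact mul_ne_zero hx hn
    have hs : sch (M1 * Matrix.diagonal l ^ n * M2) = c * l 1 ^ n := by
      have := not_not.1 hcn
      rw [div_eq_iff hyn, ← hc] at this
      exact this
    have hmin : (M1 * Matrix.diagonal l ^ n * M2) 1 1 * (M1 * Matrix.diagonal l ^ n * M2) 0 0 -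
          (M1 * Matrix.diagonal l ^ n * M2) 1 0 * (M1 * Matrix.diagonal l ^ n * M2) 0 1 =
          c * l 1 ^ n * (M1 * Matrix.diagonal l ^ n * M2) 0 0 := by
      rw [← hs]
      unfold sch
      field_simp
    rw [nonconst_entry, nonconst_entry, nonconst_entry, nonconst_entry] at hmin
    have hkey : (l 0 ^ n * l 2 ^ n) *
        ((M1 0 0 * M1 1 2 - M1 0 2 * M1 1 0) * (M2 0 0 * M2 2 1 - M2 0 1 * M2 2 0)) =
        c * (l 1 ^ n * (l 1 ^ n * (M1 0 1 * M2 1 0) +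
      l 2 ^ n * (M1 0 2 * M2 2 0))) - (l 1 ^ n * l 2 ^ n) *
      ((M1 0 1 * M1 1 2 - M1 0 2 * M1 1 1) * (M2 1 0 * M2 2 1 - M2 1 1 * M2 2 0)) := by
      linear_combination hmin - (l 0 ^ n * l 1 ^ n) * hcA
    rw [← hkey, abs_mul (l 0 ^ n * l 2 ^ n)]
    have hone : 1 ≤ |l 0 ^ n * l 2 ^ n| := by
      rw [← mul_pow, abs_pow]
      apply one_le_pow₀
      rw [abs_mul] at hdet ⊢
      rw [abs_mul] at hdet
      have e1 : |l 0| * |l 1| * |l 2| ≤ |l 0| * |l 2| := by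
        have : |l 0| * |l 2| * |l 1| ≤ |l 0| * |l 2| * 1 :=
          mul_le_mul_of_nonneg_left h1.le (by positivity)
        nlinarith
      linarith
    exact le_mul_of_one_le_left (abs_nonneg _) hone
  have := abs_nonpos_iff.1 hle
  exact mul_ne_zero hA hB this

end Pool.Agent.H817.PH
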