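import Pool.Agent.H817.PH.Stm

set_option autoImplicit false

namespace Pool.Agent.H817.PH

open Set Filter Topology Module

theorem pairs_key {Γ E : Type} [Group Γ] [AddCommGroup E] [Module ℝ E] (L : Γ →* (E ≃ₗ[ℝ] E))
    (hS : StrIrr L) (K : Subgroup Γ) (hK : K.FiniteIndex) {φ : E →ₗ[ℝ] ℝ} {v : E} (hφ : φ ≠ 0)
    (hv : v ≠ 0) : ¬ ∀ g ∈ K, φ (L g v) = 0 := by
  intro h
  set W : Submodule ℝ E := Submodule.span ℝ {x | ∃ g ∈ K, L g v = x} with hW
  have hinv : ∀ g ∈ K, ∀ w ∈ W, L g w ∈ W := by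
    intro g hg w hw
    rw [hW] at hw ⊢
    refine Submodule.span_induction (p := fun w _ =>
      L g w ∈ Submodule.span ℝ {x | ∃ g ∈ K, L g v = x}) ?_ ?_ ?_ ?_ hw
    · rintro x ⟨g', hg', rfl⟩
      refine Submodule.subset_span ⟨g * g', K.mul_mem hg hg', ?_⟩
      rw [map_mul, LinearEquiv.mul_apply]
    · rw [map_zero]
      exact Submodule.zero_mem _
    · intro x y _ _ hx hy
      rw [map_add]
      exact Submodule.add_mem _ hx hy
    · intro a x _ hx
      rw [map_smul]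
      exact Submodule.smul_mem _ a hx
  have hvW : v ∈ W := by
    refine Submodule.subset_span ⟨1, K.one_mem, ?_⟩
    rw [map_one]
    rfl
  have hker : W ≤ LinearMap.ker φ := by
    rw [hW, Submodule.span_le]
    rintro x ⟨g, hg, rfl⟩
    exact h g hg
  rcases hS K hK W hinv with h0 | h1
  · rw [h0, Submodule.mem_bot] at hvW
    exact hv hvW
  · apply hφ
    ext x
    have : x ∈ LinearMap.ker φ := hker (by rw [h1]; exact Submodule.mem_top)
    exact this

theorem pairs_linv {Γ E : Type} [Group Γ] [AddCommGroup E] [Module ℝ E] (L : Γ →* (E ≃ₗ[ℝ] E))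
    (g : Γ) (x : E) : L g⁻¹ (L g x) = x := by
  rw [← LinearEquiv.mul_apply, ← map_mul, inv_mul_cancel, map_one]
  rfl

theorem pairs_rinv {Γ E : Type} [Group Γ] [AddCommGroup E] [Module ℝ E] (L : Γ →* (E ≃ₗ[ℝ] E))
    (g : Γ) (x : E) : L g (L g⁻¹ x) = x := by
  rw [← LinearEquiv.mul_apply, ← map_mul, mul_inv_cancel, map_one]
  rfl

/-- the action on pairs of linear maps -/
noncomputable def pairs_rho {Γ E : Type} [Group Γ] [AddCommGroup E] [Module ℝ E]
    (L : Γ →* (E ≃ₗ[ℝ] E)) :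
    Γ →* (((E →ₗ[ℝ] E) × (E →ₗ[ℝ] E)) ≃ₗ[ℝ] ((E →ₗ[ℝ] E) × (E →ₗ[ℝ] E))) where
  toFun g :=
    { toFun := fun p => ((L g : E →ₗ[ℝ] E) ∘ₗ p.1, p.2 ∘ₗ (L g⁻¹ : E →ₗ[ℝ] E))
      map_add' := by
        intro p q
        refine Prod.ext ?_ ?_
        · ext x; simp
        · ext x; simp
      map_smul' := by
        intro a p
        refine Prod.ext ?_ ?_
        · ext x; simp
        · ext x; simp
      invFun := fun p => ((L g⁻¹ : E →ₗ[ℝ] E) ∘ₗ p.1, p.2 ∘ₗ (L g : E →ₗ[ℝ] E))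
      left_inv := by
        intro p
        refine Prod.ext ?_ ?_
        · ext x
          exact pairs_linv L g _
        · ext x
          exact congrArg p.2 (pairs_linv L g x)
      right_inv := by
        intro p
        refine Prod.ext ?_ ?_
        · ext x
          exact pairs_rinv L g _
        · ext x
          exact congrArg p.2 (pairs_rinv L g x) }
  map_one' := by
    ext p x
    · show L 1 (p.1 x) = p.1 x
      rw [map_one]
      rfl
    · show p.2 (L 1⁻¹ x) = p.2 x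
      rw [inv_one, map_one]
      rfl
  map_mul' := by
    intro g h
    ext p x
    · show L (g * h) (p.1 x) = L g (L h (p.1 x))
      rw [map_mul]
      rfl
    · show p.2 (L (g * h)⁻¹ x) = p.2 (L h⁻¹ (L g⁻¹ x))
      rw [mul_inv_rev, map_mul]
      rfl

theorem t_pairs (h : S_star) : S_pairs := by
  intro Γ E _ _ _ _ L hS m n φ v ψ w hφ hv hψ hw
  by_contra hno
  push Not at hno
  set f : (Fin m ⊕ Fin n) → (((E →ₗ[ℝ] E) × (E →ₗ[ℝ] E)) →ₗ[ℝ] ℝ) :=
    Sum.elim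
      (fun i => (φ i) ∘ₗ (LinearMap.applyₗ (v i)) ∘ₗ (LinearMap.fst ℝ (E →ₗ[ℝ] E) (E →ₗ[ℝ] E)))
      (fun j => (ψ j) ∘ₗ (LinearMap.applyₗ (w j)) ∘ₗ (LinearMap.snd ℝ (E →ₗ[ℝ] E) (E →ₗ[ℝ] E)))
    with hf
  have hl : ∀ (g : Γ) (i : Fin m),
      f (Sum.inl i) (pairs_rho L g (LinearMap.id, LinearMap.id)) = φ i (L g (v i)) := by
    intro g i
    rfl
  have hr : ∀ (g : Γ) (j : Fin n),
      f (Sum.inr j) (pairs_rho L g (LinearMap.id, LinearMap.id)) = ψ j (L g⁻¹ (w j)) := by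
    intro g j
    rfl
  obtain ⟨K, hK, i, hi⟩ := h Γ ((E →ₗ[ℝ] E) × (E →ₗ[ℝ] E)) (Fin m ⊕ Fin n) (pairs_rho L)
    (LinearMap.id, LinearMap.id) f (by
      intro g
      by_cases hg : ∀ i, φ i (L g (v i)) ≠ 0
      · obtain ⟨j, hj⟩ := hno g hg
        exact ⟨Sum.inr j, by rw [hr]; exact hj⟩
      · push Not at hg
        obtain ⟨i, hi⟩ := hg
        exact ⟨Sum.inl i, by rw [hl]; exact hi⟩)
  rcases i with i | j
  · refine pairs_key L hS K hK (hφ i) (hv i) fun g hg => ?_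
    rw [← hl]
    exact hi g hg
  · refine pairs_key L hS K hK (hψ j) (hw j) fun g hg => ?_
    have := hi g⁻¹ (K.inv_mem hg)
    rw [hr, inv_inv] at this
    exact this

end Pool.Agent.H817.PH
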