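import Pool.Agent.H817.PH.Stm

/-!
Rank one limits of an unbounded group of determinant `±1` in dimension three.
-/

set_option autoImplicit false

namespace Pool.Agent.H817.PH

open Set Filter Topology Module

/-- a nonzero map with range of dimension at most one -/
theorem rank1_of {E : Type} [NormedAddCommGroup E] [NormedSpace ℝ E] [FiniteDimensional ℝ E]
    (T : E →L[ℝ] E) (hT : T ≠ 0) (h : finrank ℝ (LinearMap.range (T : E →ₗ[ℝ] E)) ≤ 1) :
    ∃ (β : E →L[ℝ] ℝ) (a : E), β ≠ 0 ∧ a ≠ 0 ∧ T = β.smulRight a := by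
  obtain ⟨v, hv⟩ := finrank_le_one_iff.1 h
  have hc : ∀ x : E, ∃ c : ℝ, T x = c • (v : E) := by
    intro x
    obtain ⟨c, hc⟩ := hv ⟨T x, LinearMap.mem_range_self (T : E →ₗ[ℝ] E) x⟩
    exact ⟨c, (congrArg Subtype.val hc).symm⟩
  have ha : (v : E) ≠ 0 := by
    intro h0
    apply hT
    ext x
    obtain ⟨c, hc⟩ := hc x
    rw [hc, h0, smul_zero]
    rfl
  obtain ⟨f, hf⟩ := SeparatingDual.exists_eq_one (R := ℝ) ha
  have hT' : T = (f.comp T).smulRight (v : E) := by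
    ext x
    obtain ⟨c, hc⟩ := hc x
    rw [ContinuousLinearMap.smulRight_apply, ContinuousLinearMap.comp_apply, hc, map_smul, hf,
      smul_eq_mul, mul_one]
  refine ⟨f.comp T, v, ?_, ha, hT'⟩
  intro h0
  apply hT
  rw [hT', h0]
  ext x
  simp

/-- boundedness of the inverses of bounded automorphisms of determinant `±1` -/
theorem rank1_inv_bdd {E : Type} [NormedAddCommGroup E] [NormedSpace ℝ E] [FiniteDimensional ℝ E]
    (R : ℝ) : ∃ C : ℝ, ∀ A B : E →L[ℝ] E, A * B = 1 → |LinearMap.det (B : E →ₗ[ℝ] E)| = 1 →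
      ‖B‖ ≤ R → ‖A‖ ≤ C := by
  have : ProperSpace (E →L[ℝ] E) := FiniteDimensional.proper_real (E →L[ℝ] E)
  have : CompleteSpace E := FiniteDimensional.complete ℝ E
  have hK : IsCompact {B : E →L[ℝ] E | ‖B‖ ≤ R ∧ |B.det| = 1} := by
    refine Metric.isCompact_of_isClosed_isBounded ?_ ?_
    · exact (isClosed_le continuous_norm continuous_const).inter
        (isClosed_eq (continuous_abs.comp ContinuousLinearMap.continuous_det) continuous_const)
    · refine (Metric.isBounded_closedBall (x := (0 : E →L[ℝ] E)) (r := R)).subset ?_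
      intro B hB
      rw [Metric.mem_closedBall, dist_zero_right]
      exact hB.1
  have hun : ∀ B : E →L[ℝ] E, |B.det| = 1 → IsUnit B := by
    intro B hB
    have hdet : LinearMap.det (B : E →ₗ[ℝ] E) ≠ 0 := by
      intro h0
      change |LinearMap.det (B : E →ₗ[ℝ] E)| = 1 at hB
      rw [h0, abs_zero] at hB
      exact zero_ne_one hB
    rw [ContinuousLinearMap.isUnit_iff_bijective]
    exact (LinearMap.equivOfDetNeZero (B : E →ₗ[ℝ] E) hdet).bijective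
  have hcont : ContinuousOn (Ring.inverse : (E →L[ℝ] E) → (E →L[ℝ] E))
      {B : E →L[ℝ] E | ‖B‖ ≤ R ∧ |B.det| = 1} := by
    intro B hB
    obtain ⟨u, hu⟩ := hun B hB.2
    have := NormedRing.inverse_continuousAt u
    rw [hu] at this
    exact this.continuousWithinAt
  obtain ⟨C, hC⟩ := hK.exists_bound_of_continuousOn hcont
  refine ⟨C, fun A B hAB hdet hB => ?_⟩
  have h1 := hC B ⟨hB, hdet⟩
  have h2 : Ring.inverse B = A := by
    obtain ⟨u, hu⟩ := hun B hdet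
    rw [← hu, Ring.inverse_unit]
    rw [← hu] at hAB
    exact (Units.mul_eq_one_iff_eq_inv.1 hAB).symm
  rwa [h2] at h1

theorem rank1_cl_mul {Γ E : Type} [Group Γ] [NormedAddCommGroup E] [NormedSpace ℝ E]
    [FiniteDimensional ℝ E] (L : Γ →* (E ≃ₗ[ℝ] E)) (g : Γ) :
    cl (L g) * cl (L g⁻¹) = 1 := by
  ext x
  change L g (L g⁻¹ x) = x
  have : (L g * L g⁻¹) x = x := by
    rw [← map_mul, mul_inv_cancel, map_one]
    rfl
  exact this

theorem rank1_det {E : Type} [NormedAddCommGroup E] [NormedSpace ℝ E] [FiniteDimensional ℝ E]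
    (T : E ≃ₗ[ℝ] E) : ((cl T : E →L[ℝ] E) : E →ₗ[ℝ] E) = (T : E →ₗ[ℝ] E) := rfl

/-- normalised maps have norm one -/
theorem rank1_norm {E : Type} [NormedAddCommGroup E] [NormedSpace ℝ E] {A : E} (h : ‖A‖ ≠ 0) :
    ‖(‖A‖)⁻¹ • A‖ = 1 := by
  rw [norm_smul, norm_inv, norm_norm, inv_mul_cancel₀ h]

/-- the normalised subsequences -/
theorem rank1_lim {Γ E : Type} [Group Γ] [NormedAddCommGroup E] [NormedSpace ℝ E]
    [FiniteDimensional ℝ E] (L : Γ →* (E ≃ₗ[ℝ] E))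
    (hdet : ∀ g, |LinearMap.det (L g : E →ₗ[ℝ] E)| = 1) (hub : ∀ R : ℝ, ∃ g, R < ‖cl (L g)‖) :
    ∃ (g : ℕ → Γ) (P Q : E →L[ℝ] E), Tendsto (fun n => ‖cl (L (g n))‖) atTop atTop ∧
      Tendsto (fun n => ‖cl (L (g n)⁻¹)‖) atTop atTop ∧ P ≠ 0 ∧ Q ≠ 0 ∧ P * Q = 0 ∧
      Tendsto (fun n => (‖cl (L (g n))‖)⁻¹ • cl (L (g n))) atTop (𝓝 P) ∧
      Tendsto (fun n => (‖cl (L (g n)⁻¹)‖)⁻¹ • cl (L (g n)⁻¹)) atTop (𝓝 Q) := by
  have : ProperSpace (E →L[ℝ] E) := FiniteDimensional.proper_real (E →L[ℝ] E)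
  choose g hg using fun k : ℕ => hub (k : ℝ)
  have hA : Tendsto (fun n => ‖cl (L (g n))‖) atTop atTop :=
    tendsto_atTop_mono (fun k => (hg k).le) tendsto_natCast_atTop_atTop
  have hB : Tendsto (fun n => ‖cl (L (g n)⁻¹)‖) atTop atTop := by
    rw [tendsto_atTop]
    intro R
    obtain ⟨C, hC⟩ := rank1_inv_bdd (E := E) R
    filter_upwards [hA.eventually_gt_atTop C] with n hn
    by_contra hcon
    push Not at hcon
    have := hC (cl (L (g n))) (cl (L (g n)⁻¹)) (rank1_cl_mul L (g n)) (hdet (g n)⁻¹) hcon.le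
    linarith
  have hbd : Bornology.IsBounded (Metric.closedBall (0 : (E →L[ℝ] E) × (E →L[ℝ] E)) 1) :=
    Metric.isBounded_closedBall
  have hmem : ∀ n, ((‖cl (L (g n))‖)⁻¹ • cl (L (g n)), (‖cl (L (g n)⁻¹)‖)⁻¹ • cl (L (g n)⁻¹)) ∈
      Metric.closedBall (0 : (E →L[ℝ] E) × (E →L[ℝ] E)) 1 := by
    intro n
    rw [Metric.mem_closedBall, dist_zero_right, Prod.norm_mk]
    refine max_le ?_ ?_
    · by_cases h0 : ‖cl (L (g n))‖ = 0
      · rw [h0, inv_zero, zero_smul, norm_zero]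
        exact zero_le_one
      · exact (rank1_norm h0).le
    · by_cases h0 : ‖cl (L (g n)⁻¹)‖ = 0
      · rw [h0, inv_zero, zero_smul, norm_zero]
        exact zero_le_one
      · exact (rank1_norm h0).le
  obtain ⟨⟨P, Q⟩, -, φ, hφ, hlim⟩ := tendsto_subseq_of_bounded hbd hmem
  have hφt := hφ.tendsto_atTop
  have hP : Tendsto (fun n => (‖cl (L (g (φ n)))‖)⁻¹ • cl (L (g (φ n)))) atTop (𝓝 P) :=
    (continuous_fst.tendsto (P, Q)).comp hlim
  have hQ : Tendsto (fun n => (‖cl (L (g (φ n))⁻¹)‖)⁻¹ • cl (L (g (φ n))⁻¹)) atTop (𝓝 Q) :=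
    (continuous_snd.tendsto (P, Q)).comp hlim
  have hA' : Tendsto (fun n => ‖cl (L (g (φ n)))‖) atTop atTop := hA.comp hφt
  have hB' : Tendsto (fun n => ‖cl (L (g (φ n))⁻¹)‖) atTop atTop := hB.comp hφt
  have hnP : ‖P‖ = 1 := by
    refine tendsto_nhds_unique hP.norm (tendsto_const_nhds.congr' ?_)
    filter_upwards [hA'.eventually_gt_atTop 0] with n hn
    exact (rank1_norm hn.ne').symm
  have hnQ : ‖Q‖ = 1 := by
    refine tendsto_nhds_unique hQ.norm (tendsto_const_nhds.congr' ?_)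
    filter_upwards [hB'.eventually_gt_atTop 0] with n hn
    exact (rank1_norm hn.ne').symm
  refine ⟨fun n => g (φ n), P, Q, hA', hB', ?_, ?_, ?_, hP, hQ⟩
  · rintro rfl
    rw [norm_zero] at hnP
    exact zero_ne_one hnP
  · rintro rfl
    rw [norm_zero] at hnQ
    exact zero_ne_one hnQ
  · have h1 : Tendsto (fun n => ((‖cl (L (g (φ n)))‖)⁻¹ • cl (L (g (φ n)))) *
        ((‖cl (L (g (φ n))⁻¹)‖)⁻¹ • cl (L (g (φ n))⁻¹))) atTop (𝓝 (P * Q)) := hP.mul hQ
    have h2 : Tendsto (fun n => ((‖cl (L (g (φ n)))‖)⁻¹ * (‖cl (L (g (φ n))⁻¹)‖)⁻¹) •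
        (1 : E →L[ℝ] E)) atTop (𝓝 ((0 * 0 : ℝ) • (1 : E →L[ℝ] E))) :=
      ((tendsto_inv_atTop_zero.comp hA').mul (tendsto_inv_atTop_zero.comp hB')).smul_const _
    rw [mul_zero, zero_smul] at h2
    refine tendsto_nhds_unique h1 (h2.congr fun n => ?_)
    rw [smul_mul_smul_comm, rank1_cl_mul]

/-- `P Q = 0`: the ranks add up to at most the dimension -/
theorem rank1_add {E : Type} [NormedAddCommGroup E] [NormedSpace ℝ E] [FiniteDimensional ℝ E]
    {P Q : E →L[ℝ] E} (h : P * Q = 0) :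
    finrank ℝ (LinearMap.range (P : E →ₗ[ℝ] E)) + finrank ℝ (LinearMap.range (Q : E →ₗ[ℝ] E)) ≤
      finrank ℝ E := by
  have h1 := LinearMap.finrank_range_add_finrank_ker (P : E →ₗ[ℝ] E)
  have h2 : LinearMap.range (Q : E →ₗ[ℝ] E) ≤ LinearMap.ker (P : E →ₗ[ℝ] E) := by
    rintro _ ⟨x, rfl⟩
    rw [LinearMap.mem_ker]
    have := congrArg (fun T : E →L[ℝ] E => T x) h
    exact this
  have h3 := Submodule.finrank_mono h2
  omega

/-- **S_rank1** -/
theorem t_rank1 : S_rank1 := by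
  intro Γ E _ _ _ _ L hE hdet hub
  obtain ⟨g, P, Q, hA, hB, hP0, hQ0, hPQ, hP, hQ⟩ := rank1_lim L hdet hub
  have hr := rank1_add hPQ
  rw [hE] at hr
  by_cases h1 : finrank ℝ (LinearMap.range (P : E →ₗ[ℝ] E)) ≤ 1
  · obtain ⟨β, a, hβ, ha, e⟩ := rank1_of P hP0 h1
    refine ⟨g, _, _, β, a, Q, hA, hB, hβ, ha, hQ0, ?_, hQ⟩
    rwa [← e]
  · obtain ⟨β, a, hβ, ha, e⟩ := rank1_of Q hQ0 (by omega)
    refine ⟨fun n => (g n)⁻¹, _, _, β, a, P, hB, hA, hβ, ha, hP0, ?_, ?_⟩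
    · rwa [← e]
    · simpa only [inv_inv] using hP

end Pool.Agent.H817.PH
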