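import Pool.Agent.H817.PH.Stm

/-! Non-real eigenvalues have modulus one if a properly convex cone is preserved (helper295; the
normal form of a linear map with a complex eigenvector is adapted from helper553's file). -/

set_option autoImplicit false

namespace Pool.Agent.H817.PH

open Set Filter Topology Module

section normal

variable {E : Type} [NormedAddCommGroup E] [NormedSpace ℝ E]

/-- the real linear map `z ↦ z.re • u - z.im • w` -/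
noncomputable def real_j (u w : E) : ℂ →ₗ[ℝ] E where
  toFun z := z.re • u - z.im • w
  map_add' x y := by
    rw [Complex.add_re, Complex.add_im, add_smul, add_smul]
    abel
  map_smul' c x := by
    rw [Complex.smul_re, Complex.smul_im, RingHom.id_apply, smul_sub, smul_smul, smul_smul]
    rfl

lemma real_j_apply (u w : E) (z : ℂ) : real_j u w z = z.re • u - z.im • w := rfl

lemma real_L_j (L : E →ₗ[ℝ] E) {m : ℂ} {u w : E} (hu : L u = m.re • u - m.im • w)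
    (hw : L w = m.im • u + m.re • w) (z : ℂ) : L (real_j u w z) = real_j u w (m * z) := by
  rw [real_j_apply, real_j_apply, map_sub, map_smul, map_smul, hu, hw, Complex.mul_re,
    Complex.mul_im]
  module

lemma real_j_inj (L : E →ₗ[ℝ] E) {m : ℂ} {u v : E} (him : m.im ≠ 0) (huv : u ≠ 0 ∨ v ≠ 0)
    (hu : L u = m.re • u - m.im • v) (hv : L v = m.im • u + m.re • v) {w : ℂ}
    (hw : real_j u v w = 0) : w = 0 := by
  by_contra hw0
  have h1 : real_j u v (m * w) = 0 := by rw [← real_L_j L hu hv, hw, map_zero]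
  have h2 : ∀ z : ℂ, real_j u v z = 0 := by
    intro z
    have h3 : z = ((z / w).re - (z / w).im / m.im * m.re) • w + ((z / w).im / m.im) • (m * w) := by
      have h4 : z = (z / w) * w := by field_simp
      have h5 : z / w = ((((z / w).re - (z / w).im / m.im * m.re : ℝ)) : ℂ) +
          (((z / w).im / m.im : ℝ) : ℂ) * m := by
        apply Complex.ext
        · simp only [Complex.add_re, Complex.ofReal_re, Complex.mul_re, Complex.ofReal_im]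
          ring
        · simp only [Complex.add_im, Complex.ofReal_im, Complex.mul_im, Complex.ofReal_re]
          field_simp
          ring
      rw [Complex.real_smul, Complex.real_smul]
      conv_lhs => rw [h4, h5]
      ring
    rw [h3, map_add, map_smul, map_smul, hw, h1, smul_zero, smul_zero, add_zero]
  have hu0 : u = 0 := by
    have := h2 1
    rw [real_j_apply] at this
    simpa using this
  have hv0 : v = 0 := by
    have := h2 Complex.I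
    rw [real_j_apply] at this
    simpa using this
  rcases huv with h | h
  · exact h hu0
  · exact h hv0

/-- the map `(a, z) ↦ a e + j z` -/
noncomputable def real_phi (u v e : E) : (ℝ × ℂ) →ₗ[ℝ] E :=
  (LinearMap.toSpanSingleton ℝ E e).coprod (real_j u v)

lemma real_phi_apply (u v e : E) (z : ℝ × ℂ) :
    real_phi u v e z = z.1 • e + real_j u v z.2 := by
  unfold real_phi
  rw [LinearMap.coprod_apply, LinearMap.toSpanSingleton_apply]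

lemma real_phi_inj {u v e : E} (hj : ∀ w, real_j u v w = 0 → w = 0)
    (he : ∀ w, real_j u v w ≠ e) : Function.Injective (real_phi u v e) := by
  rw [injective_iff_map_eq_zero]
  rintro ⟨a, w⟩ h
  rw [real_phi_apply] at h
  have ha : a = 0 := by
    by_contra ha
    apply he ((-a⁻¹) • w)
    rw [map_smul]
    have h1 : real_j u v w = -(a • e) := by
      rw [eq_neg_iff_add_eq_zero, add_comm]
      exact h
    rw [h1, smul_neg, neg_smul, neg_neg, smul_smul, inv_mul_cancel₀ ha, one_smul]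
  subst ha
  have h2 : real_j u v w = 0 := by
    simpa using h
  rw [hj w h2]
  rfl

lemma real_det (l : ℝ) (m : ℂ) : LinearMap.det ((LinearMap.lsmul ℝ ℝ l).prodMap
    (Algebra.lmul ℝ ℂ m) : (ℝ × ℂ) →ₗ[ℝ] (ℝ × ℂ)) = l * ‖m‖ ^ 2 := by
  rw [LinearMap.det_prodMap]
  have h1 : LinearMap.det (Algebra.lmul ℝ ℂ m : ℂ →ₗ[ℝ] ℂ) = ‖m‖ ^ 2 := by
    have h2 : LinearMap.det (Algebra.lmul ℝ ℂ m : ℂ →ₗ[ℝ] ℂ) = Algebra.norm ℝ m := rfl
    rw [h2, Algebra.norm_complex_apply, Complex.normSq_eq_norm_sq]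
  rw [h1]
  congr 1
  rw [LinearMap.det_ring]
  simp

theorem real_normal [FiniteDimensional ℝ E] (hE : finrank ℝ E = 3) (L : E →ₗ[ℝ] E)
    (hdet : |LinearMap.det L| = 1) {m : ℂ} {u v : E} (him : m.im ≠ 0) (huv : u ≠ 0 ∨ v ≠ 0)
    (hLu : L u = m.re • u - m.im • v) (hLv : L v = m.im • u + m.re • v) :
    ∃ (Φ : (ℝ × ℂ) ≃ₗ[ℝ] E) (l : ℝ), |l| * ‖m‖ ^ 2 = 1 ∧
      ∀ a z, L (Φ (a, z)) = Φ (l * a, m * z) := by
  have hj : ∀ w, real_j u v w = 0 → w = 0 := fun w hw => real_j_inj L him huv hLu hLv hw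
  have hLj := real_L_j L hLu hLv
  have hF : Module.finrank ℝ (ℝ × ℂ) = Module.finrank ℝ E := by
    rw [hE, Module.finrank_prod, Module.finrank_self, Complex.finrank_real_complex]
  -- a vector outside of the range
  obtain ⟨e0, he0⟩ : ∃ e0 : E, ∀ w, real_j u v w ≠ e0 := by
    by_contra hcon
    push Not at hcon
    have h1 := LinearMap.finrank_le_finrank_of_surjective (f := real_j u v) hcon
    rw [hE, Complex.finrank_real_complex] at h1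
    omega
  have hinj0 := real_phi_inj hj he0
  have hsurj0 : Function.Surjective (real_phi u v e0) := by
    have := (LinearEquiv.ofInjectiveOfFinrankEq (real_phi u v e0) hinj0 hF).surjective
    exact this
  obtain ⟨⟨l, b⟩, hlb⟩ := hsurj0 (L e0)
  rw [real_phi_apply] at hlb
  have hlm : (l : ℂ) - m ≠ 0 := by
    intro h
    apply him
    have := congrArg Complex.im h
    simpa using this
  obtain ⟨c, hc⟩ : ∃ c : ℂ, c = b / ((l : ℂ) - m) := ⟨_, rfl⟩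
  have hc' : b + m * c = (l : ℂ) * c := by
    rw [hc]
    field_simp
    ring
  obtain ⟨e, he⟩ : ∃ e : E, e = e0 + real_j u v c := ⟨_, rfl⟩
  have hLe : L e = l • e := by
    rw [he, map_add, hLj, ← hlb, smul_add, ← map_smul, add_assoc, ← map_add]
    simp only
    rw [hc', Complex.real_smul]
  have he' : ∀ w, real_j u v w ≠ e := by
    intro w hw
    apply he0 (w - c)
    rw [map_sub, hw, he]
    abel
  have hinj := real_phi_inj hj he'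
  obtain ⟨φ, hφ⟩ : ∃ φ : (ℝ × ℂ) ≃ₗ[ℝ] E, ∀ z, φ z = real_phi u v e z :=
    ⟨LinearEquiv.ofInjectiveOfFinrankEq (real_phi u v e) hinj hF, fun z => rfl⟩
  have hφ' : ∀ z : ℝ × ℂ, φ z = z.1 • e + real_j u v z.2 := fun z => by rw [hφ, real_phi_apply]
  have hLφ : ∀ (a : ℝ) (w : ℂ), L (φ (a, w)) = φ (l * a, m * w) := by
    intro a w
    rw [hφ', hφ', map_add, map_smul, hLe, hLj, smul_smul, mul_comm a l]
  have hdet2 : LinearMap.det L = l * ‖m‖ ^ 2 := by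
    rw [← real_det l m, ← LinearMap.det_conj (((LinearMap.lsmul ℝ ℝ l).prodMap
      (Algebra.lmul ℝ ℂ m) : (ℝ × ℂ) →ₗ[ℝ] (ℝ × ℂ))) φ]
    congr 1
    ext x
    obtain ⟨z, hz⟩ := φ.surjective x
    rw [← hz]
    obtain ⟨a, w⟩ := z
    rw [hLφ, LinearMap.comp_apply, LinearMap.comp_apply]
    simp
  have hl : |l| * ‖m‖ ^ 2 = 1 := by
    rw [hdet2, abs_mul, abs_of_nonneg (sq_nonneg ‖m‖)] at hdet
    exact hdet
  exact ⟨φ, l, hl, hLφ⟩

end normal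

section core

variable {Γ E : Type} [Group Γ] [NormedAddCommGroup E] [NormedSpace ℝ E] [FiniteDimensional ℝ E]

lemma real_cl_apply (T : E ≃ₗ[ℝ] E) (y : E) : cl T y = T y := rfl

omit [FiniteDimensional ℝ E] in
lemma real_det_pow (L : Γ →* (E ≃ₗ[ℝ] E)) (g : Γ) (n : ℕ) :
    LinearMap.det (L (g ^ n) : E →ₗ[ℝ] E) = LinearMap.det (L g : E →ₗ[ℝ] E) ^ n := by
  induction n with
  | zero =>
    rw [pow_zero, pow_zero, map_one]
    exact LinearMap.det_id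
  | succ n ih =>
    rw [pow_succ, pow_succ, ← ih, ← LinearMap.det_comp]
    congr 1
    ext y
    rw [map_mul]
    rfl

theorem real_core (hp : S_pairs) (L : Γ →* (E ≃ₗ[ℝ] E)) (hirr : StrIrr L)
    (hdet : ∀ g, |LinearMap.det (L g : E →ₗ[ℝ] E)| = 1) (φ : E →L[ℝ] ℝ) (v : E) (hφ : φ ≠ 0)
    (hv : v ≠ 0) (C : Set (E →L[ℝ] E)) (Θ : (E →L[ℝ] E) →ₗ[ℝ] ℝ) (c : ℝ)
    (hN : φ.smulRight v ∈ C)
    (hg : ∀ g, ∀ X ∈ C,
      LinearMap.det (L g : E →ₗ[ℝ] E) • ((cl (L g)).comp (X.comp (cl (L g⁻¹)))) ∈ C)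
    (hc : 0 < c) (hΘ : ∀ X ∈ C, c * ‖X‖ ≤ Θ X) (g : Γ) (m : ℂ) (him : m.im ≠ 0) (l : ℝ)
    (Φ : (ℝ × ℂ) ≃ₗ[ℝ] E) (hl : |l| * ‖m‖ ^ 2 = 1)
    (hT : ∀ a z, L g (Φ (a, z)) = Φ (l * a, m * z)) (hm : ‖m‖ < 1) : False := by
  have hm0 : m ≠ 0 := by
    rintro rfl
    exact him rfl
  set q : ℝ := ‖m‖ with hq
  have hq0 : 0 < q := norm_pos_iff.2 hm0
  have hl0 : l ≠ 0 := by
    rintro rfl
    rw [abs_zero, zero_mul] at hl
    exact zero_ne_one hl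
  have hal : |l| = (q ^ 2)⁻¹ := by
    field_simp
    exact hl
  -- the coordinates
  let ε : E →L[ℝ] ℝ := LinearMap.toContinuousLinearMap
    ((LinearMap.fst ℝ ℝ ℂ) ∘ₗ (Φ.symm : E →ₗ[ℝ] ℝ × ℂ))
  let P : E →L[ℝ] ℂ := LinearMap.toContinuousLinearMap
    ((LinearMap.snd ℝ ℝ ℂ) ∘ₗ (Φ.symm : E →ₗ[ℝ] ℝ × ℂ))
  let I : ℝ →L[ℝ] E := LinearMap.toContinuousLinearMap
    ((Φ : (ℝ × ℂ) →ₗ[ℝ] E) ∘ₗ LinearMap.inl ℝ ℝ ℂ)
  let J : ℂ →L[ℝ] E := LinearMap.toContinuousLinearMap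
    ((Φ : (ℝ × ℂ) →ₗ[ℝ] E) ∘ₗ LinearMap.inr ℝ ℝ ℂ)
  have hε : ∀ y, ε y = (Φ.symm y).1 := fun y => rfl
  have hP : ∀ y, P y = (Φ.symm y).2 := fun y => rfl
  have hI : ∀ x, I x = Φ (x, 0) := fun x => rfl
  have hJ : ∀ z, J z = Φ (0, z) := fun z => rfl
  have hΦ : ∀ a z, Φ (a, z) = I a + J z := by
    intro a z
    rw [hI, hJ, ← map_add]
    congr 1
    ext <;> simp
  have hdec : ∀ y, y = Φ (ε y, P y) := by
    intro y
    rw [hε, hP]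
    show y = Φ (Φ.symm y)
    rw [LinearEquiv.apply_symm_apply]
  have hεΦ : ∀ a z, ε (Φ (a, z)) = a := by
    intro a z
    rw [hε, LinearEquiv.symm_apply_apply]
  have hPΦ : ∀ a z, P (Φ (a, z)) = z := by
    intro a z
    rw [hP, LinearEquiv.symm_apply_apply]
  have hLn' : ∀ (n : ℕ) a z, L (g ^ n) (Φ (a, z)) = Φ (l ^ n * a, m ^ n * z) := by
    intro n
    induction n with
    | zero =>
      intro a z
      rw [pow_zero, pow_zero, pow_zero, one_mul, one_mul, map_one]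
      rfl
    | succ n ih =>
      intro a z
      rw [pow_succ, map_mul]
      show L (g ^ n) (L g (Φ (a, z))) = _
      rw [hT, ih]
      congr 2 <;> ring
  have hLi' : ∀ (n : ℕ) a z, L (g ^ n)⁻¹ (Φ (a, z)) = Φ ((l ^ n)⁻¹ * a, (m ^ n)⁻¹ * z) := by
    intro n a z
    have h1 : Φ (a, z) = L (g ^ n) (Φ ((l ^ n)⁻¹ * a, (m ^ n)⁻¹ * z)) := by
      rw [hLn', mul_inv_cancel_left₀ (pow_ne_zero n hl0), mul_inv_cancel_left₀ (pow_ne_zero n hm0)]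
    rw [h1]
    have h2 : ∀ y, L (g ^ n)⁻¹ (L (g ^ n) y) = y := by
      intro y
      have h3 : L ((g ^ n)⁻¹ * g ^ n) y = L (g ^ n)⁻¹ (L (g ^ n) y) := by
        rw [map_mul]
        rfl
      rw [← h3, inv_mul_cancel, map_one]
      rfl
    rw [h2]
  -- the starting point
  obtain ⟨h, hh1, hh2⟩ := hp L hirr 1 1 (fun _ => (ε : E →ₗ[ℝ] ℝ)) (fun _ => v)
    (fun _ => (φ : E →ₗ[ℝ] ℝ)) (fun _ => J 1)
    (fun _ h0 => by
      have h1 : (ε : E →ₗ[ℝ] ℝ) (Φ (1, 0)) = 1 := hεΦ 1 0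
      rw [h0, LinearMap.zero_apply] at h1
      exact zero_ne_one h1)
    (fun _ => hv)
    (fun _ h0 => hφ (by
      ext y
      have h1 := LinearMap.congr_fun h0 y
      exact h1))
    (fun _ h0 => by
      have h1 : P (J 1) = 1 := by rw [hJ, hPΦ]
      rw [h0, map_zero] at h1
      exact zero_ne_one h1)
  have hh1' : ε (L h v) ≠ 0 := hh1 0
  have hh2' : φ (L h⁻¹ (J 1)) ≠ 0 := hh2 0
  obtain ⟨X₀, hX₀⟩ : ∃ X₀ : E →L[ℝ] E, X₀ = LinearMap.det (L h : E →ₗ[ℝ] E) •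
    ((cl (L h)).comp ((φ.smulRight v).comp (cl (L h⁻¹)))) := ⟨_, rfl⟩
  have hX₀C : X₀ ∈ C := by
    rw [hX₀]
    exact hg h _ hN
  have hX₀J : ε (X₀ (J 1)) ≠ 0 := by
    have h1 : X₀ (J 1) = LinearMap.det (L h : E →ₗ[ℝ] E) • (φ (L h⁻¹ (J 1)) • L h v) := by
      rw [hX₀]
      show LinearMap.det (L h : E →ₗ[ℝ] E) • (L h (φ (L h⁻¹ (J 1)) • v)) = _
      rw [map_smul]
    rw [h1, map_smul, map_smul, smul_eq_mul, smul_eq_mul]
    have h2 : LinearMap.det (L h : E →ₗ[ℝ] E) ≠ 0 := by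
      intro h3
      have h4 := hdet h
      rw [h3, abs_zero] at h4
      exact zero_ne_one h4
    exact mul_ne_zero h2 (mul_ne_zero hh2' hh1')
  set d : ℝ := LinearMap.det (L g : E →ₗ[ℝ] E) with hd
  have hd1 : |d| = 1 := hdet g
  let X : ℕ → (E →L[ℝ] E) := fun n => LinearMap.det (L (g ^ n) : E →ₗ[ℝ] E) •
    ((cl (L (g ^ n))).comp (X₀.comp (cl (L (g ^ n)⁻¹))))
  have hXC : ∀ n, X n ∈ C := fun n => hg (g ^ n) X₀ hX₀C
  have hXa : ∀ n y, X n y = d ^ n • L (g ^ n) (X₀ (L (g ^ n)⁻¹ y)) := by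
    intro n y
    show (LinearMap.det (L (g ^ n) : E →ₗ[ℝ] E) •
      ((cl (L (g ^ n))).comp (X₀.comp (cl (L (g ^ n)⁻¹))))) y = _
    rw [real_det_pow]
    rfl
  have hXf : ∀ n a z, X n (Φ (a, z)) = d ^ n • (I (l ^ n * ε (X₀ (I ((l ^ n)⁻¹ * a)))) +
      I (l ^ n * ε (X₀ (J ((m ^ n)⁻¹ * z)))) + J (m ^ n * P (X₀ (I ((l ^ n)⁻¹ * a)))) +
      J (m ^ n * P (X₀ (J ((m ^ n)⁻¹ * z))))) := by
    intro n a z
    rw [hXa, hLi']
    congr 1
    set y' := Φ ((l ^ n)⁻¹ * a, (m ^ n)⁻¹ * z) with hy'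
    have h1 : y' = I ((l ^ n)⁻¹ * a) + J ((m ^ n)⁻¹ * z) := by rw [hy', hΦ]
    conv_lhs => rw [hdec (X₀ y')]
    rw [hLn', hΦ, h1, map_add, map_add, map_add, mul_add, mul_add, map_add, map_add]
    abel
  -- the main term
  let A : ℂ →L[ℝ] ℝ := ε.comp (X₀.comp J)
  let Main : ℂ →+ (E →L[ℝ] E) := AddMonoidHom.mk'
    (fun z => I.comp (A.comp ((ContinuousLinearMap.mul ℝ ℂ z).comp P)))
    (fun z z' => by
      ext y
      show I (A ((z + z') * P y)) = I (A (z * P y)) + I (A (z' * P y))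
      rw [add_mul, map_add, map_add])
  have hMain : ∀ z y, Main z y = I (ε (X₀ (J (z * P y)))) := fun z y => rfl
  obtain ⟨K2, hK2⟩ : ∃ K2 : ℝ, ∀ z, ‖Main z‖ ≤ K2 * ‖z‖ := by
    refine ⟨‖I‖ * (‖A‖ * ‖P‖), fun z => ?_⟩
    have h1 : ‖Main z‖ ≤ ‖I‖ * ‖A.comp ((ContinuousLinearMap.mul ℝ ℂ z).comp P)‖ :=
      ContinuousLinearMap.opNorm_comp_le _ _
    have h2 : ‖A.comp ((ContinuousLinearMap.mul ℝ ℂ z).comp P)‖ ≤
        ‖A‖ * ‖(ContinuousLinearMap.mul ℝ ℂ z).comp P‖ := ContinuousLinearMap.opNorm_comp_le _ _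
    have h3 : ‖(ContinuousLinearMap.mul ℝ ℂ z).comp P‖ ≤
        ‖ContinuousLinearMap.mul ℝ ℂ z‖ * ‖P‖ := ContinuousLinearMap.opNorm_comp_le _ _
    have h4 : ‖ContinuousLinearMap.mul ℝ ℂ z‖ ≤ ‖z‖ :=
      ContinuousLinearMap.opNorm_mul_apply_le ℝ ℂ z
    calc ‖Main z‖ ≤ ‖I‖ * ‖A.comp ((ContinuousLinearMap.mul ℝ ℂ z).comp P)‖ := h1
      _ ≤ ‖I‖ * (‖A‖ * ‖(ContinuousLinearMap.mul ℝ ℂ z).comp P‖) :=
          mul_le_mul_of_nonneg_left h2 (norm_nonneg _)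
      _ ≤ ‖I‖ * (‖A‖ * (‖ContinuousLinearMap.mul ℝ ℂ z‖ * ‖P‖)) :=
          mul_le_mul_of_nonneg_left (mul_le_mul_of_nonneg_left h3 (norm_nonneg _)) (norm_nonneg _)
      _ ≤ ‖I‖ * (‖A‖ * (‖z‖ * ‖P‖)) :=
          mul_le_mul_of_nonneg_left (mul_le_mul_of_nonneg_left
            (mul_le_mul_of_nonneg_right h4 (norm_nonneg _)) (norm_nonneg _)) (norm_nonneg _)
      _ = _ := by ring
  -- the rotation
  let ζ : ℂ := ((q ^ 3 * d * l : ℝ) : ℂ) * m⁻¹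
  have hζn : ‖ζ‖ = 1 := by
    show ‖((q ^ 3 * d * l : ℝ) : ℂ) * m⁻¹‖ = 1
    rw [norm_mul, norm_inv, Complex.norm_real, Real.norm_eq_abs, abs_mul, abs_mul, hd1, hal,
      abs_of_pos (pow_pos hq0 3), ← hq]
    field_simp
  have hζ1 : ζ ≠ 1 := by
    intro h1
    have h2 : ((q ^ 3 * d * l : ℝ) : ℂ) = m := by
      have h3 : ((q ^ 3 * d * l : ℝ) : ℂ) * m⁻¹ = 1 := h1
      field_simp at h3
      rw [h3]
    apply him
    rw [← h2, Complex.ofReal_im]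
  have hζp : ∀ n z, (q ^ (3 * n) * d ^ n * l ^ n) * ε (X₀ (J ((m ^ n)⁻¹ * z))) =
      ε (X₀ (J (ζ ^ n * z))) := by
    intro n z
    have h1 : ζ ^ n * z = (q ^ (3 * n) * d ^ n * l ^ n) • ((m ^ n)⁻¹ * z) := by
      rw [Complex.real_smul]
      show (((q ^ 3 * d * l : ℝ) : ℂ) * m⁻¹) ^ n * z = _
      rw [mul_pow, inv_pow, pow_mul]
      push_cast
      ring
    rw [h1, map_smul, map_smul, map_smul, smul_eq_mul]
  have hgeo : ∀ N : ℕ, ‖∑ n ∈ Finset.range N, ζ ^ n‖ ≤ 2 / ‖ζ - 1‖ := by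
    intro N
    rw [geom_sum_eq hζ1, norm_div]
    refine div_le_div_of_nonneg_right ?_ (norm_nonneg _)
    calc ‖ζ ^ N - 1‖ ≤ ‖ζ ^ N‖ + ‖(1 : ℂ)‖ := norm_sub_le _ _
      _ = 2 := by rw [norm_pow, hζn, one_pow, norm_one]; norm_num
  -- the error term
  have hqn : ∀ n : ℕ, 0 < q ^ n := fun n => pow_pos hq0 n
  obtain ⟨K1, hK10, hK1⟩ : ∃ K1 : ℝ, 0 ≤ K1 ∧
      ∀ n, ‖q ^ (3 * n) • X n - Main (ζ ^ n)‖ ≤ K1 * (q ^ 3) ^ n := by
    refine ⟨‖I‖ * (‖ε‖ * (‖X₀‖ * (‖I‖ * ‖ε‖))) + ‖J‖ * (‖P‖ * (‖X₀‖ * (‖I‖ * ‖ε‖))) +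
      ‖J‖ * (‖P‖ * (‖X₀‖ * (‖J‖ * ‖P‖))), by positivity, fun n => ?_⟩
    refine ContinuousLinearMap.opNorm_le_bound _ (by positivity) fun y => ?_
    have hln : |l ^ n| = (q ^ (2 * n))⁻¹ := by
      rw [abs_pow, hal, inv_pow, ← pow_mul]
    have hlni : |(l ^ n)⁻¹| = q ^ (2 * n) := by
      rw [abs_inv, hln, inv_inv]
    have hmn : ‖m ^ n‖ = q ^ n := by rw [norm_pow]
    have hmni : ‖(m ^ n)⁻¹‖ = (q ^ n)⁻¹ := by rw [norm_inv, hmn]
    have hdn : |d ^ n| = 1 := by rw [abs_pow, hd1, one_pow]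
    have e1 : (q ^ (3 * n) • X n - Main (ζ ^ n)) y =
        (q ^ (3 * n) * d ^ n) • (I (l ^ n * ε (X₀ (I ((l ^ n)⁻¹ * ε y)))) +
          J (m ^ n * P (X₀ (I ((l ^ n)⁻¹ * ε y)))) +
          J (m ^ n * P (X₀ (J ((m ^ n)⁻¹ * P y))))) := by
      have h1 : (q ^ (3 * n) • X n - Main (ζ ^ n)) y =
          q ^ (3 * n) • X n y - Main (ζ ^ n) y := rfl
      have h2 : X n y = X n (Φ (ε y, P y)) := by rw [← hdec y]
      have h3 : Main (ζ ^ n) y = (q ^ (3 * n) * d ^ n) •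
          I (l ^ n * ε (X₀ (J ((m ^ n)⁻¹ * P y)))) := by
        rw [hMain, ← hζp, ← map_smul, smul_eq_mul]
        congr 1
        ring
      rw [h1, h2, hXf, h3, smul_smul, smul_add, smul_add, smul_add, smul_add, smul_add]
      abel
    have b0 : ‖ε y‖ ≤ ‖ε‖ * ‖y‖ := ε.le_opNorm y
    have b1 : ‖(l ^ n)⁻¹ * ε y‖ ≤ q ^ (2 * n) * (‖ε‖ * ‖y‖) := by
      rw [norm_mul, Real.norm_eq_abs, hlni]
      exact mul_le_mul_of_nonneg_left b0 (hqn _).le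
    have b2 := X₀.le_opNorm_of_le (I.le_opNorm_of_le b1)
    have c0 : ‖P y‖ ≤ ‖P‖ * ‖y‖ := P.le_opNorm y
    have c1 : ‖(m ^ n)⁻¹ * P y‖ ≤ (q ^ n)⁻¹ * (‖P‖ * ‖y‖) := by
      rw [norm_mul, hmni]
      exact mul_le_mul_of_nonneg_left c0 (inv_nonneg.2 (hqn _).le)
    have c2 := X₀.le_opNorm_of_le (J.le_opNorm_of_le c1)
    have t1 : ‖I (l ^ n * ε (X₀ (I ((l ^ n)⁻¹ * ε y))))‖ ≤
        ‖I‖ * (‖ε‖ * (‖X₀‖ * (‖I‖ * ‖ε‖))) * ‖y‖ := by
      have h1 : ‖l ^ n * ε (X₀ (I ((l ^ n)⁻¹ * ε y)))‖ ≤ (q ^ (2 * n))⁻¹ *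
          (‖ε‖ * (‖X₀‖ * (‖I‖ * (q ^ (2 * n) * (‖ε‖ * ‖y‖))))) := by
        rw [norm_mul, Real.norm_eq_abs, hln]
        exact mul_le_mul_of_nonneg_left (ε.le_opNorm_of_le b2) (inv_nonneg.2 (hqn _).le)
      refine (I.le_opNorm_of_le h1).trans (le_of_eq ?_)
      have h2 := (hqn (2 * n)).ne'
      field_simp
    have t3 : ‖J (m ^ n * P (X₀ (I ((l ^ n)⁻¹ * ε y))))‖ ≤
        ‖J‖ * (‖P‖ * (‖X₀‖ * (‖I‖ * ‖ε‖))) * ‖y‖ := by
      have h1 : ‖m ^ n * P (X₀ (I ((l ^ n)⁻¹ * ε y)))‖ ≤ q ^ n *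
          (‖P‖ * (‖X₀‖ * (‖I‖ * (q ^ (2 * n) * (‖ε‖ * ‖y‖))))) := by
        rw [norm_mul, hmn]
        exact mul_le_mul_of_nonneg_left (P.le_opNorm_of_le b2) (hqn _).le
      have h2 : q ^ n * (‖P‖ * (‖X₀‖ * (‖I‖ * (q ^ (2 * n) * (‖ε‖ * ‖y‖))))) ≤
          ‖P‖ * (‖X₀‖ * (‖I‖ * (‖ε‖ * ‖y‖))) := by
        have h3 : q ^ n * q ^ (2 * n) ≤ 1 := by
          rw [← pow_add]
          exact pow_le_one₀ hq0.le hm.le
        have h4 : 0 ≤ ‖P‖ * (‖X₀‖ * (‖I‖ * (‖ε‖ * ‖y‖))) := by positivity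
        calc _ = (q ^ n * q ^ (2 * n)) * (‖P‖ * (‖X₀‖ * (‖I‖ * (‖ε‖ * ‖y‖)))) := by ring
          _ ≤ 1 * (‖P‖ * (‖X₀‖ * (‖I‖ * (‖ε‖ * ‖y‖)))) := mul_le_mul_of_nonneg_right h3 h4
          _ = _ := one_mul _
      refine (J.le_opNorm_of_le (h1.trans h2)).trans (le_of_eq ?_)
      ring
    have t4 : ‖J (m ^ n * P (X₀ (J ((m ^ n)⁻¹ * P y))))‖ ≤
        ‖J‖ * (‖P‖ * (‖X₀‖ * (‖J‖ * ‖P‖))) * ‖y‖ := by
      have h1 : ‖m ^ n * P (X₀ (J ((m ^ n)⁻¹ * P y)))‖ ≤ q ^ n *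
          (‖P‖ * (‖X₀‖ * (‖J‖ * ((q ^ n)⁻¹ * (‖P‖ * ‖y‖))))) := by
        rw [norm_mul, hmn]
        exact mul_le_mul_of_nonneg_left (P.le_opNorm_of_le c2) (hqn _).le
      refine (J.le_opNorm_of_le h1).trans (le_of_eq ?_)
      have h2 := (hqn n).ne'
      field_simp
    rw [e1, norm_smul, Real.norm_eq_abs, abs_mul, hdn, mul_one, abs_of_pos (hqn _), pow_mul]
    have h5 : ‖I (l ^ n * ε (X₀ (I ((l ^ n)⁻¹ * ε y)))) +
          J (m ^ n * P (X₀ (I ((l ^ n)⁻¹ * ε y)))) +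
          J (m ^ n * P (X₀ (J ((m ^ n)⁻¹ * P y))))‖ ≤
        (‖I‖ * (‖ε‖ * (‖X₀‖ * (‖I‖ * ‖ε‖))) + ‖J‖ * (‖P‖ * (‖X₀‖ * (‖I‖ * ‖ε‖))) +
      ‖J‖ * (‖P‖ * (‖X₀‖ * (‖J‖ * ‖P‖)))) * ‖y‖ := by
      refine (norm_add₃_le).trans ?_
      linarith [t1, t3, t4]
    calc _ ≤ (q ^ 3) ^ n * _ := mul_le_mul_of_nonneg_left h5 (by positivity)
      _ = _ := by ring
  -- lower bound
  have hlow : ∀ n, ‖ε (X₀ (J 1))‖ ≤ ‖ε‖ * ‖J‖ * (q ^ (3 * n) * ‖X n‖) := by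
    intro n
    have h1 : X n (Φ (0, m ^ n)) = d ^ n • (I (l ^ n * ε (X₀ (J 1))) +
        J (m ^ n * P (X₀ (J 1)))) := by
      rw [hXf, mul_zero, map_zero, map_zero, map_zero, map_zero, mul_zero, mul_zero, map_zero,
        map_zero, inv_mul_cancel₀ (pow_ne_zero n hm0), zero_add, add_zero]
    have h2 : ε (X n (Φ (0, m ^ n))) = d ^ n * (l ^ n * ε (X₀ (J 1))) := by
      rw [h1, map_smul, ← hΦ, hεΦ, smul_eq_mul]
    have h3 : ‖ε (X n (Φ (0, m ^ n)))‖ ≤ ‖ε‖ * (‖X n‖ * (‖J‖ * q ^ n)) := by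
      refine ε.le_opNorm_of_le ((X n).le_opNorm_of_le ?_)
      rw [← hJ]
      refine (J.le_opNorm _).trans (le_of_eq ?_)
      rw [norm_pow]
    rw [h2, norm_mul, norm_mul, Real.norm_eq_abs, Real.norm_eq_abs, abs_pow, hd1, one_pow, one_mul,
      abs_pow, hal, inv_pow, ← pow_mul] at h3
    have h4 : ‖ε (X₀ (J 1))‖ = q ^ (2 * n) * ((q ^ (2 * n))⁻¹ * ‖ε (X₀ (J 1))‖) := by
      rw [mul_inv_cancel_left₀ (hqn _).ne']
    rw [h4]
    calc q ^ (2 * n) * ((q ^ (2 * n))⁻¹ * ‖ε (X₀ (J 1))‖)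
        ≤ q ^ (2 * n) * (‖ε‖ * (‖X n‖ * (‖J‖ * q ^ n))) := mul_le_mul_of_nonneg_left h3 (hqn _).le
      _ = ‖ε‖ * ‖J‖ * ((q ^ (2 * n) * q ^ n) * ‖X n‖) := by ring
      _ = _ := by rw [← pow_add]; congr 3; ring
  have hlow2 : ∀ n, c * ‖ε (X₀ (J 1))‖ ≤ ‖ε‖ * ‖J‖ * Θ (q ^ (3 * n) • X n) := by
    intro n
    have h1 := hΘ (X n) (hXC n)
    have h2 : c * (q ^ (3 * n) * ‖X n‖) ≤ Θ (q ^ (3 * n) • X n) := by
      rw [map_smul, smul_eq_mul]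
      calc c * (q ^ (3 * n) * ‖X n‖) = q ^ (3 * n) * (c * ‖X n‖) := by ring
        _ ≤ _ := mul_le_mul_of_nonneg_left h1 (hqn _).le
    calc c * ‖ε (X₀ (J 1))‖ ≤ c * (‖ε‖ * ‖J‖ * (q ^ (3 * n) * ‖X n‖)) :=
          mul_le_mul_of_nonneg_left (hlow n) hc.le
      _ = ‖ε‖ * ‖J‖ * (c * (q ^ (3 * n) * ‖X n‖)) := by ring
      _ ≤ _ := mul_le_mul_of_nonneg_left h2 (by positivity)
  -- the functional is continuous
  let Θc : (E →L[ℝ] E) →L[ℝ] ℝ := LinearMap.toContinuousLinearMap Θ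
  have hΘc : ∀ Z, Θ Z ≤ ‖Θc‖ * ‖Z‖ := by
    intro Z
    have h1 : ‖Θc Z‖ ≤ ‖Θc‖ * ‖Z‖ := Θc.le_opNorm Z
    exact (le_abs_self _).trans h1
  have hΘ0 : 0 ≤ ‖Θc‖ := norm_nonneg Θc
  have hK20 : 0 ≤ K2 := by
    have h1 := hK2 1
    rw [norm_one, mul_one] at h1
    exact (norm_nonneg _).trans h1
  have hupp : ∀ N : ℕ, ∑ n ∈ Finset.range N, Θ (q ^ (3 * n) • X n) ≤
      ‖Θc‖ * (K2 * (2 / ‖ζ - 1‖)) + ‖Θc‖ * (K1 * (1 - q ^ 3)⁻¹) := by
    intro N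
    have h1 : ∀ n, Θ (q ^ (3 * n) • X n) = Θ (Main (ζ ^ n)) +
        Θ (q ^ (3 * n) • X n - Main (ζ ^ n)) := by
      intro n
      rw [← map_add]
      congr 1
      abel
    rw [Finset.sum_congr rfl fun n _ => h1 n, Finset.sum_add_distrib]
    refine add_le_add ?_ ?_
    · rw [← map_sum, ← map_sum]
      refine (hΘc _).trans (mul_le_mul_of_nonneg_left ?_ hΘ0)
      exact (hK2 _).trans (mul_le_mul_of_nonneg_left (hgeo N) hK20)
    · have h2 : ∀ n, Θ (q ^ (3 * n) • X n - Main (ζ ^ n)) ≤ ‖Θc‖ * (K1 * (q ^ 3) ^ n) := fun n =>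
        (hΘc _).trans (mul_le_mul_of_nonneg_left (hK1 n) hΘ0)
      refine (Finset.sum_le_sum fun n _ => h2 n).trans ?_
      rw [← Finset.mul_sum, ← Finset.mul_sum]
      refine mul_le_mul_of_nonneg_left (mul_le_mul_of_nonneg_left ?_ hK10) hΘ0
      have hq3 : q ^ 3 < 1 := pow_lt_one₀ hq0.le hm (by norm_num)
      have h3 : (0 : ℝ) ≤ q ^ 3 := by positivity
      exact (summable_geometric_of_lt_one h3 hq3).sum_le_tsum _ (fun n _ => by positivity) |>.trans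
        (le_of_eq (tsum_geometric_of_lt_one h3 hq3))
  -- the contradiction
  set B : ℝ := ‖ε‖ * ‖J‖ * (‖Θc‖ * (K2 * (2 / ‖ζ - 1‖)) + ‖Θc‖ * (K1 * (1 - q ^ 3)⁻¹)) with hB
  have hfin : ∀ N : ℕ, (N : ℝ) * (c * ‖ε (X₀ (J 1))‖) ≤ B := by
    intro N
    have h1 : (N : ℝ) * (c * ‖ε (X₀ (J 1))‖) ≤
        ∑ n ∈ Finset.range N, ‖ε‖ * ‖J‖ * Θ (q ^ (3 * n) • X n) := by
      have h2 := Finset.card_nsmul_le_sum (Finset.range N)
        (fun n => ‖ε‖ * ‖J‖ * Θ (q ^ (3 * n) • X n)) (c * ‖ε (X₀ (J 1))‖) (fun n _ => hlow2 n)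
      rw [Finset.card_range, nsmul_eq_mul] at h2
      exact h2
    refine h1.trans ?_
    rw [← Finset.mul_sum]
    exact mul_le_mul_of_nonneg_left (hupp N) (by positivity)
  have hpos : 0 < c * ‖ε (X₀ (J 1))‖ := mul_pos hc (norm_pos_iff.2 hX₀J)
  obtain ⟨N, hNN⟩ := exists_nat_gt (B / (c * ‖ε (X₀ (J 1))‖))
  rw [div_lt_iff₀ hpos] at hNN
  exact absurd (hfin N) (not_le.2 hNN)

end core

/-- **NON-REAL EIGENVALUES.** -/
theorem t_real (h : S_pairs) : S_real := by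
  intro Γ E _ _ _ _ L hE hirr hdet φ v hφ hv C Θ c _ _ hN hg hc hΘ g m u w him huw hu hw
  obtain ⟨Φ, l, hl, hT⟩ := real_normal hE (L g : E →ₗ[ℝ] E) (hdet g) him huw hu hw
  have hT' : ∀ a z, L g (Φ (a, z)) = Φ (l * a, m * z) := hT
  by_contra hne
  rcases lt_or_gt_of_ne hne with hlt | hgt
  · exact real_core h L hirr hdet φ v hφ hv C Θ c hN hg hc hΘ g m him l Φ hl hT' hlt
  · have hm0 : m ≠ 0 := by
      rintro rfl
      exact him rfl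
    have hmn : ‖m‖ ≠ 0 := norm_ne_zero_iff.2 hm0
    have hl0 : l ≠ 0 := by
      rintro rfl
      rw [abs_zero, zero_mul] at hl
      exact zero_ne_one hl
    refine real_core h L hirr hdet φ v hφ hv C Θ c hN hg hc hΘ g⁻¹ m⁻¹ ?_ l⁻¹ Φ ?_ ?_ ?_
    · rw [Complex.inv_im]
      exact div_ne_zero (neg_ne_zero.2 him) (fun h0 => hm0 (Complex.normSq_eq_zero.1 h0))
    · rw [abs_inv, norm_inv, inv_pow, ← mul_inv, hl, inv_one]
    · intro a z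
      have h1 : Φ (a, z) = L g (Φ (l⁻¹ * a, m⁻¹ * z)) := by
        rw [hT', mul_inv_cancel_left₀ hl0, mul_inv_cancel_left₀ hm0]
      rw [h1]
      have h3 : L (g⁻¹ * g) (Φ (l⁻¹ * a, m⁻¹ * z)) = L g⁻¹ (L g (Φ (l⁻¹ * a, m⁻¹ * z))) := by
        rw [map_mul]
        rfl
      rw [← h3, inv_mul_cancel, map_one]
      rfl
    · rw [norm_inv]
      exact inv_lt_one_of_one_lt₀ hgt

end Pool.Agent.H817.PH
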