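import Pool.Agent.H817.PH.Stm

/-!
Regular elements from the traces.
-/

set_option autoImplicit false

namespace Pool.Agent.H817.PH

open Set Filter Topology Module

theorem reg_mat (A B : Matrix (Fin 3) (Fin 3) ℝ) (h : A * B = 1) (x : ℝ) :
    (x • (1 : Matrix (Fin 3) (Fin 3) ℝ) - A).det =
      x ^ 3 - A.trace * x ^ 2 + A.det * B.trace * x - A.det := by
  have h1 : A.adjugate = A.det • B := by
    calc A.adjugate = A.adjugate * (A * B) := by rw [h, mul_one]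
      _ = _ := by rw [← mul_assoc, Matrix.adjugate_mul, Matrix.smul_mul, one_mul]
  have h2 : A.det * B.trace = A.adjugate.trace := by
    rw [h1, Matrix.trace_smul, smul_eq_mul]
  rw [h2, Matrix.adjugate_fin_three, Matrix.det_fin_three, Matrix.det_fin_three,
    Matrix.trace_fin_three, Matrix.trace_fin_three]
  simp [Matrix.one_apply]
  ring

theorem reg_det {E : Type} [AddCommGroup E] [Module ℝ E] [FiniteDimensional ℝ E]
    (hE : finrank ℝ E = 3) (T : E ≃ₗ[ℝ] E) (x : ℝ) :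
    LinearMap.det (x • (LinearMap.id : E →ₗ[ℝ] E) - (T : E →ₗ[ℝ] E)) =
      x ^ 3 - LinearMap.trace ℝ E (T : E →ₗ[ℝ] E) * x ^ 2 +
        LinearMap.det (T : E →ₗ[ℝ] E) * LinearMap.trace ℝ E ((T⁻¹ : E ≃ₗ[ℝ] E) : E →ₗ[ℝ] E) * x -
        LinearMap.det (T : E →ₗ[ℝ] E) := by
  have b : Basis (Fin 3) ℝ E := finBasisOfFinrankEq ℝ E hE
  have h : LinearMap.toMatrix b b (T : E →ₗ[ℝ] E) *
      LinearMap.toMatrix b b ((T⁻¹ : E ≃ₗ[ℝ] E) : E →ₗ[ℝ] E) = 1 := by
    rw [← LinearMap.toMatrix_comp b b b, ← LinearMap.toMatrix_id b]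
    congr 1
    ext v
    change T (T.symm v) = v
    exact T.apply_symm_apply v
  have e1 := LinearMap.det_toMatrix b (x • (LinearMap.id : E →ₗ[ℝ] E) - (T : E →ₗ[ℝ] E))
  have e2 := LinearMap.det_toMatrix b (T : E →ₗ[ℝ] E)
  rw [← e1, ← e2, LinearMap.trace_eq_matrix_trace ℝ b, LinearMap.trace_eq_matrix_trace ℝ b,
    map_sub, map_smul, LinearMap.toMatrix_id]
  exact reg_mat _ _ h x

theorem reg_vec {E : Type} [AddCommGroup E] [Module ℝ E] [FiniteDimensional ℝ E]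
    (T : E ≃ₗ[ℝ] E) (x : ℝ)
    (h : LinearMap.det (x • (LinearMap.id : E →ₗ[ℝ] E) - (T : E →ₗ[ℝ] E)) = 0) :
    ∃ v : E, v ≠ 0 ∧ T v = x • v := by
  have h1 := LinearMap.bot_lt_ker_of_det_eq_zero h
  obtain ⟨v, hv, hv0⟩ := Submodule.exists_mem_ne_zero_of_ne_bot h1.ne'
  refine ⟨v, hv0, ?_⟩
  rw [LinearMap.mem_ker] at hv
  have h2 : x • v - T v = 0 := hv
  exact (sub_eq_zero.1 h2).symm

theorem reg_trace {E : Type} [NormedAddCommGroup E] [NormedSpace ℝ E] [FiniteDimensional ℝ E]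
    (T : ℕ → (E ≃ₗ[ℝ] E)) (c : ℕ → ℝ) (P : E →L[ℝ] E)
    (h : Tendsto (fun n => (c n)⁻¹ • cl (T n)) atTop (𝓝 P)) :
    Tendsto (fun n => LinearMap.trace ℝ E (T n : E →ₗ[ℝ] E) / c n) atTop
      (𝓝 (LinearMap.trace ℝ E (P : E →ₗ[ℝ] E))) := by
  let tr : (E →L[ℝ] E) →ₗ[ℝ] ℝ := (LinearMap.trace ℝ E).comp (ContinuousLinearMap.coeLM ℝ)
  have htr : Continuous tr := LinearMap.continuous_of_finiteDimensional tr
  have h1 := (htr.tendsto P).comp h
  refine Tendsto.congr (fun n => ?_) h1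
  change tr ((c n)⁻¹ • cl (T n)) = _
  rw [map_smul, smul_eq_mul, div_eq_inv_mul]
  rfl

/-- REGULAR ELEMENTS. -/
theorem t_reg (h : S_cubic) : S_reg := by
  intro E _ _ _ hE T c P Q hdet hc hP hQ hT hT' ε hε
  have h1 := h c (fun n => LinearMap.trace ℝ E (T n : E →ₗ[ℝ] E))
    (fun n => LinearMap.trace ℝ E (((T n)⁻¹ : E ≃ₗ[ℝ] E) : E →ₗ[ℝ] E))
    (fun n => LinearMap.det (T n : E →ₗ[ℝ] E))
    (LinearMap.trace ℝ E (P : E →ₗ[ℝ] E)) (LinearMap.trace ℝ E (Q : E →ₗ[ℝ] E)) hc hP hQ hdet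
    (reg_trace T c P hT) (reg_trace (fun n => (T n)⁻¹) c Q hT') ε hε
  filter_upwards [h1] with n hn
  obtain ⟨x0, x1, x2, h10, h21, h2, hε', hpol⟩ := hn
  obtain ⟨l, hl⟩ : ∃ l : Fin 3 → ℝ, l = ![x0, x1, x2] := ⟨_, rfl⟩
  have l0 : l 0 = x0 := by rw [hl]; rfl
  have l1 : l 1 = x1 := by rw [hl]; rfl
  have l2 : l 2 = x2 := by rw [hl]; rfl
  have hroot : ∀ i, LinearMap.det (l i • (LinearMap.id : E →ₗ[ℝ] E) - (T n : E →ₗ[ℝ] E)) = 0 := by
    intro i
    rw [reg_det hE, hpol]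
    fin_cases i
    · change (l 0 - x0) * (l 0 - x1) * (l 0 - x2) = 0
      rw [l0]
      ring
    · change (l 1 - x0) * (l 1 - x1) * (l 1 - x2) = 0
      rw [l1]
      ring
    · change (l 2 - x0) * (l 2 - x1) * (l 2 - x2) = 0
      rw [l2]
      ring
  have hv : ∀ i, ∃ v : E, v ≠ 0 ∧ T n v = l i • v := fun i => reg_vec (T n) (l i) (hroot i)
  choose v hv0 hv1 using hv
  have n01 : l 0 ≠ l 1 := by
    intro hh
    rw [l0, l1] at hh
    rw [hh] at h10
    exact lt_irrefl _ h10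
  have n12 : l 1 ≠ l 2 := by
    intro hh
    rw [l1, l2] at hh
    rw [hh] at h21
    exact lt_irrefl _ h21
  have n02 : l 0 ≠ l 2 := by
    intro hh
    rw [l0, l2] at hh
    rw [hh] at h10
    exact lt_irrefl _ (h10.trans h21)
  have hinj : Function.Injective l := by
    intro i j hij
    fin_cases i <;> fin_cases j
    · rfl
    · exact absurd hij n01
    · exact absurd hij n02
    · exact absurd hij.symm n01
    · rfl
    · exact absurd hij n12
    · exact absurd hij.symm n02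
    · exact absurd hij.symm n12
    · rfl
  have hli : LinearIndependent ℝ v := by
    refine Module.End.eigenvectors_linearIndependent' (T n : E →ₗ[ℝ] E) l hinj v (fun i => ?_)
    rw [Module.End.hasEigenvector_iff, Module.End.mem_eigenspace_iff]
    exact ⟨hv1 i, hv0 i⟩
  have hcard : Fintype.card (Fin 3) = finrank ℝ E := by rw [hE, Fintype.card_fin]
  refine ⟨basisOfLinearIndependentOfCardEqFinrank hli hcard, l, ⟨?_, ?_, ?_, ?_⟩, ?_⟩
  · intro i
    rw [coe_basisOfLinearIndependentOfCardEqFinrank]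
    exact hv1 i
  · rw [l0, l1]
    exact h10
  · rw [l1, l2]
    exact h21
  · rw [l2]
    exact h2
  · rw [l1]
    exact hε'

end Pool.Agent.H817.PH
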