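import Pool.Agent.H817.PH.Stm

set_option autoImplicit false

/-! Closed multiplicative semigroups of real numbers. -/

namespace Pool.Agent.H817.PH

open Set Filter Topology Module

/-- the logarithms of the positive elements -/
def semi_A (T : Set ℝ) : Set ℝ := {a | Real.exp a ∈ T}

theorem semi_add {T : Set ℝ} (hT : ∀ x ∈ T, ∀ y ∈ T, x * y ∈ T) {a b : ℝ} (ha : a ∈ semi_A T)
    (hb : b ∈ semi_A T) : a + b ∈ semi_A T := by
  show Real.exp (a + b) ∈ T
  rw [Real.exp_add]
  exact hT _ ha _ hb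

theorem semi_nsmul {T : Set ℝ} (hT : ∀ x ∈ T, ∀ y ∈ T, x * y ∈ T) (h0 : (0 : ℝ) ∈ semi_A T)
    {a : ℝ} (ha : a ∈ semi_A T) (n : ℕ) : (n : ℝ) * a ∈ semi_A T := by
  induction n with
  | zero => simpa using h0
  | succ n ih =>
    have : ((n + 1 : ℕ) : ℝ) * a = n * a + a := by
      push_cast
      ring
    rw [this]
    exact semi_add hT ih ha

theorem semi_zsmul {T : Set ℝ} (hT : ∀ x ∈ T, ∀ y ∈ T, x * y ∈ T) (h0 : (0 : ℝ) ∈ semi_A T)
    {a : ℝ} (ha : a ∈ semi_A T) (ha' : -a ∈ semi_A T) (j : ℤ) : (j : ℝ) * a ∈ semi_A T := by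
  obtain ⟨n, rfl | rfl⟩ := Int.eq_nat_or_neg j
  · simpa using semi_nsmul hT h0 ha n
  · have := semi_nsmul hT h0 ha' n
    have e : ((-(n : ℤ) : ℤ) : ℝ) * a = (n : ℝ) * -a := by
      push_cast
      ring
    rw [e]
    exact this

theorem semi_neg {T : Set ℝ} (hc : IsClosed T) (hT : ∀ x ∈ T, ∀ y ∈ T, x * y ∈ T)
    (h0 : (0 : ℝ) ∈ semi_A T) {s : ℝ} (hs0 : s ≠ 0) (hs : s ∈ semi_A T) (hs' : -s ∈ semi_A T)
    {a : ℝ} (ha : a ∈ semi_A T) : -a ∈ semi_A T := by
  have hcA : IsClosed (semi_A T) := hc.preimage Real.continuous_exp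
  rw [← hcA.closure_eq, Metric.mem_closure_iff]
  intro ε hε
  obtain ⟨n, hn⟩ := exists_nat_gt (|s| / ε)
  have hn0 : 0 < n := by
    have : 0 ≤ |s| / ε := by positivity
    have : (0 : ℝ) < n := this.trans_lt hn
    exact_mod_cast this
  obtain ⟨j, k, hk, -, hjk⟩ := Real.exists_int_int_abs_mul_sub_le (a / s) hn0
  obtain ⟨m, hm⟩ : ∃ m : ℕ, k = m + 1 := ⟨(k - 1).toNat, by omega⟩
  refine ⟨(m : ℝ) * a + ((-j : ℤ) : ℝ) * s, semi_add hT (semi_nsmul hT h0 ha m)
    (semi_zsmul hT h0 hs hs' (-j)), ?_⟩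
  rw [Real.dist_eq]
  have e : -a - ((m : ℝ) * a + ((-j : ℤ) : ℝ) * s) = -(s * ((k : ℝ) * (a / s) - j)) := by
    rw [hm]
    push_cast
    field_simp
    ring
  rw [e, abs_neg, abs_mul]
  have hsp : 0 < |s| := abs_pos.2 hs0
  have h1 : |s| * |(k : ℝ) * (a / s) - j| ≤ |s| * (1 / (n + 1)) :=
    mul_le_mul_of_nonneg_left hjk hsp.le
  have h2 : |s| * (1 / (n + 1)) < ε := by
    rw [mul_one_div, div_lt_iff₀ (by positivity)]
    rw [div_lt_iff₀ hε] at hn
    nlinarith
  linarith

/-- in a cyclic group of reals, a convergent sequence is eventually constant -/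
theorem semi_cyc {a : ℝ} {S : AddSubgroup ℝ} (hS : S = AddSubgroup.closure {a}) {u : ℕ → ℝ}
    {u' : ℝ} (hu : ∀ᶠ n in atTop, u n ∈ S) (hu' : u' ∈ S) (h : Tendsto u atTop (𝓝 u')) :
    ∀ᶠ n in atTop, u n = u' := by
  have hz : ∀ x ∈ S, |x| < |a| → x = 0 := by
    intro x hx hxa
    rw [hS, AddSubgroup.mem_closure_singleton] at hx
    obtain ⟨k, rfl⟩ := hx
    by_cases hk : k = 0
    · rw [hk, zero_smul]
    · exfalso
      rw [zsmul_eq_mul, abs_mul] at hxa
      have h1 : (1 : ℝ) ≤ |(k : ℝ)| := by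
        have : (1 : ℤ) ≤ |k| := Int.one_le_abs hk
        exact_mod_cast this
      have h2 : 1 * |a| ≤ |(k : ℝ)| * |a| := mul_le_mul_of_nonneg_right h1 (abs_nonneg a)
      linarith
  by_cases ha : a = 0
  · have hall : ∀ x ∈ S, x = 0 := by
      intro x hx
      rw [hS, ha, AddSubgroup.mem_closure_singleton] at hx
      obtain ⟨k, rfl⟩ := hx
      exact smul_zero _
    filter_upwards [hu] with n hn
    rw [hall _ hn, hall _ hu']
  · have hap : 0 < |a| := abs_pos.2 ha
    filter_upwards [hu, Metric.tendsto_nhds.1 h |a| hap] with n hn hd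
    rw [Real.dist_eq] at hd
    exact sub_eq_zero.1 (hz _ (S.sub_mem hn hu') hd)

theorem t_semi : S_semi := by
  intro T l t t' hc hT hl hl' hl0 hl1 ht htt ht0 hfr
  have hcA : IsClosed (semi_A T) := hc.preimage Real.continuous_exp
  obtain ⟨s, hs⟩ : ∃ s : ℝ, s = 2 * Real.log |l| := ⟨_, rfl⟩
  have hlp : 0 < |l| := abs_pos.2 hl0
  have hlog : Real.log |l| < 0 := Real.log_neg hlp hl1
  have hs0 : s ≠ 0 := by
    rw [hs]
    exact (mul_neg_of_pos_of_neg two_pos hlog).ne
  have hexp : Real.exp s = l * l := by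
    rw [hs, two_mul, Real.exp_add, Real.exp_log hlp, abs_mul_abs_self]
  have hsA : s ∈ semi_A T := by
    show Real.exp s ∈ T
    rw [hexp]
    exact hT _ hl _ hl
  have hsA' : -s ∈ semi_A T := by
    show Real.exp (-s) ∈ T
    rw [Real.exp_neg, hexp, mul_inv]
    exact hT _ hl' _ hl'
  have h0 : (0 : ℝ) ∈ semi_A T := by
    have := semi_add hT hsA hsA'
    simpa using this
  let S : AddSubgroup ℝ :=
    { carrier := semi_A T
      zero_mem' := h0
      add_mem' := fun ha hb => semi_add hT ha hb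
      neg_mem' := fun ha => semi_neg hc hT h0 hs0 hsA hsA' ha }
  have hSmem : ∀ x, x ∈ S ↔ Real.exp x ∈ T := fun x => Iff.rfl
  have hpos : ∀ x : ℝ, 0 < x → x ∈ T := by
    rcases S.dense_or_cyclic with hd | ⟨a, ha⟩
    · intro x hx
      have h1 : (S : Set ℝ) = Set.univ := by
        have h2 : IsClosed (S : Set ℝ) := hcA
        rw [← h2.closure_eq]
        exact hd.closure_eq
      have h3 : Real.log x ∈ (S : Set ℝ) := by
        rw [h1]
        trivial
      have h4 : Real.exp (Real.log x) ∈ T := h3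
      rwa [Real.exp_log hx] at h4
    · exfalso
      -- choose m
      have hsgn : ∀ᶠ n in atTop, 0 < t n * t' := by
        have h1 : Tendsto (fun n => t n * t') atTop (𝓝 (t' * t')) := htt.mul_const t'
        exact h1.eventually (lt_mem_nhds (mul_self_pos.2 ht0))
      obtain ⟨m, hm, hmT⟩ := (hsgn.and ht).exists
      have hm0 : t m ≠ 0 := by
        intro h
        rw [h, zero_mul] at hm
        exact lt_irrefl _ hm
      have hlimpos : 0 < t' * t m := by
        rw [mul_comm]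
        exact hm
      have hlim : Tendsto (fun n => t n * t m) atTop (𝓝 (t' * t m)) := htt.mul_const (t m)
      have hpos' : ∀ᶠ n in atTop, 0 < t n * t m := hlim.eventually (lt_mem_nhds hlimpos)
      have hin : ∀ᶠ n in atTop, Real.log (t n * t m) ∈ S := by
        filter_upwards [hpos', ht] with n hn hnT
        rw [hSmem, Real.exp_log hn]
        exact hT _ hnT _ hmT
      have hlogt : Tendsto (fun n => Real.log (t n * t m)) atTop (𝓝 (Real.log (t' * t m))) :=
        (Real.continuousAt_log hlimpos.ne').tendsto.comp hlim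
      have hlimS : Real.log (t' * t m) ∈ S := by
        have h2 : IsClosed (S : Set ℝ) := hcA
        exact h2.mem_of_tendsto hlogt hin
      have hev := semi_cyc ha hin hlimS hlogt
      apply hfr
      filter_upwards [hev, hpos'] with n hn hnp
      rw [not_not]
      have h5 := Real.log_injOn_pos (Set.mem_Ioi.2 hnp) (Set.mem_Ioi.2 hlimpos) hn
      exact mul_right_cancel₀ hm0 h5
  refine ⟨hpos, fun hln x hx => ?_⟩
  rcases lt_or_gt_of_ne hx with h | h
  · have h1 : 0 < x / l := div_pos_of_neg_of_neg h hln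
    have h2 := hT _ (hpos _ h1) _ hl
    rwa [div_mul_cancel₀ _ hl0] at h2
  · exact hpos x h

end Pool.Agent.H817.PH
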