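import Pool.Agent.H817.PH.Stm

/-!
`S_star`: linear Zariski closure of an orbit.
-/

set_option autoImplicit false

namespace Pool.Agent.H817.PH

open Set Filter Topology Module

/-- `U` is full for the set `O`: every finite family of subspaces which covers `O ∩ U` has a member
which contains `U`. -/
def star_Full {V : Type} [AddCommGroup V] [Module ℝ V] (O : Set V) (U : Submodule ℝ V) : Prop :=
  ∀ S : Set (Submodule ℝ V), S.Finite → (∀ x ∈ O, x ∈ U → ∃ W ∈ S, x ∈ W) → ∃ W ∈ S, U ≤ W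

theorem star_cover {V : Type} [AddCommGroup V] [Module ℝ V] [FiniteDimensional ℝ V] (O : Set V)
    (U : Submodule ℝ V) :
    ∃ F : Set (Submodule ℝ V), F.Finite ∧ (∀ W ∈ F, star_Full O W) ∧
      ∀ x ∈ O, x ∈ U → ∃ W ∈ F, x ∈ W := by
  induction U using WellFoundedLT.induction with
  | ind U ih =>
    by_cases hU : star_Full O U
    · exact ⟨{U}, Set.finite_singleton U, fun W hW => by rw [Set.mem_singleton_iff] at hW; rwa [hW],
        fun x _ hx => ⟨U, Set.mem_singleton U, hx⟩⟩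
    · unfold star_Full at hU
      push Not at hU
      obtain ⟨S, hS, hc, hn⟩ := hU
      have hlt : ∀ W ∈ S, U ⊓ W < U := fun W hW =>
        lt_of_le_of_ne inf_le_left (fun h => hn W hW (inf_eq_left.mp h))
      choose! F hF1 hF2 hF3 using fun W (hW : W ∈ S) => ih (U ⊓ W) (hlt W hW)
      refine ⟨⋃ W ∈ S, F W, hS.biUnion (fun W hW => hF1 W hW), ?_, ?_⟩
      · intro W hW
        simp only [Set.mem_iUnion] at hW
        obtain ⟨W', hW', h⟩ := hW
        exact hF2 W' hW' W h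
      · intro x hx hxU
        obtain ⟨W, hW, hxW⟩ := hc x hx hxU
        obtain ⟨W', hW', h'⟩ := hF3 W hW x hx ⟨hxU, hxW⟩
        refine ⟨W', ?_, h'⟩
        simp only [Set.mem_iUnion]
        exact ⟨W, hW, hW'⟩

theorem star_map {V : Type} [AddCommGroup V] [Module ℝ V] (O : Set V) (T : V ≃ₗ[ℝ] V)
    (hT : ∀ x ∈ O, T.symm x ∈ O) (hT' : ∀ x ∈ O, T x ∈ O) (U : Submodule ℝ V)
    (hU : star_Full O U) :
    star_Full O (U.map (T : V →ₗ[ℝ] V)) := by
  intro S hS hc
  obtain ⟨W, hW, hle⟩ := hU ((fun W => W.comap (T : V →ₗ[ℝ] V)) '' S) (hS.image _) (by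
    intro x hx hxU
    obtain ⟨W, hW, hxW⟩ := hc (T x) (hT' x hx) (Submodule.mem_map_of_mem hxU)
    exact ⟨_, ⟨W, hW, rfl⟩, hxW⟩)
  obtain ⟨W', hW', rfl⟩ := hW
  exact ⟨W', hW', Submodule.map_le_iff_le_comap.mpr hle⟩

/-- the action of a group on the subspaces -/
@[reducible] def star_act {G V : Type} [Group G] [AddCommGroup V] [Module ℝ V]
    (ρ : G →* (V ≃ₗ[ℝ] V)) : MulAction G (Submodule ℝ V) where
  smul g U := U.map (ρ g : V →ₗ[ℝ] V)
  one_smul U := by
    change U.map (ρ 1 : V →ₗ[ℝ] V) = U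
    rw [map_one]
    ext x
    constructor
    · rintro ⟨y, hy, rfl⟩
      exact hy
    · intro hx
      exact ⟨x, hx, rfl⟩
  mul_smul g h U := by
    change U.map (ρ (g * h) : V →ₗ[ℝ] V) =
      (U.map (ρ h : V →ₗ[ℝ] V)).map (ρ g : V →ₗ[ℝ] V)
    rw [map_mul]
    ext x
    constructor
    · rintro ⟨y, hy, rfl⟩
      exact ⟨ρ h y, ⟨y, hy, rfl⟩, rfl⟩
    · rintro ⟨y, ⟨z, hz, rfl⟩, rfl⟩
      exact ⟨z, hz, rfl⟩

theorem t_star : S_star := by
  intro G V ι _ _ _ _ _ ρ v0 f hf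
  -- the orbit
  set O : Set V := Set.range (fun g => ρ g v0) with hO
  have hOinv : ∀ (g : G), ∀ x ∈ O, ρ g x ∈ O := by
    rintro g _ ⟨h, rfl⟩
    refine ⟨g * h, ?_⟩
    change ρ (g * h) v0 = ρ g (ρ h v0)
    rw [map_mul]
    rfl
  obtain ⟨F, hF1, hF2, hF3⟩ := star_cover O ⊤
  have hv0 : v0 ∈ O := by
    refine ⟨1, ?_⟩
    change ρ 1 v0 = v0
    rw [map_one]
    rfl
  obtain ⟨W0, hW0, hv0W⟩ := hF3 v0 hv0 Submodule.mem_top
  obtain ⟨U, hWU, hUF, hUmax⟩ : ∃ U, W0 ≤ U ∧ U ∈ F ∧ ∀ W ∈ F, U ≤ W → W ≤ U := by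
    obtain ⟨U, hU1, hU2⟩ := hF1.exists_le_maximal hW0
    exact ⟨U, hU1, hU2.1, fun W hW hle => hU2.2 hW hle⟩
  have hUfull : star_Full O U := hF2 U hUF
  -- every full subspace is contained in a member of F
  have hfull : ∀ W, star_Full O W → ∃ W' ∈ F, W ≤ W' := by
    intro W hW
    exact hW F hF1 (fun x hx _ => hF3 x hx Submodule.mem_top)
  -- U is maximal among the full subspaces
  have hUmax' : ∀ W, star_Full O W → U ≤ W → W = U := by
    intro W hW hle
    obtain ⟨W', hW', hle'⟩ := hfull W hW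
    have := hUmax W' hW' (hle.trans hle')
    exact le_antisymm (hle'.trans this) hle
  letI : MulAction G (Submodule ℝ V) := star_act ρ
  have hsmul : ∀ (g : G) (W : Submodule ℝ V), g • W = W.map (ρ g : V →ₗ[ℝ] V) := fun _ _ => rfl
  have hfullg : ∀ (g : G) (W : Submodule ℝ V), star_Full O W → star_Full O (g • W) := by
    intro g W hW
    rw [hsmul]
    refine star_map O (ρ g) ?_ (hOinv g) W hW
    intro x hx
    have h1 : (ρ g).symm x = ρ g⁻¹ x := by
      rw [LinearEquiv.symm_apply_eq]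
      have : ρ g (ρ g⁻¹ x) = (ρ g * ρ g⁻¹) x := rfl
      rw [this, ← map_mul, mul_inv_cancel, map_one]
      rfl
    rw [h1]
    exact hOinv _ x hx
  have hmono : ∀ (g : G) (W W' : Submodule ℝ V), W ≤ W' → g • W ≤ g • W' := by
    intro g W W' h
    rw [hsmul, hsmul]
    exact Submodule.map_mono h
  -- the orbit of U is contained in F
  have horb : MulAction.orbit G U ⊆ F := by
    rintro _ ⟨g, rfl⟩
    change g • U ∈ F
    obtain ⟨W', hW', hle⟩ := hfull (g • U) (hfullg g U hUfull)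
    have h2 : U ≤ g⁻¹ • W' := by
      have := hmono g⁻¹ _ _ hle
      rwa [inv_smul_smul] at this
    have h3 := hUmax' _ (hfullg g⁻¹ W' (hF2 W' hW')) h2
    have h4 : g • U = W' := by
      rw [← h3, smul_inv_smul]
    rw [h4]
    exact hW'
  have hfin : (MulAction.orbit G U).Finite := hF1.subset horb
  refine ⟨MulAction.stabilizer G U, ?_, ?_⟩
  · refine ⟨?_⟩
    rw [MulAction.index_stabilizer]
    intro h0
    rw [Set.ncard_eq_zero hfin] at h0
    exact (MulAction.nonempty_orbit (M := G) U).ne_empty h0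
  · obtain ⟨W, hW, hle⟩ := hUfull (Set.range (fun i => LinearMap.ker (f i))) (Set.finite_range _)
      (by
        rintro _ ⟨g, rfl⟩ _
        obtain ⟨i, hi⟩ := hf g
        exact ⟨_, ⟨i, rfl⟩, hi⟩)
    obtain ⟨i, rfl⟩ := hW
    refine ⟨i, ?_⟩
    intro g hg
    have h1 : g • U = U := hg
    have h2 : ρ g v0 ∈ U := by
      rw [← h1, hsmul]
      exact Submodule.mem_map_of_mem (hWU hv0W)
    exact hle h2

end Pool.Agent.H817.PH
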