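import Pool.Agent.H817.PH.Stm

/-!
Two more statements.
-/

set_option autoImplicit false

namespace Pool.Agent.H817.PH

open Set Filter Topology Module

/-- CORE, with a third conclusion: `J` does not contain numbers of different signs, nor `0`. Same
proof as `t_core` (Core.lean): `T` contains all positive numbers and `kap (M g) ≠ 0` for the third
element `g`, and `kap (M g) ≤ 0`, so `K`, and hence `K0`, contains all negative numbers: if `b ∈ J`,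
then `t b ∉ J` for `t < 0`. Moreover `0 ∉ J`: if `(a, 0, 0) ∈ Ω`, then `S_dyn` for `g`, with
`a' = a` and `b = 0`, gives a contradiction. -/
def S_core2 : Prop := ∀ {Γ : Type} [Group Γ] (hol : Γ →* (V3 ≃ᵃ[ℝ] V3)) (Ω : Set V3) (γ : Γ)
  (l : Fin 3 → ℝ), Setup hol Ω γ l → (∃ a b : ℝ, (![a, b, 0] : V3) ∈ Ω) →
  (∃ g : Γ, mat (hol g) 0 0 ≠ 0 ∧
    mat (hol g) 0 0 * mat (hol g) 1 1 - mat (hol g) 0 1 * mat (hol g) 1 0 ≠ 0 ∧
    mat (hol g) 0 0 * mat (hol g) 1 2 - mat (hol g) 0 2 * mat (hol g) 1 0 ≠ 0) →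
  (∃ g : Γ, mat (hol g) 0 0 ≠ 0 ∧
    mat (hol g) 0 0 * mat (hol g) 1 1 - mat (hol g) 0 1 * mat (hol g) 1 0 ≠ 0 ∧
    mat (hol g) 0 0 * mat (hol g) 2 1 - mat (hol g) 0 1 * mat (hol g) 2 0 ≠ 0) →
  (∃ g : Γ, mat (hol g) 0 2 ≠ 0 ∧
    mat (hol g) 0 2 * mat (hol g) 1 1 - mat (hol g) 0 1 * mat (hol g) 1 2 ≠ 0) →
  0 < l 1 ∧ (∀ g : Γ, mat (hol g) 0 2 ≠ 0 → kap (mat (hol g)) ≤ 0) ∧
    ∀ a b a' b' : ℝ, (![a, b, 0] : V3) ∈ Ω → (![a', b', 0] : V3) ∈ Ω → 0 < b * b'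

/-- BOUNDED POWERS. `u, w` span a plane `W`, on which `T` is conjugate to the multiplication with
`m` on `ℂ` (`j z = z.re • u - z.im • w`, `T (j z) = j (m z)`); `T` acts on the line `E / W` by a
real number `r`, `|r| ‖m‖ ^ 2 = 1`, so `r = ±1`; `r` is not an eigenvalue of `T` on `W`, so there is
`e`, not in `W`, with `T e = r e`. See `h817_SP_Norm.lean` (helper553) for the normal form. So
`T ^ n (a e + j z) = r ^ n a e + j (m ^ n z)`. -/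
def S_bdd : Prop := ∀ {E : Type} [NormedAddCommGroup E] [NormedSpace ℝ E]
  [FiniteDimensional ℝ E], finrank ℝ E = 3 → ∀ (T : E ≃ₗ[ℝ] E),
  |LinearMap.det (T : E →ₗ[ℝ] E)| = 1 → ∀ (m : ℂ) (u w : E), m.im ≠ 0 → ‖m‖ = 1 →
  (u ≠ 0 ∨ w ≠ 0) → T u = m.re • u - m.im • w → T w = m.im • u + m.re • w →
  ∃ R : ℝ, ∀ (n : ℕ) (v : E), ‖(T ^ n) v‖ ≤ R * ‖v‖

end Pool.Agent.H817.PH
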