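import Pool.Agent.H817.PH.Trans
import Pool.Agent.H817.PH.Stm2
import Pool.Agent.H817.PH.Dyn
import Pool.Agent.H817.PH.Comp
import Pool.Agent.H817.PH.Comp2
import Pool.Agent.H817.PH.Nonconst
import Pool.Agent.H817.PH.Semi
import Pool.Agent.H817.PH.Core2
import Pool.Agent.H817.PH.Star
import Pool.Agent.H817.PH.Pairs
import Pool.Agent.H817.PH.Rank1
import Pool.Agent.H817.PH.Both
import Pool.Agent.H817.PH.Cubic
import Pool.Agent.H817.PH.Reg
import Pool.Agent.H817.PH.Form
import Pool.Agent.H817.PH.Mid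
import Pool.Agent.H817.PH.Cone
import Pool.Agent.H817.PH.Real
import Pool.Agent.H817.PH.Bdd
import Pool.Agent.H817.RB.Form

/-!
Incomplete domain quotients of the affine 3-space: the linear holonomy is positive.
-/

set_option autoImplicit false
set_option linter.unusedSectionVars false

namespace Pool.Agent.H817.PH

open Set Filter Topology Module
open Pool.Agent.W689.Mk

section
variable {E : Type} [NormedAddCommGroup E] [NormedSpace ℝ E] [FiniteDimensional ℝ E]

/-- the determinant of a regular automorphism -/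
theorem det_reg {T : E ≃ₗ[ℝ] E} {e : Basis (Fin 3) ℝ E} {l : Fin 3 → ℝ} (h : Reg T e l) :
    LinearMap.det (T : E →ₗ[ℝ] E) = l 0 * l 1 * l 2 := by
  have h1 : LinearMap.toMatrix e e (T : E →ₗ[ℝ] E) = Matrix.diagonal l := by
    ext i j
    rw [LinearMap.toMatrix_apply]
    show e.repr (T (e j)) i = _
    rw [h.eig, map_smul, e.repr_self, Matrix.diagonal_apply]
    by_cases hij : i = j
    · subst hij
      simp
    · simp [hij, Finsupp.single_apply, Ne.symm hij]
  rw [← LinearMap.det_toMatrix e, h1, Matrix.det_diagonal, Fin.prod_univ_three]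

theorem Reg.ne {T : E ≃ₗ[ℝ] E} {e : Basis (Fin 3) ℝ E} {l : Fin 3 → ℝ} (h : Reg T e l) :
    ∀ i, l i ≠ 0 := by
  have h2 : 0 < |l 2| := abs_pos.2 h.h2
  have h1 : 0 < |l 1| := h2.trans h.h1
  have h0 : 0 < |l 0| := h1.trans h.h0
  intro i
  fin_cases i
  · exact abs_pos.1 h0
  · exact abs_pos.1 h1
  · exact abs_pos.1 h2

/-- the inverse of a regular automorphism -/
theorem Reg.inv {T : E ≃ₗ[ℝ] E} {e : Basis (Fin 3) ℝ E} {l : Fin 3 → ℝ} (h : Reg T e l) :
    Reg T⁻¹ (e.reindex Fin.revPerm) (fun i => (l (Fin.rev i))⁻¹) := by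
  refine ⟨fun i => ?_, ?_, ?_, ?_⟩
  · rw [Basis.reindex_apply]
    show T.symm (e (Fin.rev i)) = _
    rw [LinearEquiv.symm_apply_eq, map_smul]
    show e (Fin.rev i) = (l (Fin.rev i))⁻¹ • T (e (Fin.rev i))
    rw [h.eig, smul_smul, inv_mul_cancel₀ (h.ne _), one_smul]
  · show |(l 1)⁻¹| < |(l 2)⁻¹|
    rw [abs_inv, abs_inv]
    exact inv_strictAnti₀ (abs_pos.2 (h.ne 2)) h.h1
  · show |(l 0)⁻¹| < |(l 1)⁻¹|
    rw [abs_inv, abs_inv]
    exact inv_strictAnti₀ (abs_pos.2 (h.ne 1)) h.h0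
  · exact inv_ne_zero (h.ne 0)

/-- minors and inverse matrices -/
theorem cof (M N : M3) (h : M * N = 1) :
    M 0 0 * M 1 1 - M 0 1 * M 1 0 = M.det * N 2 2 ∧
    M 0 0 * M 1 2 - M 0 2 * M 1 0 = -(M.det * N 1 2) ∧
    M 0 0 * M 2 1 - M 0 1 * M 2 0 = -(M.det * N 2 1) ∧
    M 0 2 * M 1 1 - M 0 1 * M 1 2 = -(M.det * N 0 2) := by
  have h' : ∀ i j, M i 0 * N 0 j + M i 1 * N 1 j + M i 2 * N 2 j = (1 : M3) i j := by
    intro i j
    rw [← h, Matrix.mul_apply, Fin.sum_univ_three]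
  have a01 := h' 0 1
  have a11 := h' 1 1
  have a21 := h' 2 1
  have a02 := h' 0 2
  have a12 := h' 1 2
  have a22 := h' 2 2
  have e1 : (1 : M3) 0 1 = 0 := rfl
  have e2 : (1 : M3) 1 1 = 1 := rfl
  have e3 : (1 : M3) 2 1 = 0 := rfl
  have e4 : (1 : M3) 0 2 = 0 := rfl
  have e5 : (1 : M3) 1 2 = 0 := rfl
  have e6 : (1 : M3) 2 2 = 1 := rfl
  rw [e1] at a01
  rw [e2] at a11
  rw [e3] at a21
  rw [e4] at a02
  rw [e5] at a12
  rw [e6] at a22
  rw [Matrix.det_fin_three]
  refine ⟨?_, ?_, ?_, ?_⟩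
  · linear_combination -(M 1 0 * M 2 1 - M 1 1 * M 2 0) * a02 +
      (M 0 0 * M 2 1 - M 0 1 * M 2 0) * a12 - (M 0 0 * M 1 1 - M 0 1 * M 1 0) * a22
  · linear_combination -(M 1 0 * M 2 2 - M 1 2 * M 2 0) * a02 +
      (M 0 0 * M 2 2 - M 0 2 * M 2 0) * a12 - (M 0 0 * M 1 2 - M 0 2 * M 1 0) * a22
  · linear_combination (M 1 0 * M 2 1 - M 1 1 * M 2 0) * a01 -
      (M 0 0 * M 2 1 - M 0 1 * M 2 0) * a11 + (M 0 0 * M 1 1 - M 0 1 * M 1 0) * a21
  · linear_combination (M 1 1 * M 2 2 - M 1 2 * M 2 1) * a02 -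
      (M 0 1 * M 2 2 - M 0 2 * M 2 1) * a12 + (M 0 1 * M 1 2 - M 0 2 * M 1 1) * a22

end

section
variable {X Γ E : Type} [TopologicalSpace X] [T2Space X] [SecondCountableTopology X]
  [ConnectedSpace X] [Group Γ] [MulAction Γ X] [NormedAddCommGroup E]
  [NormedSpace ℝ E] [FiniteDimensional ℝ E] {dev : X → E} {hol : Γ →* (E ≃ᵃ[ℝ] E)}

theorem strIrr (D : AffData X Γ E dev hol) (hinj : Function.Injective dev)
    (h3 : finrank ℝ E = 3) (hc : ¬ IsHomeomorph dev) : StrIrr (L hol) := by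
  intro K hK W hW
  by_contra hcon
  push Not at hcon
  exact hc (RB.reducible_complete D hinj h3 K hK W hcon.1 hcon.2 hW)

theorem noForm (D : AffData X Γ E dev hol) (hinj : Function.Injective dev)
    (h3 : finrank ℝ E = 3) (hc : ¬ IsHomeomorph dev) : NoForm (L hol) := by
  intro K hK B hs hB
  by_contra hcon
  exact hc (RB.form_complete D hinj h3 K hK B hs hcon hB)

theorem infinite_of_strIrr (h3 : finrank ℝ E = 3) (h : StrIrr (L hol)) : Infinite Γ := by
  by_contra hfin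
  rw [not_infinite_iff_finite] at hfin
  have hE : Nontrivial E := Module.nontrivial_of_finrank_pos (R := ℝ) (by omega)
  obtain ⟨v, hv⟩ := exists_ne (0 : E)
  have h1 := finrank_span_singleton (K := ℝ) hv
  rcases h ⊥ inferInstance (Submodule.span ℝ {v}) (by
    intro g hg w hw
    rw [Subgroup.mem_bot] at hg
    rw [hg, map_one]
    exact hw) with h2 | h2
  · rw [h2, finrank_bot] at h1
    exact zero_ne_one h1
  · rw [h2, finrank_top, h3] at h1
    norm_num at h1

theorem unbounded (D : AffData X Γ E dev hol) (hinj : Function.Injective dev)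
    (h3 : finrank ℝ E = 3) (hc : ¬ IsHomeomorph dev) : ∀ R : ℝ, ∃ g, R < ‖cl (L hol g)‖ := by
  intro R
  by_contra hcon
  push Not at hcon
  have := infinite_of_strIrr h3 (strIrr D hinj h3 hc)
  apply hc
  refine RB.proper_or_complete D hinj h3 R ?_
  have h1 : {γ : Γ | ∀ v, ‖lin hol γ v‖ ≤ R * ‖v‖} = univ := by
    refine eq_univ_of_forall fun γ v => ?_
    have h2 := (cl (L hol γ)).le_opNorm v
    have h4 : ‖cl (L hol γ) v‖ ≤ R * ‖v‖ :=
      h2.trans (mul_le_mul_of_nonneg_right (hcon γ) (norm_nonneg _))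
    exact h4
  rw [h1]
  exact Set.infinite_univ

/-- the dynamical part for a regular element -/
theorem regular (hcore : S_core2) (D : AffData X Γ E dev hol) (hinj : Function.Injective dev)
    (h3 : finrank ℝ E = 3) (hc : ¬ IsHomeomorph dev) (γ : Γ) (e : Basis (Fin 3) ℝ E)
    (l : Fin 3 → ℝ) (hr : Reg (L hol γ) e l) (h1 : |l 1| < 1) :
    0 < l 1 ∧ (∀ g, 0 ≤ LinearMap.det (L hol g : E →ₗ[ℝ] E) *
      (e.coord 0 (L hol g (e 2)) * e.coord 0 (L hol g⁻¹ (e 2)))) ∧
      ∃ p : E, ∀ x y : X, e.coord 2 (dev x - p) = 0 → e.coord 2 (dev y - p) = 0 →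
        0 < e.coord 1 (dev x - p) * e.coord 1 (dev y - p) := by
  have hsi := strIrr D hinj h3 hc
  have hpairs : S_pairs := t_pairs t_star
  have hprod : |l 0| * (|l 1| * |l 2|) = 1 := by
    have := L_det D γ
    rw [det_reg hr, abs_mul, abs_mul] at this
    rw [← this]
    ring
  have hl1 : 0 < |l 1| := abs_pos.2 (hr.ne 1)
  have hl2 : 0 < |l 2| := abs_pos.2 (hr.ne 2)
  have hl2' : |l 2| < 1 := hr.h1.trans h1
  have h0 : 1 < |l 0| := by
    have h12 : |l 1| * |l 2| < 1 := by nlinarith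
    have h12' : 0 < |l 1| * |l 2| := mul_pos hl1 hl2
    by_contra hcon
    push Not at hcon
    nlinarith
  -- the fixed point
  have hne : ∀ i, 1 - l i ≠ 0 := by
    intro i h
    have hi : l i = 1 := by linarith
    fin_cases i
    · have : l 0 = 1 := hi
      rw [this, abs_one] at h0
      exact lt_irrefl _ h0
    · have : l 1 = 1 := hi
      rw [this, abs_one] at h1
      exact lt_irrefl _ h1
    · have : l 2 = 1 := hi
      rw [this, abs_one] at hl2'
      exact lt_irrefl _ hl2'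
  obtain ⟨p, hp⟩ : ∃ p : E, hol γ p = p := by
    refine ⟨e.equivFun.symm fun i => e.equivFun (hol γ 0) i / (1 - l i), ?_⟩
    apply e.equivFun.injective
    have h4 : hol γ (e.equivFun.symm fun i => e.equivFun (hol γ 0) i / (1 - l i)) = hol γ 0 +
        L hol γ (e.equivFun.symm fun i => e.equivFun (hol γ 0) i / (1 - l i)) := by
      have := hol_add (hol := hol) γ 0 (e.equivFun.symm fun i => e.equivFun (hol γ 0) i / (1 - l i))
      rw [zero_add] at this
      exact this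
    have h5 : L hol γ (e.equivFun.symm fun i => e.equivFun (hol γ 0) i / (1 - l i)) =
        e.equivFun.symm fun i => l i * (e.equivFun (hol γ 0) i / (1 - l i)) := by
      rw [Basis.equivFun_symm_apply, Basis.equivFun_symm_apply, map_sum]
      refine Finset.sum_congr rfl fun j _ => ?_
      rw [map_smul, hr.eig, smul_smul, mul_comm]
    rw [h4, h5, map_add, LinearEquiv.apply_symm_apply, LinearEquiv.apply_symm_apply]
    funext i
    show e.equivFun (hol γ 0) i + l i * (e.equivFun (hol γ 0) i / (1 - l i)) =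
      e.equivFun (hol γ 0) i / (1 - l i)
    field_simp [hne i]
    ring
  have S := setup D hinj γ e l p hp hr.eig h0 h1 hr.h1 hr.h2
  have hmul : ∀ g, mat (hol' hol e p g) * mat (hol' hol e p g⁻¹) = 1 := by
    intro g
    rw [mat_eq, mat_eq, ← LinearMap.toMatrix_mul]
    have h4 : (L hol g : E →ₗ[ℝ] E) * (L hol g⁻¹ : E →ₗ[ℝ] E) = 1 := by
      refine LinearMap.ext fun v => ?_
      show L hol g (L hol g⁻¹ v) = v
      rw [map_inv]
      exact (L hol g).apply_symm_apply v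
    rw [h4, LinearMap.toMatrix_one]
  have hdet : ∀ g, (mat (hol' hol e p g)).det ≠ 0 := by
    intro g h4
    have := S.det g
    rw [h4, abs_zero] at this
    exact zero_ne_one this
  have hcoord : ∀ i, e.coord i ≠ 0 := by
    intro i h4
    have h5 : e.coord i (e i) = 1 := by
      rw [Basis.coord_apply, e.repr_self, Finsupp.single_eq_same]
    rw [h4] at h5
    exact zero_ne_one h5
  have hJ : ∃ a b : ℝ, (![a, b, 0] : V3) ∈ (coo e p).symm '' (Set.range dev) := by
    obtain ⟨x, hx⟩ := plane_meets D (e.coord 2) (hcoord 2) (e.coord 2 p)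
    refine ⟨e.equivFun (dev x - p) 0, e.equivFun (dev x - p) 1, dev x, ⟨x, rfl⟩, ?_⟩
    rw [coo_symm_apply]
    funext i
    fin_cases i
    · rfl
    · rfl
    · show e.equivFun (dev x - p) 2 = 0
      rw [map_sub, Pi.sub_apply]
      exact sub_eq_zero.2 hx
  obtain ⟨g1, hg1, hg1'⟩ := hpairs (L hol) hsi 1 2 ![e.coord 0] ![e 0] ![e.coord 2, e.coord 1]
    ![e 2, e 2] (by intro i; fin_cases i; exact hcoord 0) (by intro i; fin_cases i; exact e.ne_zero 0)
    (by intro i; fin_cases i; exacts [hcoord 2, hcoord 1])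
    (by intro i; fin_cases i; exacts [e.ne_zero 2, e.ne_zero 2])
  obtain ⟨g2, hg2, hg2'⟩ := hpairs (L hol) hsi 1 2 ![e.coord 0] ![e 0] ![e.coord 2, e.coord 2]
    ![e 2, e 1] (by intro i; fin_cases i; exact hcoord 0) (by intro i; fin_cases i; exact e.ne_zero 0)
    (by intro i; fin_cases i; exacts [hcoord 2, hcoord 2])
    (by intro i; fin_cases i; exacts [e.ne_zero 2, e.ne_zero 1])
  obtain ⟨g3, hg3, hg3'⟩ := hpairs (L hol) hsi 1 1 ![e.coord 0] ![e 2] ![e.coord 0]
    ![e 2] (by intro i; fin_cases i; exact hcoord 0) (by intro i; fin_cases i; exact e.ne_zero 2)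
    (by intro i; fin_cases i; exact hcoord 0) (by intro i; fin_cases i; exact e.ne_zero 2)
  have c1 := cof _ _ (hmul g1)
  have c2 := cof _ _ (hmul g2)
  have c3 := cof _ _ (hmul g3)
  have m1 : mat (hol' hol e p g1) 0 0 ≠ 0 := by
    rw [mat_hol']
    exact hg1 0
  have n1 : mat (hol' hol e p g1⁻¹) 2 2 ≠ 0 := by
    rw [mat_hol']
    exact hg1' 0
  have n1' : mat (hol' hol e p g1⁻¹) 1 2 ≠ 0 := by
    rw [mat_hol']
    exact hg1' 1
  have m2 : mat (hol' hol e p g2) 0 0 ≠ 0 := by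
    rw [mat_hol']
    exact hg2 0
  have n2 : mat (hol' hol e p g2⁻¹) 2 2 ≠ 0 := by
    rw [mat_hol']
    exact hg2' 0
  have n2' : mat (hol' hol e p g2⁻¹) 2 1 ≠ 0 := by
    rw [mat_hol']
    exact hg2' 1
  have m3 : mat (hol' hol e p g3) 0 2 ≠ 0 := by
    rw [mat_hol']
    exact hg3 0
  have n3 : mat (hol' hol e p g3⁻¹) 0 2 ≠ 0 := by
    rw [mat_hol']
    exact hg3' 0
  obtain ⟨r1, r2, r3⟩ := hcore (hol' hol e p) _ γ l S hJ
    ⟨g1, m1, by rw [c1.1]; exact mul_ne_zero (hdet _) n1, by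
      rw [c1.2.1]; exact neg_ne_zero.2 (mul_ne_zero (hdet _) n1')⟩
    ⟨g2, m2, by rw [c2.1]; exact mul_ne_zero (hdet _) n2, by
      rw [c2.2.2.1]; exact neg_ne_zero.2 (mul_ne_zero (hdet _) n2')⟩
    ⟨g3, m3, by rw [c3.2.2.2]; exact neg_ne_zero.2 (mul_ne_zero (hdet _) n3)⟩
  refine ⟨r1, fun g => ?_, p, fun x y hx hy => ?_⟩
  · rw [← det_mat e p g, ← mat_hol' e p g, ← mat_hol' e p g⁻¹]
    have c := (cof _ _ (hmul g)).2.2.2
    by_cases hz : mat (hol' hol e p g) 0 2 = 0
    · rw [hz, zero_mul, mul_zero]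
    · have h4 := r2 g hz
      have h5 : kap (mat (hol' hol e p g)) * mat (hol' hol e p g) 0 2 =
          -((mat (hol' hol e p g)).det * mat (hol' hol e p g⁻¹) 0 2) := by
        rw [← c, kap, sub_mul, div_mul_cancel₀ _ hz]
        ring
      have h6 : (mat (hol' hol e p g)).det *
          (mat (hol' hol e p g) 0 2 * mat (hol' hol e p g⁻¹) 0 2) =
          -kap (mat (hol' hol e p g)) * (mat (hol' hol e p g) 0 2) ^ 2 := by
        linear_combination (mat (hol' hol e p g) 0 2) * h5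
      rw [h6]
      exact mul_nonneg (by linarith) (sq_nonneg _)
  · have key : ∀ x : X, e.coord 2 (dev x - p) = 0 →
        (![e.coord 0 (dev x - p), e.coord 1 (dev x - p), 0] : V3) ∈
          (coo e p).symm '' (Set.range dev) := by
      intro x hx
      refine ⟨dev x, ⟨x, rfl⟩, ?_⟩
      rw [coo_symm_apply]
      funext i
      fin_cases i
      · rfl
      · rfl
      · exact hx
    exact r3 _ _ _ _ (key x hx) (key y hy)

/-- there is a regular element with middle eigenvalue of modulus less than one -/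
theorem exists_regular (D : AffData X Γ E dev hol) (hinj : Function.Injective dev)
    (h3 : finrank ℝ E = 3) (hc : ¬ IsHomeomorph dev) :
    ∃ (γ : Γ) (e : Basis (Fin 3) ℝ E) (l : Fin 3 → ℝ), Reg (L hol γ) e l ∧ |l 1| < 1 := by
  have hpairs : S_pairs := t_pairs t_star
  have hboth : S_both := t_both hpairs t_rank1
  have hreg : S_reg := t_reg t_cubic
  obtain ⟨γ, e, l, hr, h1⟩ := t_mid t_star hboth hreg t_form (L hol) h3 (strIrr D hinj h3 hc)
    (noForm D hinj h3 hc) (L_det D) (unbounded D hinj h3 hc)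
  rcases lt_or_gt_of_ne h1 with h | h
  · exact ⟨γ, e, l, hr, h⟩
  · have h2 : Reg (L hol γ⁻¹) (e.reindex Fin.revPerm) (fun i => (l (Fin.rev i))⁻¹) := by
      rw [map_inv]
      exact hr.inv
    refine ⟨γ⁻¹, _, _, h2, ?_⟩
    show |(l 1)⁻¹| < 1
    rw [abs_inv]
    exact inv_lt_one_of_one_lt₀ h

/-- middle eigenvalues are positive -/
theorem middle_pos (hcore : S_core2) (D : AffData X Γ E dev hol) (hinj : Function.Injective dev)
    (h3 : finrank ℝ E = 3) (hc : ¬ IsHomeomorph dev) (γ : Γ) (e : Basis (Fin 3) ℝ E)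
    (l : Fin 3 → ℝ) (hr : Reg (L hol γ) e l) (h1 : |l 1| ≠ 1) : 0 < l 1 := by
  rcases lt_or_gt_of_ne h1 with h | h
  · exact (regular hcore D hinj h3 hc γ e l hr h).1
  · have h2 : Reg (L hol γ⁻¹) (e.reindex Fin.revPerm) (fun i => (l (Fin.rev i))⁻¹) := by
      rw [map_inv]
      exact hr.inv
    have h4 : |(l 1)⁻¹| < 1 := by
      rw [abs_inv]
      exact inv_lt_one_of_one_lt₀ h
    have h5 := (regular hcore D hinj h3 hc γ⁻¹ _ _ h2 h4).1
    exact inv_pos.1 h5

/-- the domain misses a half-plane -/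
theorem half_plane (hcore : S_core2) (D : AffData X Γ E dev hol) (hinj : Function.Injective dev)
    (h3 : finrank ℝ E = 3) (hc : ¬ IsHomeomorph dev) :
    ∃ p u w : E, LinearIndependent ℝ ![u, w] ∧
      ∀ (x : X) (s t : ℝ), 0 ≤ t → dev x ≠ p + s • u + t • w := by
  obtain ⟨γ, e, l, hr, h1⟩ := exists_regular D hinj h3 hc
  obtain ⟨-, -, p, hp⟩ := regular hcore D hinj h3 hc γ e l hr h1
  have hc0 : ∀ i j, e.coord i (e j) = if i = j then 1 else 0 := by
    intro i j
    rw [Basis.coord_apply, e.repr_self, Finsupp.single_apply]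
    simp only [eq_comm]
  have hcoord : e.coord 2 ≠ 0 := by
    intro h4
    have h5 := hc0 2 2
    rw [h4, if_pos rfl] at h5
    exact zero_ne_one h5
  obtain ⟨x0, hx0⟩ := plane_meets D (e.coord 2) hcoord (e.coord 2 p)
  have hx0' : e.coord 2 (dev x0 - p) = 0 := by
    rw [map_sub, hx0, sub_self]
  obtain ⟨ε, hε, hε'⟩ : ∃ ε : ℝ, ε ≠ 0 ∧ ε * e.coord 1 (dev x0 - p) < 0 := by
    have h4 := hp x0 x0 hx0' hx0'
    rcases lt_trichotomy (e.coord 1 (dev x0 - p)) 0 with h | h | h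
    · exact ⟨1, one_ne_zero, by linarith⟩
    · rw [h, mul_zero] at h4
      exact absurd h4 (lt_irrefl _)
    · exact ⟨-1, by norm_num, by linarith⟩
  refine ⟨p, e 0, ε • e 1, ?_, fun x s t ht hx => ?_⟩
  · rw [LinearIndependent.pair_iff]
    intro s t hst
    have h4 := congrArg (e.coord 0) hst
    have h5 := congrArg (e.coord 1) hst
    simp only [map_add, map_smul, hc0, smul_eq_mul, map_zero] at h4 h5
    norm_num at h4 h5
    exact ⟨h4, h5.resolve_right hε⟩
  · have h4 : e.coord 2 (dev x - p) = 0 := by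
      rw [hx]
      have : p + s • e 0 + t • ε • e 1 - p = s • e 0 + t • ε • e 1 := by abel
      rw [this, map_add, map_smul, map_smul, map_smul, hc0, hc0, if_neg (by decide),
        if_neg (by decide), smul_zero, smul_zero, smul_zero, add_zero]
    have h5 : e.coord 1 (dev x - p) = t * ε := by
      rw [hx]
      have : p + s • e 0 + t • ε • e 1 - p = s • e 0 + t • ε • e 1 := by abel
      rw [this]
      simp only [map_add, map_smul, hc0, smul_eq_mul]
      norm_num
    have h6 := hp x x0 h4 hx0'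
    rw [h5] at h6
    have h7 : t * (ε * e.coord 1 (dev x0 - p)) ≤ 0 := mul_nonpos_of_nonneg_of_nonpos ht hε'.le
    nlinarith

/-- the invariant cone -/
theorem cone (hcore : S_core2) (D : AffData X Γ E dev hol) (hinj : Function.Injective dev)
    (h3 : finrank ℝ E = 3) (hc : ¬ IsHomeomorph dev) :
    ∃ (C : Set (E →L[ℝ] E)) (φ : E →L[ℝ] ℝ) (a : E) (Θ : (E →L[ℝ] E) →ₗ[ℝ] ℝ) (c : ℝ),
      IsClosed C ∧ (∀ X ∈ C, ∀ Y ∈ C, X + Y ∈ C) ∧ (∀ t : ℝ, 0 ≤ t → ∀ X ∈ C, t • X ∈ C) ∧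
      φ ≠ 0 ∧ a ≠ 0 ∧ φ a = 0 ∧ φ.smulRight a ∈ C ∧
      (∀ g, ∀ X ∈ C, LinearMap.det (L hol g : E →ₗ[ℝ] E) •
        ((cl (L hol g)).comp (X.comp (cl (L hol g⁻¹)))) ∈ C) ∧
      0 < c ∧ ∀ X ∈ C, c * ‖X‖ ≤ Θ X := by
  obtain ⟨γ, e, l, hr, h1⟩ := exists_regular D hinj h3 hc
  obtain ⟨-, hpos, -⟩ := regular hcore D hinj h3 hc γ e l hr h1
  have hc0 : ∀ i j, e.coord i (e j) = if i = j then 1 else 0 := by
    intro i j
    rw [Basis.coord_apply, e.repr_self, Finsupp.single_apply]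
    simp only [eq_comm]
  have hφ : LinearMap.toContinuousLinearMap (e.coord 0) ≠ 0 := by
    intro h4
    have h5 := hc0 0 0
    rw [if_pos rfl] at h5
    have h6 : LinearMap.toContinuousLinearMap (e.coord 0) (e 0) = 1 := h5
    rw [h4] at h6
    exact zero_ne_one h6
  obtain ⟨C, k1, k2, k3, k4, k5, Θ, c, k6, k7⟩ := t_cone (t_pairs t_star) (L hol)
    (strIrr D hinj h3 hc) (L_det D) (LinearMap.toContinuousLinearMap (e.coord 0)) (e 2) hφ
    (e.ne_zero 2) hpos
  refine ⟨C, _, e 2, Θ, c, k1, k2, k3, hφ, e.ne_zero 2, ?_, k4, k5, k6, k7⟩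
  show e.coord 0 (e 2) = 0
  rw [hc0, if_neg (by decide)]

/-- elements with a non-real eigenvalue have finite order -/
theorem real_eigenvalues (hcore : S_core2) (D : AffData X Γ E dev hol)
    (hinj : Function.Injective dev) (h3 : finrank ℝ E = 3) (hc : ¬ IsHomeomorph dev) (g : Γ)
    (m : ℂ) (u w : E) (hm : m.im ≠ 0) (huw : u ≠ 0 ∨ w ≠ 0)
    (hu : L hol g u = m.re • u - m.im • w) (hw : L hol g w = m.im • u + m.re • w) :
    ∃ n : ℕ, 0 < n ∧ g ^ n = 1 := by
  obtain ⟨C, φ, a, Θ, c, k1, k2, k3, k4, k5, k6, k7, k8, k9, k10⟩ := cone hcore D hinj h3 hc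
  have h1 : ‖m‖ = 1 := t_real (t_pairs t_star) (L hol) h3 (strIrr D hinj h3 hc) (L_det D) φ a k4 k5
    C Θ c k1 k3 k7 k8 k9 k10 g m u w hm huw hu hw
  obtain ⟨R, hR⟩ := t_bdd h3 (L hol g) (L_det D g) m u w hm h1 huw hu hw
  by_contra hcon
  push Not at hcon
  apply hc
  refine RB.proper_or_complete D hinj h3 R ?_
  have h2 : Function.Injective fun n : ℕ => g ^ n := by
    intro i j hij
    by_contra hne
    rcases lt_or_gt_of_ne hne with h | h
    · apply hcon (j - i) (by omega)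
      have h4 : g ^ i * g ^ (j - i) = g ^ i := by
        rw [← pow_add, Nat.add_sub_cancel' h.le]
        exact hij.symm
      exact mul_eq_left.1 h4
    · apply hcon (i - j) (by omega)
      have h4 : g ^ j * g ^ (i - j) = g ^ j := by
        rw [← pow_add, Nat.add_sub_cancel' h.le]
        exact hij
      exact mul_eq_left.1 h4
  refine (Set.infinite_range_of_injective h2).mono ?_
  rintro _ ⟨n, rfl⟩ v
  have h4 := hR n v
  have h5 : (L hol g ^ n) v = lin hol (g ^ n) v := by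
    rw [← map_pow]
    rfl
  rw [h5] at h4
  exact h4

end

end Pool.Agent.H817.PH
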