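import Pool.Agent.H817.PH.Stm

/-!
Regular elements with a middle eigenvalue of modulus not one (helper441 for helper817).
-/

set_option autoImplicit false

namespace Pool.Agent.H817.PH

open Set Filter Topology Module

section

variable {E : Type} [NormedAddCommGroup E] [NormedSpace ℝ E] [FiniteDimensional ℝ E]

/-- the projections of a basis -/
noncomputable def mid_pr (e : Basis (Fin 3) ℝ E) (i : Fin 3) : E →L[ℝ] E :=
  LinearMap.toContinuousLinearMap ((e.coord i).smulRight (e i))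

lemma mid_pr_apply (e : Basis (Fin 3) ℝ E) (i : Fin 3) (v : E) :
    mid_pr e i v = e.coord i v • e i := rfl

lemma mid_cl_apply (T : E ≃ₗ[ℝ] E) (v : E) : cl T v = T v := rfl

lemma mid_sum_pr (e : Basis (Fin 3) ℝ E) (a : Fin 3 → ℝ) (j : Fin 3) :
    (∑ i, a i • mid_pr e i) (e j) = a j • e j := by
  rw [sum_apply, Finset.sum_eq_single j]
  · rw [smul_apply, mid_pr_apply]
    simp
  · intro i _ hij
    rw [smul_apply, mid_pr_apply]
    simp [Finsupp.single_eq_of_ne hij]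
  · intro h
    exact absurd (Finset.mem_univ j) h

lemma mid_cl_eq (e : Basis (Fin 3) ℝ E) (a : Fin 3 → ℝ) (T : E ≃ₗ[ℝ] E)
    (h : ∀ j, T (e j) = a j • e j) : cl T = ∑ i, a i • mid_pr e i := by
  have : ((cl T : E →L[ℝ] E) : E →ₗ[ℝ] E) = ((∑ i, a i • mid_pr e i : E →L[ℝ] E) : E →ₗ[ℝ] E) := by
    refine e.ext fun j => ?_
    change cl T (e j) = (∑ i, a i • mid_pr e i) (e j)
    rw [mid_cl_apply, h, mid_sum_pr]
  exact ContinuousLinearMap.coe_injective this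

lemma mid_cl_mul (S T : E ≃ₗ[ℝ] E) : cl (S * T) = (cl S).comp (cl T) := rfl

omit [FiniteDimensional ℝ E] in
lemma mid_pow_eig (e : Basis (Fin 3) ℝ E) (a : Fin 3 → ℝ) (T : E ≃ₗ[ℝ] E)
    (h : ∀ j, T (e j) = a j • e j) (n : ℕ) : ∀ j, (T ^ n) (e j) = a j ^ n • e j := by
  intro j
  induction n with
  | zero => simp
  | succ n ih =>
    rw [pow_succ, LinearEquiv.mul_apply, h, map_smul, ih, smul_smul, pow_succ, mul_comm]

omit [FiniteDimensional ℝ E] in
lemma mid_inv_eig (e : Basis (Fin 3) ℝ E) (a : Fin 3 → ℝ) (T : E ≃ₗ[ℝ] E)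
    (h : ∀ j, T (e j) = a j • e j) (h0 : ∀ j, a j ≠ 0) :
    ∀ j, (T⁻¹) (e j) = (a j)⁻¹ • e j := by
  intro j
  have h1 : T ((a j)⁻¹ • e j) = e j := by
    rw [map_smul, h, smul_smul, inv_mul_cancel₀ (h0 j), one_smul]
  have h2 : T⁻¹ (T ((a j)⁻¹ • e j)) = (a j)⁻¹ • e j := by
    rw [← LinearEquiv.mul_apply, inv_mul_cancel]
    rfl
  rw [h1] at h2
  exact h2

/-- the limit of the powers -/
lemma mid_tendsto (e : Basis (Fin 3) ℝ E) (b : Fin 3 → ℝ) (k : Fin 3) (hk : b k ^ 2 = 1)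
    (hb : ∀ i, i ≠ k → |b i| < 1) :
    Tendsto (fun n : ℕ => ∑ i, b i ^ (2 * n) • mid_pr e i) atTop (𝓝 (mid_pr e k)) := by
  have h1 : ∀ i, Tendsto (fun n : ℕ => b i ^ (2 * n) • mid_pr e i) atTop
      (𝓝 (if i = k then mid_pr e k else 0)) := by
    intro i
    by_cases hik : i = k
    · subst hik
      simp only [if_true]
      have : ∀ n : ℕ, b i ^ (2 * n) • mid_pr e i = mid_pr e i := by
        intro n
        rw [pow_mul, hk, one_pow, one_smul]
      simp only [this]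
      exact tendsto_const_nhds
    · simp only [if_neg hik]
      have h2 : |b i ^ 2| < 1 := by
        rw [abs_pow]
        exact pow_lt_one₀ (abs_nonneg _) (hb i hik) two_ne_zero
      have h3 := (tendsto_pow_atTop_nhds_zero_of_abs_lt_one h2).smul_const (mid_pr e i)
      rw [zero_smul] at h3
      refine h3.congr fun n => ?_
      rw [pow_mul]
  have h2 := tendsto_finsetSum Finset.univ fun i _ => h1 i
  rw [Finset.sum_ite_eq' Finset.univ k] at h2
  simpa using h2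

omit [FiniteDimensional ℝ E] in
lemma mid_det (e : Basis (Fin 3) ℝ E) (a : Fin 3 → ℝ) (T : E ≃ₗ[ℝ] E)
    (h : ∀ j, T (e j) = a j • e j) :
    LinearMap.det (T : E →ₗ[ℝ] E) = a 0 * a 1 * a 2 := by
  rw [← LinearMap.det_toMatrix e]
  have : LinearMap.toMatrix e e (T : E →ₗ[ℝ] E) = Matrix.diagonal a := by
    ext i j
    rw [LinearMap.toMatrix_apply, LinearEquiv.coe_coe, h, map_smul, e.repr_self,
      Finsupp.smul_apply, Matrix.diagonal_apply, smul_eq_mul]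
    by_cases hij : i = j
    · subst hij
      simp
    · rw [Finsupp.single_eq_of_ne hij, if_neg hij, mul_zero]
  rw [this, Matrix.det_diagonal, Fin.prod_univ_three]

end

/-- the action on `E × E*` -/
noncomputable def mid_rho {Γ E : Type} [Group Γ] [AddCommGroup E] [Module ℝ E]
    (L : Γ →* (E ≃ₗ[ℝ] E)) : Γ →* ((E × Dual ℝ E) ≃ₗ[ℝ] (E × Dual ℝ E)) where
  toFun g := LinearEquiv.prodCongr (L g) (LinearEquiv.dualMap (L g⁻¹))
  map_one' := by
    refine LinearEquiv.ext fun z => ?_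
    refine Prod.ext ?_ ?_
    · simp
    · refine LinearMap.ext fun v => ?_
      simp
  map_mul' g h := by
    refine LinearEquiv.ext fun z => ?_
    refine Prod.ext ?_ ?_
    · simp
    · refine LinearMap.ext fun v => ?_
      simp

lemma mid_rho_fst {Γ E : Type} [Group Γ] [AddCommGroup E] [Module ℝ E]
    (L : Γ →* (E ≃ₗ[ℝ] E)) (g : Γ) (z : E × Dual ℝ E) : (mid_rho L g z).1 = L g z.1 := rfl

lemma mid_rho_snd {Γ E : Type} [Group Γ] [AddCommGroup E] [Module ℝ E]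
    (L : Γ →* (E ≃ₗ[ℝ] E)) (g : Γ) (z : E × Dual ℝ E) (v : E) :
    (mid_rho L g z).2 v = z.2 (L g⁻¹ v) := rfl

/-- the choice of `δ` -/
lemma mid_choice (h1 : S_star) (h4 : S_form) {Γ E : Type} [Group Γ] [NormedAddCommGroup E]
    [NormedSpace ℝ E] [FiniteDimensional ℝ E] (L : Γ →* (E ≃ₗ[ℝ] E)) (hfin : finrank ℝ E = 3)
    (hirr : StrIrr L) (hnf : NoForm L) (e : Basis (Fin 3) ℝ E) :
    ∃ δ : Γ, e.coord 0 (L δ (e 0)) ≠ 0 ∧ e.coord 2 (L δ⁻¹ (e 2)) ≠ 0 ∧
      |e.coord 0 (L δ (e 0))| ≠ |e.coord 2 (L δ⁻¹ (e 2))| := by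
  by_contra hcon
  push Not at hcon
  set F0 : (E × Dual ℝ E) →ₗ[ℝ] ℝ := (e.coord 0) ∘ₗ LinearMap.fst ℝ E (Dual ℝ E) with hF0
  set F1 : (E × Dual ℝ E) →ₗ[ℝ] ℝ :=
    (Dual.eval ℝ E (e 2)) ∘ₗ LinearMap.snd ℝ E (Dual ℝ E) with hF1
  have hx : ∀ g, F0 (mid_rho L g (e 0, e.coord 2)) = e.coord 0 (L g (e 0)) := fun g => rfl
  have hy : ∀ g, F1 (mid_rho L g (e 0, e.coord 2)) = e.coord 2 (L g⁻¹ (e 2)) := fun g => rfl
  set f : Fin 4 → ((E × Dual ℝ E) →ₗ[ℝ] ℝ) := ![F0, F1, F0 - F1, F0 + F1] with hf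
  have hall : ∀ g : Γ, ∃ i, f i (mid_rho L g (e 0, e.coord 2)) = 0 := by
    intro g
    by_cases h0 : e.coord 0 (L g (e 0)) = 0
    · exact ⟨0, (hx g).trans h0⟩
    by_cases h2 : e.coord 2 (L g⁻¹ (e 2)) = 0
    · exact ⟨1, (hy g).trans h2⟩
    rcases abs_eq_abs.1 (hcon g h0 h2) with h | h
    · refine ⟨2, ?_⟩
      change F0 (mid_rho L g (e 0, e.coord 2)) - F1 (mid_rho L g (e 0, e.coord 2)) = 0
      rw [hx, hy, h, sub_self]
    · refine ⟨3, ?_⟩
      change F0 (mid_rho L g (e 0, e.coord 2)) + F1 (mid_rho L g (e 0, e.coord 2)) = 0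
      rw [hx, hy, h, neg_add_cancel]
  obtain ⟨K, hK, i, hi⟩ := h1 Γ (E × Dual ℝ E) (Fin 4) (mid_rho L) (e 0, e.coord 2) f hall
  have e0 : e.coord 0 (L 1 (e 0)) = 1 := by simp
  have e2 : e.coord 2 (L (1 : Γ)⁻¹ (e 2)) = 1 := by simp
  have hone := hi 1 K.one_mem
  fin_cases i
  · have h5 : F0 (mid_rho L 1 (e 0, e.coord 2)) = 0 := hone
    rw [hx, e0] at h5
    exact one_ne_zero h5
  · have h5 : F1 (mid_rho L 1 (e 0, e.coord 2)) = 0 := hone
    rw [hy, e2] at h5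
    exact one_ne_zero h5
  · refine h4 L hfin hirr hnf K hK (e.coord 0) (e.coord 2) (e 0) (e 2) ?_ ?_ (e.ne_zero 0)
      (e.ne_zero 2) ?_
    · intro h
      have := LinearMap.congr_fun h (e 0)
      simp at this
    · intro h
      have := LinearMap.congr_fun h (e 2)
      simp at this
    · intro g hg
      have h5 : F0 (mid_rho L g (e 0, e.coord 2)) - F1 (mid_rho L g (e 0, e.coord 2)) = 0 := hi g hg
      rw [hx, hy] at h5
      linarith
  · have h5 : F0 (mid_rho L 1 (e 0, e.coord 2)) + F1 (mid_rho L 1 (e 0, e.coord 2)) = 0 := hone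
    rw [hx, hy, e0, e2] at h5
    norm_num at h5

theorem t_mid (h1 : S_star) (h2 : S_both) (h3 : S_reg) (h4 : S_form) : S_mid := by
  intro Γ E _ _ _ _ L hfin hirr hnf hdet hunb
  obtain ⟨f, c, P, Q, hc, hP, hQ, hfP, hfQ⟩ := h2 L hfin hirr hdet hunb
  obtain ⟨n0, e, l, hreg, -⟩ :=
    (h3 hfin (fun n => L (f n)) c P Q (fun n => hdet _) hc hP hQ hfP
      (by simpa only [map_inv] using hfQ) 1 one_pos).exists
  by_cases hl : |l 1| = 1
  swap
  · exact ⟨f n0, e, l, hreg, hl⟩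
  set γ : Γ := f n0 with hγ
  have heig : ∀ j, L γ (e j) = l j • e j := hreg.eig
  have hl0 : 1 < |l 0| := hl ▸ hreg.h0
  have hdet0 : |l 0 * l 1 * l 2| = 1 := by
    rw [← mid_det e l (L γ) heig]
    exact hdet γ
  have hl02 : |l 0 * l 2| = 1 := by
    rw [mul_right_comm, abs_mul, hl, mul_one] at hdet0
    exact hdet0
  have hne : ∀ j, l j ≠ 0 := by
    intro j
    fin_cases j
    · exact abs_pos.1 (by change 0 < |l 0|; linarith)
    · exact abs_pos.1 (by change 0 < |l 1|; rw [hl]; exact one_pos)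
    · exact hreg.h2
  have hne0 : l 0 ≠ 0 := hne 0
  obtain ⟨δ, hx, hy, hxy⟩ := mid_choice h1 h4 L hfin hirr hnf e
  set x : ℝ := e.coord 0 (L δ (e 0)) with hxdef
  set y : ℝ := e.coord 2 (L δ⁻¹ (e 2)) with hydef
  -- the two limits
  have hT : ∀ n : ℕ, L (γ ^ (2 * n) * δ) = (L γ) ^ (2 * n) * L δ := by
    intro n
    rw [map_mul, map_pow]
  have hTi : ∀ n : ℕ, L (γ ^ (2 * n) * δ)⁻¹ = L δ⁻¹ * ((L γ)⁻¹) ^ (2 * n) := by
    intro n
    rw [mul_inv_rev, map_mul, ← inv_pow, map_pow, map_inv L γ]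
  have hclT : ∀ n : ℕ, ((l 0) ^ (2 * n))⁻¹ • cl (L (γ ^ (2 * n) * δ)) =
      (∑ i, ((l i) / l 0) ^ (2 * n) • mid_pr e i).comp (cl (L δ)) := by
    intro n
    rw [hT, mid_cl_mul, mid_cl_eq e (fun i => l i ^ (2 * n)) _ (mid_pow_eig e l (L γ) heig (2 * n)),
      ← ContinuousLinearMap.smul_comp, Finset.smul_sum]
    congr 1
    refine Finset.sum_congr rfl fun i _ => ?_
    rw [smul_smul, div_pow, div_eq_inv_mul]
  have hclTi : ∀ n : ℕ, ((l 0) ^ (2 * n))⁻¹ • cl (L (γ ^ (2 * n) * δ)⁻¹) =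
      (cl (L δ⁻¹)).comp (∑ i, ((l 0 * l i)⁻¹) ^ (2 * n) • mid_pr e i) := by
    intro n
    rw [hTi, mid_cl_mul, mid_cl_eq e (fun i => (l i)⁻¹ ^ (2 * n)) _
      (mid_pow_eig e (fun i => (l i)⁻¹) _ (mid_inv_eig e l (L γ) heig hne) (2 * n)),
      ← ContinuousLinearMap.comp_smul, Finset.smul_sum]
    congr 1
    refine Finset.sum_congr rfl fun i _ => ?_
    rw [smul_smul, mul_inv, mul_pow, ← inv_pow]
  have ht1 : Tendsto (fun n : ℕ => ((l 0) ^ (2 * n))⁻¹ • cl (L (γ ^ (2 * n) * δ))) atTop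
      (𝓝 ((mid_pr e 0).comp (cl (L δ)))) := by
    simp only [hclT]
    have h5 := mid_tendsto e (fun i => l i / l 0) 0 (by simp [hne0]) (by
      intro i hi
      rw [abs_div, div_lt_one (by linarith)]
      fin_cases i
      · exact absurd rfl hi
      · exact hreg.h0
      · exact hreg.h1.trans hreg.h0)
    exact ((continuous_id.clm_comp continuous_const).tendsto (mid_pr e 0)).comp h5
  have ht2 : Tendsto (fun n : ℕ => ((l 0) ^ (2 * n))⁻¹ • cl (L (γ ^ (2 * n) * δ)⁻¹)) atTop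
      (𝓝 ((cl (L δ⁻¹)).comp (mid_pr e 2))) := by
    simp only [hclTi]
    have h5 := mid_tendsto e (fun i => (l 0 * l i)⁻¹) 2 (by
        rw [inv_pow, ← sq_abs, hl02, one_pow, inv_one]) (by
      intro i hi
      rw [abs_inv]
      refine inv_lt_one_of_one_lt₀ ?_
      rw [abs_mul]
      fin_cases i
      · change 1 < |l 0| * |l 0|
        nlinarith
      · change 1 < |l 0| * |l 1|
        rw [hl, mul_one]
        exact hl0
      · exact absurd rfl hi)
    exact ((continuous_const.clm_comp continuous_id).tendsto (mid_pr e 2)).comp h5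
  have htr1 : LinearMap.trace ℝ E (((mid_pr e 0).comp (cl (L δ)) : E →L[ℝ] E) : E →ₗ[ℝ] E) = x := by
    have : (((mid_pr e 0).comp (cl (L δ)) : E →L[ℝ] E) : E →ₗ[ℝ] E) =
        ((e.coord 0) ∘ₗ (L δ : E →ₗ[ℝ] E)).smulRight (e 0) := rfl
    rw [this, LinearMap.trace_smulRight]
    rfl
  have htr2 : LinearMap.trace ℝ E (((cl (L δ⁻¹)).comp (mid_pr e 2) : E →L[ℝ] E) : E →ₗ[ℝ] E) =
      y := by
    have : (((cl (L δ⁻¹)).comp (mid_pr e 2) : E →L[ℝ] E) : E →ₗ[ℝ] E) =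
        (e.coord 2).smulRight (L δ⁻¹ (e 2)) := by
      refine LinearMap.ext fun v => ?_
      change L δ⁻¹ (e.coord 2 v • e 2) = e.coord 2 v • L δ⁻¹ (e 2)
      rw [map_smul]
    rw [this, LinearMap.trace_smulRight]
  have hcinf : Tendsto (fun n : ℕ => (l 0) ^ (2 * n)) atTop atTop := by
    have h5 : 1 < (l 0) ^ 2 := by
      rw [← sq_abs]
      nlinarith
    refine (tendsto_pow_atTop_atTop_of_one_lt h5).congr fun n => ?_
    rw [pow_mul]
  have hε : 0 < |(1 - |y / x|)| := by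
    rw [abs_pos, sub_ne_zero]
    intro h
    rw [abs_div, eq_div_iff (abs_pos.2 hx).ne', one_mul] at h
    exact hxy h
  obtain ⟨n, e', l', hreg', hlt⟩ :=
    (h3 hfin (fun n => L (γ ^ (2 * n) * δ)) (fun n => (l 0) ^ (2 * n)) _ _ (fun n => hdet _) hcinf
      (by rw [htr1]; exact hx) (by rw [htr2]; exact hy) ht1
      (by simpa only [map_inv] using ht2) _ hε).exists
  refine ⟨γ ^ (2 * n) * δ, e', l', hreg', ?_⟩
  intro h
  rw [h, htr1, htr2] at hlt
  exact lt_irrefl _ hlt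

end Pool.Agent.H817.PH
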