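import Mathlib

/-!
Groups of volume preserving affine transformations of the 3-space which act properly
discontinuously on an open set, and their linear parts: statements of the lemmas, with proofs.
-/

set_option autoImplicit false

namespace Pool.Agent.H817.PH

open Set Filter Topology Module

/-! ### Part 1: dynamics in coordinates -/

/-- the affine space of dimension three, with coordinates -/
abbrev V3 : Type := Fin 3 → ℝ

/-- matrices -/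
abbrev M3 : Type := Matrix (Fin 3) (Fin 3) ℝ

/-- matrix of the linear part: `(T.linear v) i = ∑ j, mat T i j * v j` -/
noncomputable def mat (T : V3 ≃ᵃ[ℝ] V3) : M3 := LinearMap.toMatrix' (T.linear : V3 →ₗ[ℝ] V3)

/-- transition number -/
noncomputable def kap (M : M3) : ℝ := M 1 1 - M 1 2 * M 0 1 / M 0 2

/-- Schur number -/
noncomputable def sch (M : M3) : ℝ := M 1 1 - M 1 0 * M 0 1 / M 0 0

/-- The group `Γ` acts by affine transformations, properly discontinuously on the open set `Ω`, and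
`γ` is the diagonal matrix with the entries `l 0, l 1, l 2`, `|l 2| < |l 1| < 1 < |l 0|`. -/
structure Setup {Γ : Type} [Group Γ] (hol : Γ →* (V3 ≃ᵃ[ℝ] V3)) (Ω : Set V3) (γ : Γ)
    (l : Fin 3 → ℝ) : Prop where
  op : IsOpen Ω
  inv : ∀ g : Γ, ∀ z ∈ Ω, hol g z ∈ Ω
  pd : ∀ z ∈ Ω, ∀ z' ∈ Ω, ∀ (q : ℕ → V3) (g : ℕ → Γ), Tendsto q atTop (𝓝 z) →
    Tendsto (fun n => hol (g n) (q n)) atTop (𝓝 z') → (Set.range g).Finite
  det : ∀ g : Γ, |(mat (hol g)).det| = 1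
  act : ∀ (v : V3) (i : Fin 3), hol γ v i = l i * v i
  h0 : 1 < |l 0|
  h1 : |l 1| < 1
  h2 : |l 2| < |l 1|
  h3 : l 2 ≠ 0

/-- NO DYNAMICAL RELATION. Suppose `(a', κ b, 0) ∈ Ω`, `κ = kap D`, `D = mat (hol g)`,
`d = hol g 0`. Let `c n = l2 ^ n (l0 ^ (-n) (a' - D00 a) - D01 l1 ^ (-n) b - d0) / D02`, so
`c n → 0` (`|l2 / l1| < 1`), `q n = (a, b, c n) → (a, b, 0) ∈ Ω`. Then
`hol (γ ^ n g γ ^ (-n)) (q n)` has the first coordinate `a'`, exactly; the second one is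
`l1 ^ n (D10 l0 ^ (-n) a + D11 l1 ^ (-n) b + D12 l2 ^ (-n) c n + d1) → D11 b - D12 D01 b / D02 =
κ b`, and the third one `l2 ^ n (D20 l0 ^ (-n) a + D21 l1 ^ (-n) b + D22 l2 ^ (-n) c n + d2) → 0`.
By `pd` the set of the elements `γ ^ n g γ ^ (-n)` is finite, so `g γ ^ N = γ ^ N g` for some
`N > 0`, and `D02 l2 ^ N = l0 ^ N D02`, `D02 = 0`: contradiction. -/
def S_dyn : Prop := ∀ {Γ : Type} [Group Γ] (hol : Γ →* (V3 ≃ᵃ[ℝ] V3)) (Ω : Set V3) (γ : Γ)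
  (l : Fin 3 → ℝ), Setup hol Ω γ l → ∀ g : Γ, mat (hol g) 0 2 ≠ 0 → ∀ a a' b : ℝ,
  (![a, b, 0] : V3) ∈ Ω → (![a', kap (mat (hol g)) * b, 0] : V3) ∉ Ω

/-- COMPOSITION 1. `P = M1 diag(l) ^ n M2`. With the minors `m (I, J)`, rows `I`, columns `J`:
`kap P = - m(01,12)(P) / P02` and `m(01,12)(P) = ∑_I m(01,I)(M1) l_I ^ n m(I,12)(M2)`
(Cauchy-Binet, `l_I` is the product of the `l i`, `i ∈ I`; by hand `ring`), `P02 =
∑_i M1_0i l_i ^ n M2_i2`. Divide by `(l0 l1) ^ n` and by `l0 ^ n`. -/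
def S_comp : Prop := ∀ (l : Fin 3 → ℝ) (M1 M2 : M3), |l 1| < |l 0| → |l 2| < |l 1| → l 2 ≠ 0 →
  M1 0 0 ≠ 0 → M2 0 2 ≠ 0 →
  (∀ᶠ n : ℕ in atTop, (M1 * Matrix.diagonal l ^ n * M2) 0 2 ≠ 0) ∧
  Tendsto (fun n : ℕ => kap (M1 * Matrix.diagonal l ^ n * M2) / l 1 ^ n) atTop
    (𝓝 (sch M1 * kap M2))

/-- COMPOSITION 2. The same for `sch P = m(01,01)(P) / P00`. -/
def S_comp' : Prop := ∀ (l : Fin 3 → ℝ) (M1 M2 : M3), |l 1| < |l 0| → |l 2| < |l 1| → l 2 ≠ 0 →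
  M1 0 0 ≠ 0 → M2 0 0 ≠ 0 →
  (∀ᶠ n : ℕ in atTop, (M1 * Matrix.diagonal l ^ n * M2) 0 0 ≠ 0) ∧
  Tendsto (fun n : ℕ => sch (M1 * Matrix.diagonal l ^ n * M2) / l 1 ^ n) atTop
    (𝓝 (sch M1 * sch M2))

/-- NOT CONSTANT. Let `A_I = m(01,I)(M1) m(I,01)(M2)`, `B_i = M1_0i M2_i0`, `c = A_01 / B_0 =
sch M1 * sch M2`. If `sch P = c l1 ^ n` for all large `n`, then
`(l0 l1) ^ n A_01 + (l0 l2) ^ n A_02 + (l1 l2) ^ n A_12 =
c l1 ^ n (l0 ^ n B_0 + l1 ^ n B_1 + l2 ^ n B_2)`, i.e.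
`(l0 l2) ^ n A_02 = - (l1 l2) ^ n (A_12 - c B_2) + c l1 ^ (2 n) B_1 → 0`, but `|l0 l2| > 1` and
`A_02 ≠ 0`. -/
def S_nonconst : Prop := ∀ (l : Fin 3 → ℝ) (M1 M2 : M3), 1 < |l 0| → |l 1| < 1 → |l 2| < |l 1| →
  l 2 ≠ 0 → |l 0 * l 1 * l 2| = 1 → M1 0 0 ≠ 0 → M2 0 0 ≠ 0 →
  M1 0 0 * M1 1 2 - M1 0 2 * M1 1 0 ≠ 0 → M2 0 0 * M2 2 1 - M2 0 1 * M2 2 0 ≠ 0 →
  ∃ᶠ n : ℕ in atTop, sch (M1 * Matrix.diagonal l ^ n * M2) / l 1 ^ n ≠ sch M1 * sch M2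

/-- CLOSED SEMIGROUPS of real numbers. Let `A` be the set of the logarithms of the positive
elements of `T`: a closed additive semigroup of `ℝ` with `τ, -τ ∈ A`, `τ = 2 log |l|`. For `a ∈ A`
there are `n k ≥ 1`, `j k : ℤ` with `n k a + j k τ → 0` (pigeonhole modulo `τ`), so
`(n k - 1) a + j k τ → - a ∈ A`: `A` is a closed subgroup, so it is `ℝ` or cyclic
(`AddSubgroup.dense_or_cyclic`). If it was cyclic, it would be discrete; the sequence `t n` has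
eventually the sign of `t∞ ≠ 0`; if `t∞ > 0`, `log (t n) → log t∞` is eventually constant; if
`t∞ < 0`, the same holds for `log (t n * t n0)`, `n0` large and fixed. So `t n` is eventually
constant, a contradiction. So `T` contains all positive numbers. If `l < 0` and `x < 0`, then
`x = (x / l) l`. -/
def S_semi : Prop := ∀ (T : Set ℝ) (l : ℝ) (t : ℕ → ℝ) (t' : ℝ), IsClosed T →
  (∀ x ∈ T, ∀ y ∈ T, x * y ∈ T) → l ∈ T → l⁻¹ ∈ T → l ≠ 0 → |l| < 1 → (∀ᶠ n in atTop, t n ∈ T) →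
  Tendsto t atTop (𝓝 t') → t' ≠ 0 → (∃ᶠ n in atTop, t n ≠ t') →
  (∀ x : ℝ, 0 < x → x ∈ T) ∧ (l < 0 → ∀ x : ℝ, x ≠ 0 → x ∈ T)

/-- CORE. Prove `S_dyn → S_comp → S_comp' → S_nonconst → S_semi → S_core`.

Proof. Write `M g = mat (hol g)`, `M (g h) = M g * M h`, `M (γ ^ n) = diagonal l ^ n`. Let `J` be
the set of all `b` with `(a, b, 0) ∈ Ω` for some `a`: open, nonempty, `l1 J = J`. The set `K0` of
all `t` such that `t b ∉ J` for all `b ∈ J` is closed, `l1 K0 = K0`, and `1 ∉ K0`. By `S_dyn`,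
`kap (M g) ∈ K0` if `M g 0 2 ≠ 0`. Let `K` be the closure of the set of all `l1 ^ j kap (M g)`,
`j : ℤ`, `M g 0 2 ≠ 0`; `K ⊆ K0`. Let `T` be the set of all `t` with `t K ⊆ K`, a closed
multiplicative semigroup, `l1, l1⁻¹ ∈ T`. By `S_comp`, `sch (M d) ∈ T` if `M d 0 0 ≠ 0`. Let `d1`,
`d2` be the elements of the hypotheses and `P n = M (d1 γ ^ n d2)`. By `S_comp'` and `S_nonconst`
the sequence `sch (P n) / l1 ^ n ∈ T` (for large `n`) converges to `sch (M d1) sch (M d2) ≠ 0` and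
is not eventually constant, so by `S_semi` `T` contains all positive numbers, and all nonzero
numbers if `l1 < 0`. In this case, with `g` the third element, `kap (M g) ∈ K` is nonzero and its
inverse is in `T`, so `1 ∈ K ⊆ K0`: contradiction. So `0 < l1`. If `kap (M g) > 0` for some `g`,
`M g 0 2 ≠ 0`, then again `1 ∈ K`. -/
def S_core : Prop := ∀ {Γ : Type} [Group Γ] (hol : Γ →* (V3 ≃ᵃ[ℝ] V3)) (Ω : Set V3) (γ : Γ)
  (l : Fin 3 → ℝ), Setup hol Ω γ l → (∃ a b : ℝ, (![a, b, 0] : V3) ∈ Ω) →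
  (∃ g : Γ, mat (hol g) 0 0 ≠ 0 ∧
    mat (hol g) 0 0 * mat (hol g) 1 1 - mat (hol g) 0 1 * mat (hol g) 1 0 ≠ 0 ∧
    mat (hol g) 0 0 * mat (hol g) 1 2 - mat (hol g) 0 2 * mat (hol g) 1 0 ≠ 0) →
  (∃ g : Γ, mat (hol g) 0 0 ≠ 0 ∧
    mat (hol g) 0 0 * mat (hol g) 1 1 - mat (hol g) 0 1 * mat (hol g) 1 0 ≠ 0 ∧
    mat (hol g) 0 0 * mat (hol g) 2 1 - mat (hol g) 0 1 * mat (hol g) 2 0 ≠ 0) →
  (∃ g : Γ, mat (hol g) 0 2 ≠ 0 ∧
    mat (hol g) 0 2 * mat (hol g) 1 1 - mat (hol g) 0 1 * mat (hol g) 1 2 ≠ 0) →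
  0 < l 1 ∧ ∀ g : Γ, mat (hol g) 0 2 ≠ 0 → kap (mat (hol g)) ≤ 0

/-! ### Part 2: strongly irreducible linear groups -/

/-- LINEAR ZARISKI CLOSURE. Let `O` be the orbit of `v0`. Call a subspace `U` of `V` *full* if
`O ∩ U` is nonempty and not contained in a finite union of proper subspaces of `U`. (1) `O` is
contained in a finite union of full subspaces: by induction on the dimension, for every subspace `U`
the set `O ∩ U` is contained in a finite union of full subspaces of `U`. (2) A full subspace which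
is contained in a finite union of subspaces `U_j` (it is enough that `O ∩ U` is) is contained in one
of them. So the set of the maximal elements of the finite set in (1) is the set of all maximal full
subspaces; it is finite, and `G` permutes it, as `ρ g` maps `O` to `O`. Let `U` be a maximal full
subspace which contains `v0`; its stabiliser `K` has finite index. `O ∩ U` is contained in the union
of the `U ∩ ker f i`, so `U ≤ ker f i` for some `i`, and for `g ∈ K`, `ρ g v0 ∈ U`. -/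
def S_star : Prop := ∀ (G V ι : Type) [Group G] [AddCommGroup V] [Module ℝ V]
  [FiniteDimensional ℝ V] [Finite ι] (ρ : G →* (V ≃ₗ[ℝ] V)) (v0 : V) (f : ι → (V →ₗ[ℝ] ℝ)),
  (∀ g : G, ∃ i, f i (ρ g v0) = 0) →
  ∃ K : Subgroup G, K.FiniteIndex ∧ ∃ i, ∀ g ∈ K, f i (ρ g v0) = 0

/-- no proper subspace is invariant under a subgroup of finite index -/
def StrIrr {Γ E : Type} [Group Γ] [AddCommGroup E] [Module ℝ E] (L : Γ →* (E ≃ₗ[ℝ] E)) : Prop :=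
  ∀ K : Subgroup Γ, K.FiniteIndex → ∀ W : Submodule ℝ E, (∀ g ∈ K, ∀ w ∈ W, L g w ∈ W) →
    W = ⊥ ∨ W = ⊤

/-- NONVANISHING MATRIX COEFFICIENTS. Prove `S_star → S_pairs`. Apply `S_star` to the space
`(E →ₗ E) × (E →ₗ E)` with the action `(A, B) ↦ (L g A, B (L g)⁻¹)` and the vector `(1, 1)`, and the
linear forms `(A, B) ↦ φ i (A (v i))`, `(A, B) ↦ ψ j (B (w j))`, `i` in `Fin m ⊕ Fin n`. If there
was no such `g`, then on a subgroup `K` of finite index `φ i (L g (v i)) = 0` for some `i` and all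
`g ∈ K` (or `ψ j (L g⁻¹ (w j)) = 0`), and the span of all `L g (v i)`, `g ∈ K`, is invariant under
`K`, not zero and contained in the kernel of `φ i ≠ 0`. -/
def S_pairs : Prop := ∀ {Γ E : Type} [Group Γ] [AddCommGroup E] [Module ℝ E]
  [FiniteDimensional ℝ E] (L : Γ →* (E ≃ₗ[ℝ] E)), StrIrr L → ∀ (m n : ℕ)
  (φ : Fin m → (E →ₗ[ℝ] ℝ)) (v : Fin m → E) (ψ : Fin n → (E →ₗ[ℝ] ℝ)) (w : Fin n → E),
  (∀ i, φ i ≠ 0) → (∀ i, v i ≠ 0) → (∀ j, ψ j ≠ 0) → (∀ j, w j ≠ 0) →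
  ∃ g : Γ, (∀ i, φ i (L g (v i)) ≠ 0) ∧ ∀ j, ψ j (L g⁻¹ (w j)) ≠ 0

/-- the continuous linear map of a linear automorphism -/
noncomputable def cl {E : Type} [NormedAddCommGroup E] [NormedSpace ℝ E] [FiniteDimensional ℝ E]
    (T : E ≃ₗ[ℝ] E) : E →L[ℝ] E := LinearMap.toContinuousLinearMap (T : E →ₗ[ℝ] E)

/-- RANK ONE LIMITS. Choose `g k` with `‖cl (L (g k))‖ → ∞`; by compactness of the unit sphere of
the finite dimensional space `E →L E`, after passing to a subsequence `cl (L (g k)) / ‖·‖ → π ≠ 0`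
and `cl (L (g k)⁻¹) / ‖·‖ → π' ≠ 0`. `det π = 0`, and `π π' = 0 = π' π`, since
`‖L‖ ‖L⁻¹‖ ≥ ‖L‖ ‖...‖ → ∞` (`‖L⁻¹‖` is bounded below, as `|det L⁻¹| = 1` and `|det A| ≤ C ‖A‖ ^ 3`;
and `‖L⁻¹‖ → ∞`, as otherwise `det L` would be unbounded... or: `|det L| = 1 ≤ ‖L v‖ / ‖v‖ ‖...‖`;
simplest: `L⁻¹ = adj L / det L`, and if `‖L⁻¹‖` was bounded along a subsequence then
`L = (L⁻¹)⁻¹ = adj (L⁻¹) / det (L⁻¹)` would be bounded). So the rank of one of `π`, `π'` is one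
(`rank π + rank π' ≤ 3` and both are `≥ 1`; if `rank π = 2` then `rank π' = 1`: replace `g k` by its
inverse). A map of rank one is `v ↦ β v • a`. -/
def S_rank1 : Prop := ∀ {Γ E : Type} [Group Γ] [NormedAddCommGroup E] [NormedSpace ℝ E]
  [FiniteDimensional ℝ E] (L : Γ →* (E ≃ₗ[ℝ] E)), finrank ℝ E = 3 →
  (∀ g, |LinearMap.det (L g : E →ₗ[ℝ] E)| = 1) → (∀ R : ℝ, ∃ g, R < ‖cl (L g)‖) →
  ∃ (g : ℕ → Γ) (c c' : ℕ → ℝ) (β : E →L[ℝ] ℝ) (a : E) (π' : E →L[ℝ] E),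
    Tendsto c atTop atTop ∧ Tendsto c' atTop atTop ∧ β ≠ 0 ∧ a ≠ 0 ∧ π' ≠ 0 ∧
    Tendsto (fun n => (c n)⁻¹ • cl (L (g n))) atTop (𝓝 (β.smulRight a)) ∧
    Tendsto (fun n => (c' n)⁻¹ • cl (L (g n)⁻¹)) atTop (𝓝 π')

/-- PROXIMAL IN BOTH DIRECTIONS. Prove `S_pairs → S_rank1 → S_both`. Let `g, c, c', β, a, π'` be as
in `S_rank1`, `w = π' u ≠ 0`. Choose `δ : Γ` with `β (L δ w) ≠ 0` and `β (L δ⁻¹ w) ≠ 0`
(`S_pairs`), and let `h n = g n δ (g n)⁻¹`. Then `(c n * c' n)⁻¹ • cl (L (h n)) →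
(β.smulRight a) ∘ L δ ∘ π' = β1.smulRight a`, `β1 = β ∘ L δ ∘ π' ≠ 0`, and
`(c n * c' n)⁻¹ • cl (L (h n)⁻¹) → β2.smulRight a`, `β2 = β ∘ L δ⁻¹ ∘ π' ≠ 0`. Choose `η : Γ` with
`β1 (L η a) ≠ 0`, `β2 (L η⁻¹ a) ≠ 0`, and let `f n = η (h n)`: `(c n * c' n)⁻¹ • cl (L (f n)) →
β1.smulRight (L η a)`, of trace `β1 (L η a) ≠ 0`, and `(c n * c' n)⁻¹ • cl (L (f n)⁻¹) →
(β2 ∘ L η⁻¹).smulRight a`, of trace `β2 (L η⁻¹ a) ≠ 0`. -/
def S_both : Prop := ∀ {Γ E : Type} [Group Γ] [NormedAddCommGroup E] [NormedSpace ℝ E]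
  [FiniteDimensional ℝ E] (L : Γ →* (E ≃ₗ[ℝ] E)), finrank ℝ E = 3 → StrIrr L →
  (∀ g, |LinearMap.det (L g : E →ₗ[ℝ] E)| = 1) → (∀ R : ℝ, ∃ g, R < ‖cl (L g)‖) →
  ∃ (f : ℕ → Γ) (c : ℕ → ℝ) (P Q : E →L[ℝ] E), Tendsto c atTop atTop ∧
    LinearMap.trace ℝ E (P : E →ₗ[ℝ] E) ≠ 0 ∧ LinearMap.trace ℝ E (Q : E →ₗ[ℝ] E) ≠ 0 ∧
    Tendsto (fun n => (c n)⁻¹ • cl (L (f n))) atTop (𝓝 P) ∧
    Tendsto (fun n => (c n)⁻¹ • cl (L (f n)⁻¹)) atTop (𝓝 Q)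

/-- CUBIC POLYNOMIALS. Let `f n x = x ^ 3 - τ n * x ^ 2 + d n * q n * x - d n`. Near `x = c s`:
`f n (c s) / c ^ 3 → s ^ 2 (s - p)`, which changes sign at `s = p`: a root `x0` with
`x0 / c → p`. Near the bounded `x`: `f n x / c - (- p x ^ 2 + d q x) → 0`, and
`- p x (x - d q / p)` changes sign at `x = d q / p`: a root `x1` close to `d q / p`. Near
`x = u / c`: `f n (u / c) - (d q u - d) → 0`, which changes sign at `u = 1 / q`: a root `x2` with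
`c x2 → 1 / q`. (Intermediate value theorem. The sign `d n = ±1` depends on `n`; treat both signs.)
The three roots are distinct for large `n`, so `f n` is their product. -/
def S_cubic : Prop := ∀ (c τ q d : ℕ → ℝ) (p' q' : ℝ), Tendsto c atTop atTop → p' ≠ 0 → q' ≠ 0 →
  (∀ n, |d n| = 1) → Tendsto (fun n => τ n / c n) atTop (𝓝 p') →
  Tendsto (fun n => q n / c n) atTop (𝓝 q') → ∀ ε : ℝ, 0 < ε → ∀ᶠ n in atTop,
  ∃ x0 x1 x2 : ℝ, |x1| < |x0| ∧ |x2| < |x1| ∧ x2 ≠ 0 ∧ |(|x1| - |q' / p'|)| < ε ∧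
    ∀ x : ℝ, x ^ 3 - τ n * x ^ 2 + d n * q n * x - d n = (x - x0) * (x - x1) * (x - x2)

/-- regular elements: three real eigenvalues with distinct absolute values -/
structure Reg {E : Type} [AddCommGroup E] [Module ℝ E] (T : E ≃ₗ[ℝ] E)
    (e : Basis (Fin 3) ℝ E) (l : Fin 3 → ℝ) : Prop where
  eig : ∀ i, T (e i) = l i • e i
  h0 : |l 1| < |l 0|
  h1 : |l 2| < |l 1|
  h2 : l 2 ≠ 0

/-- REGULAR ELEMENTS. Prove `S_cubic → S_reg`. The characteristic polynomial of `T` (dimension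
three, `det T = ±1`) is `X ^ 3 - tr T X ^ 2 + det T * tr T⁻¹ X - det T` (by a matrix computation,
`T⁻¹ = adj T / det T`). Apply `S_cubic` with `τ n = tr (T n)`, `q n = tr (T n)⁻¹`, `d n = det (T n)`
(the trace is continuous on `E →L E`). The three distinct roots are eigenvalues, with a basis of
eigenvectors (`Module.End.hasEigenvalue_iff_isRoot_charpoly`,
`Module.End.eigenvectors_linearIndependent`). -/
def S_reg : Prop := ∀ {E : Type} [NormedAddCommGroup E] [NormedSpace ℝ E]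
  [FiniteDimensional ℝ E], finrank ℝ E = 3 → ∀ (T : ℕ → (E ≃ₗ[ℝ] E)) (c : ℕ → ℝ)
  (P Q : E →L[ℝ] E), (∀ n, |LinearMap.det (T n : E →ₗ[ℝ] E)| = 1) → Tendsto c atTop atTop →
  LinearMap.trace ℝ E (P : E →ₗ[ℝ] E) ≠ 0 → LinearMap.trace ℝ E (Q : E →ₗ[ℝ] E) ≠ 0 →
  Tendsto (fun n => (c n)⁻¹ • cl (T n)) atTop (𝓝 P) →
  Tendsto (fun n => (c n)⁻¹ • cl (T n)⁻¹) atTop (𝓝 Q) →
  ∀ ε : ℝ, 0 < ε → ∀ᶠ n in atTop, ∃ (e : Basis (Fin 3) ℝ E) (l : Fin 3 → ℝ), Reg (T n) e l ∧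
    |(|l 1| - |LinearMap.trace ℝ E (Q : E →ₗ[ℝ] E) / LinearMap.trace ℝ E (P : E →ₗ[ℝ] E)|)| < ε

/-- no subgroup of finite index preserves a nonzero symmetric bilinear form -/
def NoForm {Γ E : Type} [Group Γ] [AddCommGroup E] [Module ℝ E] (L : Γ →* (E ≃ₗ[ℝ] E)) : Prop :=
  ∀ K : Subgroup Γ, K.FiniteIndex → ∀ B : E →ₗ[ℝ] E →ₗ[ℝ] ℝ, (∀ v w, B v w = B w v) →
    (∀ g ∈ K, ∀ v w, B (L g v) (L g w) = B v w) → B = 0

/-- FORMS. The matrix coefficients `φ (L g a)` and `ψ (L g⁻¹ b)` of `E` and of its dual space cannot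
agree on a subgroup `K` of finite index. Proof. For `g j ∈ K` and real `c j` with
`∑ c j L (g j) a = 0` and `δ ∈ K`: `0 = φ (L δ (∑ c j L (g j) a)) = ∑ c j φ (L (δ g j) a) =
∑ c j ψ (L (g j)⁻¹ (L δ⁻¹ b))`, and the vectors `L δ⁻¹ b` span `E`. So there is a linear map
`Θ : E → E*` with `Θ (L g a) = ψ ∘ L g⁻¹` for `g ∈ K`; it commutes with the action of `K`, and
`B v w = Θ v w` is a `K`-invariant bilinear form, `B ≠ 0`. (A convenient construction: the subspace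
of all `(v, ξ)` in `E × E*` such that `φ (L δ v) = ξ (L δ⁻¹ b)` for all `δ ∈ K` is invariant under
`K`; its projection to `E` is injective and onto by irreducibility.) Its alternating part
`B v w - B w v` is invariant, and it is degenerate, since `dim E = 3` is odd; its radical is
invariant, so it is `E`, and `B` is symmetric. This contradicts `NoForm`. -/
def S_form : Prop := ∀ {Γ E : Type} [Group Γ] [AddCommGroup E] [Module ℝ E]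
  [FiniteDimensional ℝ E] (L : Γ →* (E ≃ₗ[ℝ] E)), finrank ℝ E = 3 → StrIrr L → NoForm L →
  ∀ K : Subgroup Γ, K.FiniteIndex → ∀ (φ ψ : E →ₗ[ℝ] ℝ) (a b : E), φ ≠ 0 → ψ ≠ 0 → a ≠ 0 →
  b ≠ 0 → ¬ ∀ g ∈ K, φ (L g a) = ψ (L g⁻¹ b)

/-- REGULAR ELEMENTS WITH MIDDLE EIGENVALUE OF MODULUS NOT ONE. Prove
`S_star → S_both → S_reg → S_form → S_mid`.

Proof. By `S_both` and `S_reg` there is a regular `γ : Γ`, basis `e`, eigenvalues `l`. If
`|l 1| ≠ 1` we are done. Let `|l 1| = 1`; then `(l 0 * l 2) ^ 2 = 1` (the determinant is the product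
of the eigenvalues). Write `e0* = e.coord 0`, etc. Claim: there is `δ : Γ` with
`x = e0* (L δ e0) ≠ 0`, `y = e2* (L δ⁻¹ e2) ≠ 0`, `|x| ≠ |y|`. Otherwise, for all `δ`, `x = 0` or
`y = 0` or `x = y` or `x = -y`; by `S_star` (as in `S_pairs`, on `(E →ₗ E) × (E →ₗ E)`) one of these
four linear equations holds on a subgroup `K` of finite index; for `g = 1`, `x = y = 1`, so it is
`x = y`, which contradicts `S_form`. Given `δ`, let `f n = γ ^ (2 n) δ`, `c n = l 0 ^ (2 n)`. Then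
`(c n)⁻¹ • L (f n) → e0 ⊗ (e0* ∘ L δ)`, of trace `x`, and
`(c n)⁻¹ • L (f n)⁻¹ = (c n)⁻¹ • L δ⁻¹ L γ ^ (-2 n) → L δ⁻¹ ∘ (e2 ⊗ e2*)`, of trace `y`, because
`l 2 ^ (-2 n) / l 0 ^ (2 n) = 1`. By `S_reg` for large `n` the element `f n` is regular, and its
middle eigenvalue has modulus close to `|y / x| ≠ 1`. -/
def S_mid : Prop := ∀ {Γ E : Type} [Group Γ] [NormedAddCommGroup E] [NormedSpace ℝ E]
  [FiniteDimensional ℝ E] (L : Γ →* (E ≃ₗ[ℝ] E)), finrank ℝ E = 3 → StrIrr L → NoForm L →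
  (∀ g, |LinearMap.det (L g : E →ₗ[ℝ] E)| = 1) → (∀ R : ℝ, ∃ g, R < ‖cl (L g)‖) →
  ∃ (γ : Γ) (e : Basis (Fin 3) ℝ E) (l : Fin 3 → ℝ), Reg (L γ) e l ∧ |l 1| ≠ 1

/-- CONE. Prove `S_pairs → S_cone`. Write `N = φ.smulRight v` (`x ↦ φ x • v`) and
`g · X = det (L g) • L g X L g⁻¹` (an action of `Γ` on `E →L E`), `⟨X, Y⟩ = tr (X Y)`. The
hypothesis says `⟨N, g · N⟩ ≥ 0` for all `g`, so `⟨g · N, h · N⟩ ≥ 0` for all `g, h`. Let `S` be the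
closure of the set of all `(g · N) / ‖g · N‖`; it is compact, its elements have norm one, are of the
form `ψ.smulRight u` (the set of the maps of rank at most one is closed), and satisfy
`⟨g · N, X⟩ ≥ 0` for all `g`. For `X = ψ.smulRight u ∈ S`, `ψ ≠ 0`, `u ≠ 0`, there is `g` with
`φ (L g⁻¹ u) ≠ 0` and `ψ (L g v) ≠ 0` (`S_pairs`), i.e. `⟨g · N, X⟩ ≠ 0`, so it is positive. By
compactness there are finitely many `g j` such that `Θ X = ∑ ⟨g j · N, X⟩ > 0` on `S`, so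
`Θ X ≥ c ‖X‖` on the orbit of `N`, and on its closed convex conical hull `C`. -/
def S_cone : Prop := ∀ {Γ E : Type} [Group Γ] [NormedAddCommGroup E] [NormedSpace ℝ E]
  [FiniteDimensional ℝ E] (L : Γ →* (E ≃ₗ[ℝ] E)), StrIrr L →
  (∀ g, |LinearMap.det (L g : E →ₗ[ℝ] E)| = 1) → ∀ (φ : E →L[ℝ] ℝ) (v : E), φ ≠ 0 → v ≠ 0 →
  (∀ g, 0 ≤ LinearMap.det (L g : E →ₗ[ℝ] E) * (φ (L g v) * φ (L g⁻¹ v))) →
  ∃ C : Set (E →L[ℝ] E), IsClosed C ∧ (∀ X ∈ C, ∀ Y ∈ C, X + Y ∈ C) ∧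
    (∀ t : ℝ, 0 ≤ t → ∀ X ∈ C, t • X ∈ C) ∧ φ.smulRight v ∈ C ∧
    (∀ g, ∀ X ∈ C, LinearMap.det (L g : E →ₗ[ℝ] E) • ((cl (L g)).comp (X.comp (cl (L g⁻¹)))) ∈ C) ∧
    ∃ (Θ : (E →L[ℝ] E) →ₗ[ℝ] ℝ) (c : ℝ), 0 < c ∧ ∀ X ∈ C, c * ‖X‖ ≤ Θ X

/-- NON-REAL EIGENVALUES. Prove `S_pairs → S_real`. Let `u + i w` be an eigenvector for the
non-real eigenvalue `m` of `T = L g`, `‖m‖ ≠ 1`; we may assume `‖m‖ < 1` (replace `g` by `g⁻¹`, `m`
by `m⁻¹`; `u + i w` is still an eigenvector). `u, w` span a plane `W`, on which `T` is conjugate to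
the multiplication with `m` on `ℂ`; the eigenvalue `r` of `T` on `E / W` is real, and
`|r| ‖m‖ ^ 2 = 1`; let `e` be an eigenvector, `T e = r e`, `E = ℝ e ⊕ W`, `ε : E → ℝ` the linear
form with kernel `W`, `ε e = 1`. For `X : E →L E` let `X' : W → ℝ`, `X' = ε ∘ X |_W`. For
`g · X = det T • T X T⁻¹` we have `(g · X)' = det T * r • X' ∘ T⁻¹|_W`, which is, in the space of
linear forms on `W ≅ ℂ`, a rotation by a non-real unit number times `|r| / ‖m‖ = ‖m‖ ^ (-3)`, and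
all the other components of `g ^ n · X` are `o (‖m‖ ^ (-3 n))`. Choose `h : Γ` with
`ε (L h v) ≠ 0` and `φ (L h⁻¹ w0) ≠ 0`, for some `w0 ≠ 0` in `W` (`S_pairs`); then
`X = h · (φ.smulRight v) ∈ C` has `X' ≠ 0`. With `n k → ∞` such that the `n k`-th powers of the
rotation `R` converge to the identity, `‖m‖ ^ (3 (n k + j)) g ^ (n k + j) · X → Y j :=
(R ^ j X') ⊗ e ∈ C` for all `j ≥ 0`, `Θ (Y j) ≥ c ‖Y j‖ ≥ c' > 0`; but `1 / N ∑_{j < N} Y j → 0`,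
as `R ≠ 1` is a rotation: contradiction. -/
def S_real : Prop := ∀ {Γ E : Type} [Group Γ] [NormedAddCommGroup E] [NormedSpace ℝ E]
  [FiniteDimensional ℝ E] (L : Γ →* (E ≃ₗ[ℝ] E)), finrank ℝ E = 3 → StrIrr L →
  (∀ g, |LinearMap.det (L g : E →ₗ[ℝ] E)| = 1) → ∀ (φ : E →L[ℝ] ℝ) (v : E), φ ≠ 0 → v ≠ 0 →
  ∀ (C : Set (E →L[ℝ] E)) (Θ : (E →L[ℝ] E) →ₗ[ℝ] ℝ) (c : ℝ), IsClosed C →
  (∀ t : ℝ, 0 ≤ t → ∀ X ∈ C, t • X ∈ C) → φ.smulRight v ∈ C →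
  (∀ g, ∀ X ∈ C, LinearMap.det (L g : E →ₗ[ℝ] E) • ((cl (L g)).comp (X.comp (cl (L g⁻¹)))) ∈ C) →
  0 < c → (∀ X ∈ C, c * ‖X‖ ≤ Θ X) →
  ∀ (g : Γ) (m : ℂ) (u w : E), m.im ≠ 0 → (u ≠ 0 ∨ w ≠ 0) →
    L g u = m.re • u - m.im • w → L g w = m.im • u + m.re • w → ‖m‖ = 1

end Pool.Agent.H817.PH
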