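import Pool.Agent.H817.PH.Stm
import Pool.Agent.H817.SV.Prop

/-!
Domain quotients: every affine plane meets the domain; transport to coordinates.
-/

set_option autoImplicit false
set_option linter.unusedSectionVars false

namespace Pool.Agent.H817.PH

open Set Filter Topology Module
open Pool.Agent.W689.Mk

section
variable {X Γ E : Type} [TopologicalSpace X] [T2Space X] [SecondCountableTopology X]
  [ConnectedSpace X] [Group Γ] [MulAction Γ X] [NormedAddCommGroup E]
  [NormedSpace ℝ E] [FiniteDimensional ℝ E] {dev : X → E} {hol : Γ →* (E ≃ᵃ[ℝ] E)}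

/-- every affine hyperplane meets the domain -/
theorem plane_meets (D : AffData X Γ E dev hol) (ψ : E →ₗ[ℝ] ℝ) (hψ : ψ ≠ 0) (c : ℝ) :
    ∃ x, ψ (dev x) = c := by
  by_contra hcon
  push Not at hcon
  obtain ⟨x0⟩ : Nonempty X := inferInstance
  have hcont : Continuous ψ := ψ.continuous_of_finiteDimensional
  obtain ⟨ε, hε, hpos⟩ : ∃ ε : ℝ, ε ≠ 0 ∧ ∀ x, 0 < ε * (ψ (dev x) - c) := by
    have hc : Continuous fun x => ψ (dev x) := hcont.comp D.loc.continuous
    have hpre := isPreconnected_range hc
    rcases lt_or_gt_of_ne (hcon x0) with h0 | h0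
    · refine ⟨-1, by norm_num, fun x => ?_⟩
      by_contra hcon'
      have h1 : c ≤ ψ (dev x) := by linarith
      obtain ⟨z, hz⟩ := hpre.Icc_subset (mem_range_self x0) (mem_range_self x) ⟨h0.le, h1⟩
      exact hcon z hz
    · refine ⟨1, by norm_num, fun x => ?_⟩
      by_contra hcon'
      have h1 : ψ (dev x) ≤ c := by linarith
      obtain ⟨z, hz⟩ := hpre.Icc_subset (mem_range_self x) (mem_range_self x0) ⟨h1, h0.le⟩
      exact hcon z hz
  have hconv : Convex ℝ {q : E | 0 < ε * (ψ q - c)} := by
    intro p hp q hq t u ht hu htu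
    show 0 < ε * (ψ (t • p + u • q) - c)
    have hp' : 0 < ε * (ψ p - c) := hp
    have hq' : 0 < ε * (ψ q - c) := hq
    have e2 : ε * (ψ (t • p + u • q) - c) = t * (ε * (ψ p - c)) + u * (ε * (ψ q - c)) := by
      have : t = 1 - u := by linarith
      rw [map_add, map_smul, map_smul, smul_eq_mul, smul_eq_mul, this]
      ring
    rw [e2]
    rcases eq_or_lt_of_le ht with h0 | h0
    · have : u = 1 := by linarith
      rw [← h0, this]
      linarith
    · have h1 := mul_pos h0 hp'
      have h2 := mul_nonneg hu hq'.le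
      linarith
  have hsub : convexHull ℝ (Set.range dev) ⊆ {q : E | 0 < ε * (ψ q - c)} := by
    refine convexHull_min ?_ hconv
    rintro _ ⟨x, rfl⟩
    exact hpos x
  have huniv : convexHull ℝ (Set.range dev) = univ := by
    refine convex_univ' D (convex_convexHull ℝ _) ⟨dev x0, subset_convexHull ℝ _ ⟨x0, rfl⟩⟩ ?_
    intro γ p hp
    have h1 : (hol γ) '' (convexHull ℝ (Set.range dev)) ⊆ convexHull ℝ (Set.range dev) := by
      have h2 := (hol γ).toAffineMap.image_convexHull (Set.range dev)
      have h3 : (hol γ).toAffineMap '' (convexHull ℝ (Set.range dev)) =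
          (hol γ) '' (convexHull ℝ (Set.range dev)) := rfl
      rw [← h3, h2]
      refine convexHull_mono ?_
      rintro _ ⟨_, ⟨x, rfl⟩, rfl⟩
      exact ⟨γ • x, D.equi γ x⟩
    exact h1 ⟨p, hp, rfl⟩
  obtain ⟨v, hv⟩ : ∃ v, ψ v ≠ 0 := by
    by_contra h
    push Not at h
    exact hψ (LinearMap.ext h)
  have h0 : (c / ψ v) • v ∈ {q : E | 0 < ε * (ψ q - c)} := by
    apply hsub
    rw [huniv]
    exact mem_univ _
  have h1 : 0 < ε * (ψ ((c / ψ v) • v) - c) := h0
  rw [map_smul, smul_eq_mul, div_mul_cancel₀ _ hv, sub_self, mul_zero] at h1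
  exact lt_irrefl _ h1

/-- the linear holonomy as a homomorphism -/
noncomputable def L (hol : Γ →* (E ≃ᵃ[ℝ] E)) : Γ →* (E ≃ₗ[ℝ] E) := AffineEquiv.linearHom.comp hol

theorem L_apply (γ : Γ) (v : E) : L hol γ v = (hol γ).linear v := rfl

theorem L_det (D : AffData X Γ E dev hol) (g : Γ) :
    |LinearMap.det (L hol g : E →ₗ[ℝ] E)| = 1 := D.unimod g

/-- coordinates: origin `p`, basis `e` -/
noncomputable def coo (e : Basis (Fin 3) ℝ E) (p : E) : V3 ≃ᵃ[ℝ] E :=
  e.equivFun.symm.toAffineEquiv.trans (AffineEquiv.constVAdd ℝ E p)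

theorem coo_apply (e : Basis (Fin 3) ℝ E) (p : E) (z : V3) :
    coo e p z = p + e.equivFun.symm z := rfl

theorem coo_symm_apply (e : Basis (Fin 3) ℝ E) (p q : E) :
    (coo e p).symm q = e.equivFun (q - p) := by
  rw [AffineEquiv.symm_apply_eq, coo_apply, LinearEquiv.symm_apply_apply]
  abel

/-- the holonomy in coordinates -/
noncomputable def hol' (hol : Γ →* (E ≃ᵃ[ℝ] E)) (e : Basis (Fin 3) ℝ E) (p : E) :
    Γ →* (V3 ≃ᵃ[ℝ] V3) where
  toFun g := ((coo e p).trans (hol g)).trans (coo e p).symm
  map_one' := by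
    refine AffineEquiv.ext fun z => ?_
    show (coo e p).symm (hol 1 (coo e p z)) = z
    rw [map_one]
    exact (coo e p).symm_apply_apply z
  map_mul' g h := by
    refine AffineEquiv.ext fun z => ?_
    show (coo e p).symm (hol (g * h) (coo e p z)) =
      (coo e p).symm (hol g (coo e p ((coo e p).symm (hol h (coo e p z)))))
    rw [map_mul, AffineEquiv.apply_symm_apply]
    rfl

theorem hol'_apply (e : Basis (Fin 3) ℝ E) (p : E) (g : Γ) (z : V3) :
    hol' hol e p g z = (coo e p).symm (hol g (coo e p z)) := rfl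

theorem hol'_lin (e : Basis (Fin 3) ℝ E) (p : E) (g : Γ) (z : V3) :
    (hol' hol e p g).linear z = e.equivFun (L hol g (e.equivFun.symm z)) := by
  have h1 : hol' hol e p g (0 + z) = hol' hol e p g 0 + (hol' hol e p g).linear z := by
    have := (hol' hol e p g).map_vadd 0 z
    rw [vadd_eq_add, vadd_eq_add, add_comm z 0] at this
    rw [this, add_comm]
  rw [zero_add] at h1
  have h2 : (hol' hol e p g).linear z = hol' hol e p g z - hol' hol e p g 0 := by
    rw [h1]
    abel
  rw [h2, hol'_apply, hol'_apply, coo_symm_apply, coo_symm_apply, coo_apply, coo_apply, map_zero,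
    add_zero, hol_add, ← map_sub]
  congr 1
  show hol g p + lin hol g (e.equivFun.symm z) - p - (hol g p - p) = L hol g (e.equivFun.symm z)
  rw [L_apply]
  abel

theorem mat_hol' (e : Basis (Fin 3) ℝ E) (p : E) (g : Γ) (i j : Fin 3) :
    mat (hol' hol e p g) i j = e.coord i (L hol g (e j)) := by
  rw [mat, LinearMap.toMatrix'_apply]
  show ((hol' hol e p g).linear (Pi.single j 1)) i = _
  rw [hol'_lin]
  have h : e.equivFun.symm (Pi.single j (1 : ℝ)) = e j := by
    rw [LinearEquiv.symm_apply_eq]
    ext i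
    rw [Basis.equivFun_self, Pi.single_apply]
    simp only [eq_comm]
  rw [h]
  rfl

theorem mat_eq (e : Basis (Fin 3) ℝ E) (p : E) (g : Γ) :
    mat (hol' hol e p g) = LinearMap.toMatrix e e (L hol g : E →ₗ[ℝ] E) := by
  ext i j
  rw [mat_hol', LinearMap.toMatrix_apply]
  rfl

theorem det_mat (e : Basis (Fin 3) ℝ E) (p : E) (g : Γ) :
    (mat (hol' hol e p g)).det = LinearMap.det (L hol g : E →ₗ[ℝ] E) := by
  rw [mat_eq, LinearMap.det_toMatrix]

/-- the setup of the dynamical part -/
theorem setup (D : AffData X Γ E dev hol) (hinj : Function.Injective dev) (γ : Γ)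
    (e : Basis (Fin 3) ℝ E) (l : Fin 3 → ℝ) (p : E) (hp : hol γ p = p)
    (he : ∀ i, L hol γ (e i) = l i • e i) (h0 : 1 < |l 0|) (h1 : |l 1| < 1) (h2 : |l 2| < |l 1|)
    (h3 : l 2 ≠ 0) : Setup (hol' hol e p) ((coo e p).symm '' (Set.range dev)) γ l := by
  have hcs : Continuous (coo e p).symm := by
    have : ((coo e p).symm : E → V3) = fun q => e.equivFun (q - p) := by
      funext q
      exact coo_symm_apply e p q
    rw [this]
    exact (e.equivFun.toLinearMap.continuous_of_finiteDimensional).comp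
      (continuous_id.sub continuous_const)
  have hc : Continuous (coo e p) := by
    have : ((coo e p) : V3 → E) = fun z => p + e.equivFun.symm z := by
      funext z
      exact coo_apply e p z
    rw [this]
    exact continuous_const.add (e.equivFun.symm.toLinearMap.continuous_of_finiteDimensional)
  have hoe : IsOpenEmbedding dev := D.loc.isOpenEmbedding_of_injective hinj
  have himg : (coo e p).symm '' (Set.range dev) = (coo e p) ⁻¹' (Set.range dev) := by
    ext z
    constructor
    · rintro ⟨q, hq, rfl⟩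
      show coo e p ((coo e p).symm q) ∈ Set.range dev
      rw [AffineEquiv.apply_symm_apply]
      exact hq
    · intro hz
      exact ⟨coo e p z, hz, (coo e p).symm_apply_apply z⟩
  refine ⟨?_, ?_, ?_, ?_, ?_, h0, h1, h2, h3⟩
  · rw [himg]
    exact hoe.isOpen_range.preimage hc
  · rintro g _ ⟨_, ⟨x, rfl⟩, rfl⟩
    refine ⟨dev (g • x), ⟨g • x, rfl⟩, ?_⟩
    rw [hol'_apply, AffineEquiv.apply_symm_apply, D.equi]
  · rintro _ ⟨_, ⟨x, rfl⟩, rfl⟩ _ ⟨_, ⟨y, rfl⟩, rfl⟩ q g hq hg
    refine SV.fin_range D hinj (x := x) (y := y) (q := fun n => coo e p (q n)) (γ := g) ?_ ?_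
    · have := (hc.tendsto _).comp hq
      rw [AffineEquiv.apply_symm_apply] at this
      exact this
    · have := (hc.tendsto _).comp hg
      rw [AffineEquiv.apply_symm_apply] at this
      refine this.congr fun n => ?_
      show coo e p (hol' hol e p (g n) (q n)) = _
      rw [hol'_apply, AffineEquiv.apply_symm_apply]
  · intro g
    rw [det_mat]
    exact D.unimod g
  · intro v i
    rw [hol'_apply, coo_apply, hol_add, hp, coo_symm_apply]
    have e1 : p + lin hol γ (e.equivFun.symm v) - p = L hol γ (e.equivFun.symm v) := by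
      rw [L_apply]
      show p + lin hol γ (e.equivFun.symm v) - p = lin hol γ (e.equivFun.symm v)
      abel
    rw [e1, Basis.equivFun_symm_apply, map_sum]
    have e2 : ∑ j, L hol γ (v j • e j) = ∑ j, (l j * v j) • e j := by
      refine Finset.sum_congr rfl fun j _ => ?_
      rw [map_smul, he, smul_smul, mul_comm]
    rw [e2, ← Basis.equivFun_symm_apply e (fun j => l j * v j), LinearEquiv.apply_symm_apply]

end

end Pool.Agent.H817.PH
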